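import Pool.Agent.H341R2.NF.ECCount
import Pool.Agent.H341R2.NF.LocalUnit
import Pool.Agent.H921R2.TatePole.Dedekind

/-!
# Local factors of elliptic curves over number fields at the good places
-/

set_option autoImplicit false

namespace Pool.Agent.HW484

open NumberField IsDedekindDomain
open Pool.Agent.H921R2.TatePole (nm two_le_nm nm_summable)
open Pool.Agent.H341R2.EC (aff short aff_eq_short short_scale csum csum_bound short_eq exists_frac)

section
variable {K : Type} [Field K] [NumberField K]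

noncomputable instance instFieldV (v : HeightOneSpectrum (𝓞 K)) : Field (𝓞 K ⧸ v.asIdeal) :=
  letI := v.isMaximal
  Ideal.Quotient.field v.asIdeal

instance finite_v (v : HeightOneSpectrum (𝓞 K)) : Finite (𝓞 K ⧸ v.asIdeal) :=
  Ideal.finiteQuotientOfFreeOfNeBot v.asIdeal v.ne_bot

noncomputable instance instFintypeV (v : HeightOneSpectrum (𝓞 K)) : Fintype (𝓞 K ⧸ v.asIdeal) :=
  Fintype.ofFinite _

noncomputable instance instDecV (v : HeightOneSpectrum (𝓞 K)) : DecidableEq (𝓞 K ⧸ v.asIdeal) :=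
  Classical.decEq _

theorem card_v (v : HeightOneSpectrum (𝓞 K)) : Fintype.card (𝓞 K ⧸ v.asIdeal) = nm v := by
  rw [← Nat.card_eq_fintype_card]
  rfl

/-- reduction at `v` -/
noncomputable def red (v : HeightOneSpectrum (𝓞 K)) (V : WeierstrassCurve (𝓞 K)) :
    WeierstrassCurve (𝓞 K ⧸ v.asIdeal) := V.map (Ideal.Quotient.mk v.asIdeal)

/-- `V` is an integral model of `E`. -/
def IsModel (E : WeierstrassCurve K) (V : WeierstrassCurve (𝓞 K)) : Prop :=
  ∃ C : WeierstrassCurve.VariableChange K, C • V.map (algebraMap (𝓞 K) K) = E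

/-- `V` is an integral model of `E` that is minimal at `v`. -/
def IsMinAt (E : WeierstrassCurve K) (v : HeightOneSpectrum (𝓞 K))
    (V : WeierstrassCurve (𝓞 K)) : Prop :=
  IsModel E V ∧ ∀ W : WeierstrassCurve (𝓞 K), IsModel E W →
    ∀ n : ℕ, V.Δ ∈ v.asIdeal ^ n → W.Δ ∈ v.asIdeal ^ n

theorem mk_ne {v : HeightOneSpectrum (𝓞 K)} {x : 𝓞 K} (hx : x ∉ v.asIdeal) :
    Ideal.Quotient.mk v.asIdeal x ≠ 0 := by
  rwa [Ne, Ideal.Quotient.eq_zero_iff_mem]

theorem minimal_good {E : WeierstrassCurve K} {v : HeightOneSpectrum (𝓞 K)}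
    {V W : WeierstrassCurve (𝓞 K)} (hV : IsMinAt E v V) (hW : IsModel E W) (h : W.Δ ∉ v.asIdeal) :
    V.Δ ∉ v.asIdeal := by
  intro h1
  apply h
  have := hV.2 W hW 1 (by rwa [pow_one])
  rwa [pow_one] at this

theorem aff_model {E : WeierstrassCurve K} {v : HeightOneSpectrum (𝓞 K)}
    {V W : WeierstrassCurve (𝓞 K)} (hV : IsModel E V) (hW : IsModel E W)
    (hVΔ : V.Δ ∉ v.asIdeal) (hWΔ : W.Δ ∉ v.asIdeal) (h6 : (6 : 𝓞 K) ∉ v.asIdeal) :
    aff (red v V) = aff (red v W) := by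
  obtain ⟨C, hC⟩ := hV
  obtain ⟨C', hC'⟩ := hW
  have h1 : (C⁻¹ * C') • W.map (algebraMap (𝓞 K) K) = V.map (algebraMap (𝓞 K) K) := by
    rw [mul_smul, hC', ← hC, smul_smul, inv_mul_cancel, one_smul]
  set D := C⁻¹ * C' with hD
  set u : K := ((D.u⁻¹ : Kˣ) : K) with hu
  have hΔ : u ^ 12 * algebraMap (𝓞 K) K W.Δ = algebraMap (𝓞 K) K V.Δ := by
    have := congrArg WeierstrassCurve.Δ h1
    rwa [WeierstrassCurve.variableChange_Δ, WeierstrassCurve.map_Δ, WeierstrassCurve.map_Δ] at this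
  have hc4 : u ^ 4 * algebraMap (𝓞 K) K W.c₄ = algebraMap (𝓞 K) K V.c₄ := by
    have := congrArg WeierstrassCurve.c₄ h1
    rwa [WeierstrassCurve.variableChange_c₄, WeierstrassCurve.map_c₄,
      WeierstrassCurve.map_c₄] at this
  have hc6 : u ^ 6 * algebraMap (𝓞 K) K W.c₆ = algebraMap (𝓞 K) K V.c₆ := by
    have := congrArg WeierstrassCurve.c₆ h1
    rwa [WeierstrassCurve.variableChange_c₆, WeierstrassCurve.map_c₆,
      WeierstrassCurve.map_c₆] at this
  obtain ⟨a, c, ha, hc, hac⟩ := exists_frac v u V.Δ W.Δ hVΔ hWΔ (by norm_num : 0 < 12) hΔ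
  have e4 : a ^ 4 * W.c₄ = c ^ 4 * V.c₄ := by
    apply IsFractionRing.injective (𝓞 K) K
    rw [map_mul, map_mul, map_pow, map_pow, ← hac, ← hc4]
    ring
  have e6 : a ^ 6 * W.c₆ = c ^ 6 * V.c₆ := by
    apply IsFractionRing.injective (𝓞 K) K
    rw [map_mul, map_mul, map_pow, map_pow, ← hac, ← hc6]
    ring
  have h6' : (6 : 𝓞 K ⧸ v.asIdeal) ≠ 0 := by
    have := mk_ne h6
    rwa [map_ofNat] at this
  have ha' := mk_ne ha
  have hc' := mk_ne hc
  rw [aff_eq_short h6', aff_eq_short h6']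
  unfold red
  rw [WeierstrassCurve.map_c₄, WeierstrassCurve.map_c₄, WeierstrassCurve.map_c₆,
    WeierstrassCurve.map_c₆, ← short_scale ha' (Ideal.Quotient.mk v.asIdeal W.c₄),
    ← short_scale hc' (Ideal.Quotient.mk v.asIdeal V.c₄)]
  rw [← map_pow, ← map_pow, ← map_pow, ← map_pow, ← map_mul, ← map_mul, ← map_mul, ← map_mul,
    e4, e6]

/-- the integral model -/
noncomputable def mdl (P Q : 𝓞 K) : WeierstrassCurve (𝓞 K) where
  a₁ := 0
  a₂ := 0
  a₃ := 0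
  a₄ := -27 * P
  a₆ := -54 * Q

theorem mdl_c₄ (P Q : 𝓞 K) : (mdl P Q).c₄ = 6 ^ 4 * P := by
  simp only [WeierstrassCurve.c₄, WeierstrassCurve.b₂, WeierstrassCurve.b₄, mdl]
  ring

theorem mdl_c₆ (P Q : 𝓞 K) : (mdl P Q).c₆ = 6 ^ 6 * Q := by
  simp only [WeierstrassCurve.c₆, WeierstrassCurve.b₂, WeierstrassCurve.b₄, WeierstrassCurve.b₆,
    mdl]
  ring

theorem mdl_Δ (P Q : 𝓞 K) : 1728 * (mdl P Q).Δ = 6 ^ 12 * (P ^ 3 - Q ^ 2) := by
  rw [WeierstrassCurve.c_relation, mdl_c₄, mdl_c₆]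
  ring

/-- the data of an integral model -/
def Data (E : WeierstrassCurve K) (l P Q : 𝓞 K) : Prop :=
  l ≠ 0 ∧ (P : K) = (l : K) ^ 4 * E.c₄ ∧ (Q : K) = (l : K) ^ 6 * E.c₆ ∧ P ^ 3 - Q ^ 2 ≠ 0

theorem exists_data (E : WeierstrassCurve K) (hE : E.IsElliptic) :
    ∃ l P Q : 𝓞 K, Data E l P Q := by
  classical
  obtain ⟨⟨b, hb⟩, h⟩ := IsLocalization.exist_integer_multiples_of_finset
    (nonZeroDivisors (𝓞 K)) (insert E.c₄ (singleton E.c₆) : Finset K)
  have hb0 : b ≠ 0 := nonZeroDivisors.ne_zero hb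
  have hbK : (algebraMap (𝓞 K) K b) ≠ 0 := by
    rwa [Ne, FaithfulSMul.algebraMap_eq_zero_iff]
  obtain ⟨x, hx⟩ := h E.c₄ (by simp)
  obtain ⟨y, hy⟩ := h E.c₆ (by simp)
  rw [Algebra.smul_def] at hx hy
  have e1 : ((b ^ 3 * x : 𝓞 K) : K) = (algebraMap (𝓞 K) K b) ^ 4 * E.c₄ := by
    have : ((b ^ 3 * x : 𝓞 K) : K) = (algebraMap (𝓞 K) K b) ^ 3 * algebraMap (𝓞 K) K x := by
      simp
    rw [this, hx]
    simp only
    ring
  have e2 : ((b ^ 5 * y : 𝓞 K) : K) = (algebraMap (𝓞 K) K b) ^ 6 * E.c₆ := by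
    have : ((b ^ 5 * y : 𝓞 K) : K) = (algebraMap (𝓞 K) K b) ^ 5 * algebraMap (𝓞 K) K y := by
      simp
    rw [this, hy]
    simp only
    ring
  refine ⟨b, b ^ 3 * x, b ^ 5 * y, hb0, e1, e2, ?_⟩
  intro h0
  have h1 : (((b ^ 3 * x) ^ 3 - (b ^ 5 * y) ^ 2 : 𝓞 K) : K) = 0 := by rw [h0]; simp
  have h2 : (((b ^ 3 * x) ^ 3 - (b ^ 5 * y) ^ 2 : 𝓞 K) : K) =
      ((b ^ 3 * x : 𝓞 K) : K) ^ 3 - ((b ^ 5 * y : 𝓞 K) : K) ^ 2 := by simp
  rw [h2, e1, e2] at h1
  have h3 : (algebraMap (𝓞 K) K b) ^ 12 * (1728 * E.Δ) = 0 := by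
    rw [WeierstrassCurve.c_relation, ← h1]
    ring
  have h4 : E.Δ ≠ 0 := E.isUnit_Δ.ne_zero
  have h5 : (1728 : K) ≠ 0 := by norm_num
  exact mul_ne_zero (pow_ne_zero _ hbK) (mul_ne_zero h5 h4) h3

/-- the short form -/
def tw (E : WeierstrassCurve K) : WeierstrassCurve K where
  a₁ := 0
  a₂ := 0
  a₃ := 0
  a₄ := -27 * E.c₄
  a₆ := -54 * E.c₆

lemma tw_one (E : WeierstrassCurve K) :
    ∃ C : WeierstrassCurve.VariableChange K, C • E = tw E := by
  have h6 : (6 : K) ≠ 0 := by norm_num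
  refine ⟨⟨(Units.mk0 (6 : K) h6)⁻¹, -E.b₂ / 12, -E.a₁ / 2, E.a₁ * E.b₂ / 24 - E.a₃ / 2⟩, ?_⟩
  ext
  · simp [WeierstrassCurve.variableChange_def, tw]
    ring
  · simp [WeierstrassCurve.variableChange_def, tw, WeierstrassCurve.b₂]
    ring
  · simp [WeierstrassCurve.variableChange_def, tw]
    ring
  · simp [WeierstrassCurve.variableChange_def, tw, WeierstrassCurve.b₂, WeierstrassCurve.c₄,
      WeierstrassCurve.b₄]
    ring
  · simp [WeierstrassCurve.variableChange_def, tw, WeierstrassCurve.b₂, WeierstrassCurve.c₆,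
      WeierstrassCurve.b₄, WeierstrassCurve.b₆]
    ring

theorem isModel_mdl {E : WeierstrassCurve K} {l P Q : 𝓞 K} (h : Data E l P Q) :
    IsModel E (mdl P Q) := by
  obtain ⟨hl, hP, hQ, _⟩ := h
  have hlK : (l : K) ≠ 0 := by
    have : (algebraMap (𝓞 K) K l) ≠ 0 := by
      rwa [Ne, FaithfulSMul.algebraMap_eq_zero_iff]
    exact this
  obtain ⟨C0, hC0⟩ := tw_one E
  have h1 : (⟨(Units.mk0 (l : K) hlK)⁻¹, 0, 0, 0⟩ : WeierstrassCurve.VariableChange K) • tw E =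
      (mdl P Q).map (algebraMap (𝓞 K) K) := by
    have e1 : algebraMap (𝓞 K) K (-27 * P) = -27 * (P : K) := by
      simp only [map_mul, map_neg, map_ofNat]
    have e2 : algebraMap (𝓞 K) K (-54 * Q) = -54 * (Q : K) := by
      simp only [map_mul, map_neg, map_ofNat]
    ext
    · simp [WeierstrassCurve.variableChange_def, tw, mdl, WeierstrassCurve.map]
    · simp [WeierstrassCurve.variableChange_def, tw, mdl, WeierstrassCurve.map]
    · simp [WeierstrassCurve.variableChange_def, tw, mdl, WeierstrassCurve.map]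
    · simp only [WeierstrassCurve.variableChange_def, tw, mdl, WeierstrassCurve.map, inv_inv,
        Units.val_mk0]
      rw [e1, hP]
      ring
    · simp only [WeierstrassCurve.variableChange_def, tw, mdl, WeierstrassCurve.map, inv_inv,
        Units.val_mk0]
      rw [e2, hQ]
      ring
  refine ⟨C0⁻¹ * (⟨(Units.mk0 (l : K) hlK)⁻¹, 0, 0, 0⟩ : WeierstrassCurve.VariableChange K)⁻¹, ?_⟩
  rw [← h1, ← hC0, mul_smul, inv_smul_smul, inv_smul_smul]

/-- the character sum of `Y² = X³ - 27PX - 54Q` at `v` -/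
noncomputable def csumv (P Q : 𝓞 K) (v : HeightOneSpectrum (𝓞 K)) : ℤ :=
  csum (Ideal.Quotient.mk v.asIdeal P) (Ideal.Quotient.mk v.asIdeal Q)

/-- The good places. -/
def Good (P Q : 𝓞 K) (v : HeightOneSpectrum (𝓞 K)) : Prop :=
  (6 : 𝓞 K) ∉ v.asIdeal ∧ P ^ 3 - Q ^ 2 ∉ v.asIdeal

theorem count_good {E : WeierstrassCurve K} {l P Q : 𝓞 K} (h : Data E l P Q)
    {v : HeightOneSpectrum (𝓞 K)} {V : WeierstrassCurve (𝓞 K)} (hV : IsMinAt E v V)
    (hg : Good P Q v) :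
    V.Δ ∉ v.asIdeal ∧ (aff (red v V) : ℤ) = nm v + csumv P Q v := by
  obtain ⟨h6, hD⟩ := hg
  have hp := v.isPrime
  have hmodel := isModel_mdl h
  have hΔ : (mdl P Q).Δ ∉ v.asIdeal := by
    intro h
    have h1 : 6 ^ 12 * (P ^ 3 - Q ^ 2) ∈ v.asIdeal := by
      rw [← mdl_Δ]
      exact v.asIdeal.mul_mem_left _ h
    rcases hp.mem_or_mem h1 with h2 | h2
    · exact h6 (hp.mem_of_pow_mem _ h2)
    · exact hD h2
  have hVΔ := minimal_good hV hmodel hΔ
  refine ⟨hVΔ, ?_⟩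
  have h6' : (6 : 𝓞 K ⧸ v.asIdeal) ≠ 0 := by
    have := mk_ne h6
    rwa [map_ofNat] at this
  rw [aff_model hV.1 hmodel hVΔ hΔ h6, aff_eq_short h6']
  have e1 : (red v (mdl P Q)).c₄ = 6 ^ 4 * (Ideal.Quotient.mk v.asIdeal P) := by
    unfold red
    rw [WeierstrassCurve.map_c₄, mdl_c₄]
    simp only [map_mul, map_pow, map_ofNat]
  have e2 : (red v (mdl P Q)).c₆ = 6 ^ 6 * (Ideal.Quotient.mk v.asIdeal Q) := by
    unfold red
    rw [WeierstrassCurve.map_c₆, mdl_c₆]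
    simp only [map_mul, map_pow, map_ofNat]
  rw [e1, e2, short_scale h6', short_eq h6', card_v]
  rfl

theorem csumv_bound {P Q : 𝓞 K} {v : HeightOneSpectrum (𝓞 K)} (hg : Good P Q v) :
    |(csumv P Q v : ℝ)| ≤ 2 * Real.sqrt (nm v) := by
  obtain ⟨h6, hD⟩ := hg
  have h6' : (6 : 𝓞 K ⧸ v.asIdeal) ≠ 0 := by
    have := mk_ne h6
    rwa [map_ofNat] at this
  have h := csum_bound h6' (c := Ideal.Quotient.mk v.asIdeal P)
    (c' := Ideal.Quotient.mk v.asIdeal Q) (by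
      have := mk_ne hD
      rwa [map_sub, map_pow, map_pow] at this)
  rw [card_v] at h
  exact h

theorem finite_mem {x : 𝓞 K} (hx : x ≠ 0) :
    {v : HeightOneSpectrum (𝓞 K) | x ∈ v.asIdeal}.Finite := by
  have h1 : (Ideal.span {x} : Ideal (𝓞 K)) ≠ 0 := by
    rwa [Ne, Ideal.zero_eq_bot, Ideal.span_singleton_eq_bot]
  have h2 := Ideal.finite_factors h1
  refine h2.subset fun v hv => ?_
  simp only [Set.mem_ofPred_eq] at hv ⊢
  rwa [Ideal.dvd_span_singleton]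

lemma finite_bad {P Q : 𝓞 K} (hD : P ^ 3 - Q ^ 2 ≠ 0) :
    {v : HeightOneSpectrum (𝓞 K) | ¬ Good P Q v}.Finite := by
  have h6 : (6 : 𝓞 K) ≠ 0 := by norm_num
  refine ((finite_mem h6).union (finite_mem hD)).subset fun v hv => ?_
  have hv' : ¬ Good P Q v := hv
  rw [Good, not_and_or, not_not, not_not] at hv'
  exact hv'

theorem aff_le {k : Type*} [Field k] [Fintype k] (V : WeierstrassCurve k) :
    aff V ≤ 2 * Fintype.card k := by
  classical
  unfold aff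
  have e : {p : k × k // p.2 ^ 2 + V.a₁ * p.1 * p.2 + V.a₃ * p.2 =
      p.1 ^ 3 + V.a₂ * p.1 ^ 2 + V.a₄ * p.1 + V.a₆} ≃
      (x : k) × {y : k // y ^ 2 + V.a₁ * x * y + V.a₃ * y =
        x ^ 3 + V.a₂ * x ^ 2 + V.a₄ * x + V.a₆} :=
    { toFun := fun p => ⟨p.1.1, ⟨p.1.2, p.2⟩⟩
      invFun := fun q => ⟨(q.1, q.2.1), q.2.2⟩
      left_inv := fun p => rfl
      right_inv := fun q => rfl }
  rw [Nat.card_congr e, Nat.card_eq_fintype_card, Fintype.card_sigma]
  have h1 : ∀ x : k, Fintype.card {y : k // y ^ 2 + V.a₁ * x * y + V.a₃ * y =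
        x ^ 3 + V.a₂ * x ^ 2 + V.a₄ * x + V.a₆} ≤ 2 := by
    intro x
    by_contra hcon
    push Not at hcon
    obtain ⟨a, b, c, hab, hac, hbc⟩ := Fintype.two_lt_card_iff.1 hcon
    have ha := a.2
    have hb := b.2
    have hc := c.2
    have hab' : a.1 - b.1 ≠ 0 := sub_ne_zero.2 fun h => hab (Subtype.ext h)
    have hac' : a.1 - c.1 ≠ 0 := sub_ne_zero.2 fun h => hac (Subtype.ext h)
    have hbc' : b.1 - c.1 ≠ 0 := sub_ne_zero.2 fun h => hbc (Subtype.ext h)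
    have e1 : (a.1 - b.1) * (a.1 + b.1 + V.a₁ * x + V.a₃) = 0 := by linear_combination ha - hb
    have e2 : (a.1 - c.1) * (a.1 + c.1 + V.a₁ * x + V.a₃) = 0 := by linear_combination ha - hc
    have e3 := (mul_eq_zero.1 e1).resolve_left hab'
    have e4 := (mul_eq_zero.1 e2).resolve_left hac'
    exact hbc' (by linear_combination e3 - e4)
  calc ∑ x : k, Fintype.card {y : k // y ^ 2 + V.a₁ * x * y + V.a₃ * y =
        x ^ 3 + V.a₂ * x ^ 2 + V.a₄ * x + V.a₆} ≤ ∑ _x : k, 2 := Finset.sum_le_sum fun x _ => h1 x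
    _ = 2 * Fintype.card k := by simp [mul_comm]

end

section basechange

variable {k k' : Type} [Field k] [Fintype k] [DecidableEq k] [Field k'] [Fintype k'] [DecidableEq k']

theorem short_congr (e : k ≃+* k') (c c' : k) : short (e c) (e c') = short c c' := by
  unfold short
  refine (Nat.card_congr (Equiv.subtypeEquiv (e.toEquiv.prodCongr e.toEquiv) fun p => ?_)).symm
  simp only [Equiv.prodCongr_apply, Prod.map, RingEquiv.toEquiv_eq_coe, EquivLike.coe_coe]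
  rw [← map_pow, ← map_pow, ← map_ofNat e 27, ← map_ofNat e 54, ← map_mul, ← map_mul, ← map_mul,
    ← map_sub, ← map_sub]
  exact e.injective.eq_iff.symm

theorem csum_congr (e : k ≃+* k') (h6 : (6 : k) ≠ 0) (c c' : k) :
    csum (e c) (e c') = csum c c' := by
  have h6' : (6 : k') ≠ 0 := by
    intro h
    apply h6
    apply e.injective
    rw [map_ofNat, map_zero, h]
  have h1 := short_eq h6 c c'
  have h2 := short_eq h6' (e c) (e c')
  rw [short_congr] at h2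
  have h3 : Fintype.card k = Fintype.card k' := Fintype.card_congr e.toEquiv
  unfold csum
  rw [h1, h3] at h2
  linarith

end basechange

end Pool.Agent.HW484
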