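import Pool.Agent.HW484.A

/-!
# The Euler product: convergence and non-vanishing
-/

set_option autoImplicit false
set_option linter.unusedSectionVars false

namespace Pool.Agent.HW484

open NumberField IsDedekindDomain
open Pool.Agent.H921R2.TatePole (nm two_le_nm nm_summable)
open Pool.Agent.H341R2.EC (aff short aff_eq_short short_scale csum csum_bound short_eq exists_frac)

section
variable {K : Type} [Field K] [NumberField K]

/-- There are integral models which are minimal at the given places. -/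
theorem exists_min (E : WeierstrassCurve K) (hE : E.IsElliptic) (v : HeightOneSpectrum (𝓞 K)) :
    ∃ V : WeierstrassCurve (𝓞 K), IsMinAt E v V := by
  classical
  obtain ⟨l, P, Q, hd⟩ := exists_data E hE
  have hne : ∀ V : WeierstrassCurve (𝓞 K), IsModel E V → V.Δ ≠ 0 := by
    rintro V ⟨C, hC⟩ h0
    have h1 := congrArg WeierstrassCurve.Δ hC
    rw [WeierstrassCurve.variableChange_Δ, WeierstrassCurve.map_Δ, h0, map_zero, mul_zero] at h1
    exact E.isUnit_Δ.ne_zero h1.symm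
  have hex : ∀ V : WeierstrassCurve (𝓞 K), IsModel E V → ∃ n : ℕ, V.Δ ∉ v.asIdeal ^ n := by
    intro V hV
    by_contra hcon
    push Not at hcon
    have h1 : V.Δ ∈ (⨅ n : ℕ, v.asIdeal ^ n : Ideal (𝓞 K)) := by
      rw [Ideal.mem_iInf]
      exact hcon
    rw [Ideal.iInf_pow_eq_bot_of_isDomain _ v.isPrime.ne_top] at h1
    exact hne V hV h1
  -- minimal `n` with a model outside of `v ^ n`
  have hS : ∃ n : ℕ, ∃ V : WeierstrassCurve (𝓞 K), IsModel E V ∧ V.Δ ∉ v.asIdeal ^ n := by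
    obtain ⟨n, hn⟩ := hex _ (isModel_mdl hd)
    exact ⟨n, _, isModel_mdl hd, hn⟩
  obtain ⟨V, hV, hn⟩ := Nat.find_spec hS
  refine ⟨V, hV, fun W hW n hVn => ?_⟩
  by_contra hWn
  have h1 : Nat.find hS ≤ n := Nat.find_min' hS ⟨W, hW, hWn⟩
  exact hn (Ideal.pow_le_pow_right h1 hVn)

/-- the trace -/
noncomputable def trc (W : HeightOneSpectrum (𝓞 K) → WeierstrassCurve (𝓞 K))
    (v : HeightOneSpectrum (𝓞 K)) : ℤ := nm v - aff (red v (W v))

open Classical in
/-- the inverse of the Euler factor -/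
noncomputable def fac (W : HeightOneSpectrum (𝓞 K) → WeierstrassCurve (𝓞 K))
    (v : HeightOneSpectrum (𝓞 K)) (s : ℂ) : ℂ :=
  1 - (trc W v : ℂ) * (nm v : ℂ) ^ (-s) +
    (if (W v).Δ ∈ v.asIdeal then 0 else (nm v : ℂ)) * (nm v : ℂ) ^ (-2 * s)

lemma nm_pos (v : HeightOneSpectrum (𝓞 K)) : (0 : ℝ) < nm v := by
  have := two_le_nm v
  exact_mod_cast (by omega : 0 < nm v)

lemma nmC_ne (v : HeightOneSpectrum (𝓞 K)) : (nm v : ℂ) ≠ 0 := by
  have := two_le_nm v
  exact_mod_cast (by omega : nm v ≠ 0)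

lemma trc_abs (W : HeightOneSpectrum (𝓞 K) → WeierstrassCurve (𝓞 K))
    (v : HeightOneSpectrum (𝓞 K)) : |(trc W v : ℝ)| ≤ nm v := by
  have h1 := aff_le (red v (W v))
  rw [card_v] at h1
  have h2 : (aff (red v (W v)) : ℝ) ≤ 2 * nm v := by exact_mod_cast h1
  have h3 : (0 : ℝ) ≤ aff (red v (W v)) := Nat.cast_nonneg _
  unfold trc
  push_cast
  rw [abs_le]
  constructor <;> linarith

lemma norm_cpow (v : HeightOneSpectrum (𝓞 K)) (s : ℂ) :
    ‖(nm v : ℂ) ^ s‖ = (nm v : ℝ) ^ s.re := by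
  have := two_le_nm v
  exact Complex.norm_natCast_cpow_of_pos (by omega) s

open Classical in
/-- the Euler factors do not vanish in the half-plane of absolute convergence -/
theorem fac_ne (W : HeightOneSpectrum (𝓞 K) → WeierstrassCurve (𝓞 K))
    (v : HeightOneSpectrum (𝓞 K)) {s : ℂ} (hs : 3 / 2 < s.re) : fac W v s ≠ 0 := by
  have h0 := nm_pos v
  have h2 : (2 : ℝ) ≤ nm v := by exact_mod_cast two_le_nm v
  have h1 : (1 : ℝ) ≤ nm v := by linarith
  set q : ℝ := (nm v : ℝ) with hq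
  have ha : ‖(trc W v : ℂ) * (nm v : ℂ) ^ (-s)‖ ≤ (Real.sqrt 2)⁻¹ := by
    rw [norm_mul, Complex.norm_intCast, norm_cpow, Complex.neg_re, ← hq]
    have h3 : q ^ (-s.re) ≤ q ^ (-(3 / 2) : ℝ) :=
      Real.rpow_le_rpow_of_exponent_le h1 (by linarith)
    have h4 : q * q ^ (-(3 / 2) : ℝ) = (Real.sqrt q)⁻¹ := by
      rw [Real.sqrt_eq_rpow, ← Real.rpow_neg h0.le]
      nth_rewrite 1 [← Real.rpow_one q]
      rw [← Real.rpow_add h0]
      norm_num
    calc |(trc W v : ℝ)| * q ^ (-s.re) ≤ q * q ^ (-(3 / 2) : ℝ) :=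
          mul_le_mul (trc_abs W v) h3 (by positivity) h0.le
      _ = (Real.sqrt q)⁻¹ := h4
      _ ≤ (Real.sqrt 2)⁻¹ := inv_anti₀ (by positivity) (Real.sqrt_le_sqrt h2)
  have hb : ‖(if (W v).Δ ∈ v.asIdeal then 0 else (nm v : ℂ)) * (nm v : ℂ) ^ (-2 * s)‖ ≤ 1 / 4 := by
    have h3 : ‖(nm v : ℂ) * (nm v : ℂ) ^ (-2 * s)‖ ≤ 1 / 4 := by
      rw [norm_mul, Complex.norm_natCast, norm_cpow, ← hq]
      have e : (-2 * s).re = -2 * s.re := by simp
      rw [e]
      have h3 : q ^ (-2 * s.re) ≤ q ^ (-3 : ℝ) :=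
        Real.rpow_le_rpow_of_exponent_le h1 (by linarith)
      have h4 : q * q ^ (-3 : ℝ) = (q ^ 2)⁻¹ := by
        nth_rewrite 1 [← Real.rpow_one q]
        rw [← Real.rpow_add h0, ← Real.rpow_natCast q 2, ← Real.rpow_neg h0.le]
        norm_num
      calc q * q ^ (-2 * s.re) ≤ q * q ^ (-3 : ℝ) := mul_le_mul_of_nonneg_left h3 h0.le
        _ = (q ^ 2)⁻¹ := h4
        _ ≤ (2 ^ 2)⁻¹ := inv_anti₀ (by norm_num) (pow_le_pow_left₀ (by norm_num) h2 2)
        _ = 1 / 4 := by norm_num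
    split_ifs
    · rw [zero_mul, norm_zero]; norm_num
    · exact h3
  intro h
  have h5 : (1 : ℂ) = (trc W v : ℂ) * (nm v : ℂ) ^ (-s) -
      (if (W v).Δ ∈ v.asIdeal then 0 else (nm v : ℂ)) * (nm v : ℂ) ^ (-2 * s) := by
    unfold fac at h
    linear_combination h
  have h6 := norm_sub_le ((trc W v : ℂ) * (nm v : ℂ) ^ (-s))
    ((if (W v).Δ ∈ v.asIdeal then 0 else (nm v : ℂ)) * (nm v : ℂ) ^ (-2 * s))
  rw [← h5, norm_one] at h6
  have h7 : (Real.sqrt 2)⁻¹ < 3 / 4 := by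
    rw [inv_lt_comm₀ (by positivity) (by norm_num)]
    rw [Real.lt_sqrt (by norm_num)]
    norm_num
  linarith

lemma fac_analytic (W : HeightOneSpectrum (𝓞 K) → WeierstrassCurve (𝓞 K))
    (v : HeightOneSpectrum (𝓞 K)) : Differentiable ℂ (fac W v) := by
  intro s
  unfold fac
  have h1 : DifferentiableAt ℂ (fun s : ℂ => (nm v : ℂ) ^ (-s)) s :=
    (differentiableAt_id.neg).const_cpow (Or.inl (nmC_ne v))
  have h2 : DifferentiableAt ℂ (fun s : ℂ => (nm v : ℂ) ^ (-2 * s)) s :=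
    ((differentiableAt_const _).mul differentiableAt_id).const_cpow (Or.inl (nmC_ne v))
  exact ((differentiableAt_const _).sub ((differentiableAt_const _).mul h1)).add
    ((differentiableAt_const _).mul h2)

lemma fac_mero (W : HeightOneSpectrum (𝓞 K) → WeierstrassCurve (𝓞 K))
    (v : HeightOneSpectrum (𝓞 K)) (Ω : Set ℂ) : MeromorphicOn (fac W v) Ω :=
  fun s _ => ((fac_analytic W v).analyticAt s).meromorphicAt

variable {E : WeierstrassCurve K} {W : HeightOneSpectrum (𝓞 K) → WeierstrassCurve (𝓞 K)}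

/-- the Euler factor at a good place -/
theorem fac_good {l P Q : 𝓞 K} (hd : Data E l P Q) (hW : ∀ v, IsMinAt E v (W v))
    {v : HeightOneSpectrum (𝓞 K)} (hg : Good P Q v) (s : ℂ) :
    fac W v s = 1 + (csumv P Q v : ℂ) * (nm v : ℂ) ^ (-s) + (nm v : ℂ) * (nm v : ℂ) ^ (-2 * s) := by
  obtain ⟨h1, h2⟩ := count_good hd (hW v) hg
  have h3 : trc W v = -csumv P Q v := by
    unfold trc
    rw [h2]
    ring
  unfold fac
  rw [if_neg h1, h3]
  push_cast
  ring

theorem summable_fac (hE : E.IsElliptic) (hW : ∀ v, IsMinAt E v (W v)) {s : ℂ}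
    (hs : 3 / 2 < s.re) : Summable fun v => ‖fac W v s - 1‖ := by
  obtain ⟨l, P, Q, hd⟩ := exists_data E hE
  have hfin := finite_bad hd.2.2.2
  set x : ℝ := s.re - 1 / 2 with hx
  have hx1 : 1 < x := by rw [hx]; linarith
  have h1 : Summable fun v : HeightOneSpectrum (𝓞 K) => 3 * (nm v : ℝ) ^ (-x) :=
    (nm_summable hx1).mul_left 3
  refine Summable.of_norm_bounded_eventually h1 ?_
  rw [Filter.eventually_cofinite]
  refine hfin.subset fun v hv => ?_
  intro hg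
  apply hv
  have h0 := nm_pos v
  have h2 : (1 : ℝ) ≤ nm v := by
    have := two_le_nm v
    exact_mod_cast (by omega : 1 ≤ nm v)
  rw [norm_norm, fac_good hd hW hg]
  have e : 1 + (csumv P Q v : ℂ) * (nm v : ℂ) ^ (-s) + (nm v : ℂ) * (nm v : ℂ) ^ (-2 * s) - 1 =
    (csumv P Q v : ℂ) * (nm v : ℂ) ^ (-s) + (nm v : ℂ) * (nm v : ℂ) ^ (-2 * s) := by ring
  rw [e]
  have h3 : ‖(csumv P Q v : ℂ) * (nm v : ℂ) ^ (-s)‖ ≤ 2 * (nm v : ℝ) ^ (-x) := by
    rw [norm_mul, Complex.norm_intCast, norm_cpow, Complex.neg_re]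
    calc |(csumv P Q v : ℝ)| * (nm v : ℝ) ^ (-s.re) ≤ (2 * Real.sqrt (nm v)) * (nm v : ℝ) ^ (-s.re) :=
          mul_le_mul_of_nonneg_right (csumv_bound hg) (by positivity)
      _ = 2 * (nm v : ℝ) ^ (-x) := by
        rw [mul_assoc, Real.sqrt_eq_rpow, ← Real.rpow_add h0, hx]
        congr 2
        ring
  have h4 : ‖(nm v : ℂ) * (nm v : ℂ) ^ (-2 * s)‖ ≤ 1 * (nm v : ℝ) ^ (-x) := by
    rw [norm_mul, Complex.norm_natCast, norm_cpow]
    have e : (-2 * s).re = -2 * s.re := by simp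
    rw [e, one_mul]
    nth_rewrite 1 [← Real.rpow_one (nm v : ℝ)]
    rw [← Real.rpow_add h0]
    exact Real.rpow_le_rpow_of_exponent_le h2 (by rw [hx]; linarith)
  calc _ ≤ 2 * (nm v : ℝ) ^ (-x) + 1 * (nm v : ℝ) ^ (-x) := (norm_add_le _ _).trans (add_le_add h3 h4)
    _ = _ := by ring

/-- the L-series -/
noncomputable def LS (W : HeightOneSpectrum (𝓞 K) → WeierstrassCurve (𝓞 K)) (s : ℂ) : ℂ :=
  ∏' v : HeightOneSpectrum (𝓞 K), (fac W v s)⁻¹

theorem hasProd_LS (hE : E.IsElliptic) (hW : ∀ v, IsMinAt E v (W v)) {s : ℂ}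
    (hs : 3 / 2 < s.re) : HasProd (fun v => (fac W v s)⁻¹) (LS W s) ∧ LS W s ≠ 0 := by
  have h1 := summable_fac hE hW hs
  have e : ∀ v, fac W v s = 1 + (fac W v s - 1) := fun v => by ring
  have h2 : Multipliable fun v => fac W v s := by
    have := multipliable_one_add_of_summable h1
    refine this.congr fun v => (e v).symm
  have h3 : ∏' v, fac W v s ≠ 0 := by
    have := tprod_one_add_ne_zero_of_summable (f := fun v => fac W v s - 1)
      (fun v => by rw [← e]; exact fac_ne W v hs) h1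
    rwa [tprod_congr fun v => (e v).symm] at this
  have h4 := h2.hasProd.inv₀ h3
  unfold LS
  rw [h4.tprod_eq]
  exact ⟨h4, inv_ne_zero h3⟩

end

end Pool.Agent.HW484
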