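import Pool.Agent.HW484.A2
import Pool.Agent.W164.RC.Split

/-!
# Places in extensions of number fields
-/

set_option autoImplicit false
set_option linter.unusedSectionVars false

namespace Pool.Agent.HW484

open NumberField IsDedekindDomain
open Pool.Agent.H921R2.TatePole (nm two_le_nm nm_summable)
open Pool.Agent.H341R2.EC (aff short aff_eq_short short_scale csum csum_bound short_eq exists_frac)

section
variable (K : Type) {F : Type} [Field F] [NumberField F] [Field K] [NumberField K] [Algebra K F]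

/-- the prime below -/
noncomputable def dn (w : HeightOneSpectrum (𝓞 F)) : HeightOneSpectrum (𝓞 K) :=
  ⟨w.asIdeal.under (𝓞 K), Ideal.IsPrime.under _ _, fun h0 => w.ne_bot (Ideal.eq_bot_of_comap_eq_bot h0)⟩

variable {K}

lemma dn_mem {w : HeightOneSpectrum (𝓞 F)} {α : 𝓞 K} :
    α ∈ (dn K w).asIdeal ↔ algebraMap (𝓞 K) (𝓞 F) α ∈ w.asIdeal := Iff.rfl

lemma dn_over {w : HeightOneSpectrum (𝓞 F)} {v : HeightOneSpectrum (𝓞 K)} (h : dn K w = v) :
    w.asIdeal.LiesOver v.asIdeal := ⟨by rw [← h]; rfl⟩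

/-- the fibre -/
noncomputable def fibEquiv (v : HeightOneSpectrum (𝓞 K)) :
    {w : HeightOneSpectrum (𝓞 F) // dn K w = v} ≃ v.asIdeal.primesOver (𝓞 F) where
  toFun w := ⟨w.1.asIdeal, w.1.isPrime, ⟨(congrArg HeightOneSpectrum.asIdeal w.2).symm⟩⟩
  invFun P := ⟨⟨P.1, P.2.1, by
    intro h0
    have h1 : v.asIdeal = P.1.under (𝓞 K) := P.2.2.over
    apply v.ne_bot
    rw [h1, h0]
    rw [Ideal.under_def, Ideal.comap_bot_of_injective]
    exact FaithfulSMul.algebraMap_injective (𝓞 K) (𝓞 F)⟩, by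
    apply HeightOneSpectrum.ext
    exact P.2.2.over.symm⟩
  left_inv w := rfl
  right_inv P := rfl

instance fib_finite (v : HeightOneSpectrum (𝓞 K)) :
    Finite {w : HeightOneSpectrum (𝓞 F) // dn K w = v} := by
  have h : Finite (v.asIdeal.primesOver (𝓞 F)) :=
    (IsDedekindDomain.primesOver_finite v.asIdeal (𝓞 F)).to_subtype
  exact Finite.of_equiv _ (fibEquiv v).symm

noncomputable instance fib_fintype (v : HeightOneSpectrum (𝓞 K)) :
    Fintype {w : HeightOneSpectrum (𝓞 F) // dn K w = v} := Fintype.ofFinite _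

lemma dn_surj (v : HeightOneSpectrum (𝓞 K)) : ∃ w : HeightOneSpectrum (𝓞 F), dn K w = v := by
  obtain ⟨P⟩ := (inferInstance : Nonempty (v.asIdeal.primesOver (𝓞 F)))
  exact ⟨((fibEquiv v).symm P).1, ((fibEquiv v).symm P).2⟩

variable (K F)

/-- the inertia groups over `v` are trivial -/
def Unram (v : HeightOneSpectrum (𝓞 K)) : Prop :=
  ∀ w : HeightOneSpectrum (𝓞 F), dn K w = v → ∀ σ : F ≃ₐ[K] F,
    (∀ x : 𝓞 F, σ • x - x ∈ w.asIdeal) → σ = 1

theorem finite_ram : {v : HeightOneSpectrum (𝓞 K) | ¬ Unram K F v}.Finite := by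
  classical
  have hfd : FiniteDimensional K F := Module.Finite.of_restrictScalars_finite ℚ K F
  have hex : ∀ σ : F ≃ₐ[K] F, ∃ x : 𝓞 F, σ ≠ 1 → σ • x - x ≠ 0 := by
    intro σ
    by_cases hσ : σ = 1
    · exact ⟨0, fun h => (h hσ).elim⟩
    · by_contra hcon
      push Not at hcon
      apply hσ
      have h1 : ∀ x : 𝓞 F, σ (x : F) = x := by
        intro x
        have h2 := sub_eq_zero.1 (hcon x).2
        have h3 := congrArg (algebraMap (𝓞 F) F) h2
        exact h3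
      ext y
      obtain ⟨a, b, hb, rfl⟩ := IsFractionRing.div_surjective (𝓞 F) y
      rw [map_div₀]
      have h4 := h1 a
      have h5 := h1 b
      rw [h4, h5]
      rfl
  choose x hx using hex
  set D : 𝓞 F := ∏ σ : F ≃ₐ[K] F, if σ = 1 then 1 else σ • x σ - x σ with hD
  have hD0 : D ≠ 0 := by
    rw [hD, Finset.prod_ne_zero_iff]
    intro σ _
    split_ifs with h
    · exact one_ne_zero
    · exact hx σ h
  refine ((finite_mem hD0).image (dn K)).subset fun v hv => ?_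
  have hv' : ¬ Unram K F v := hv
  unfold Unram at hv'
  push Not at hv'
  obtain ⟨w, hw, σ, hσ, hσ1⟩ := hv'
  refine ⟨w, ?_, hw⟩
  show D ∈ w.asIdeal
  rw [hD]
  refine Ideal.mem_of_dvd _ (Finset.dvd_prod_of_mem _ (Finset.mem_univ σ)) ?_
  rw [if_neg hσ1]
  exact hσ (x σ)

end

section
variable {K F : Type} [Field F] [NumberField F] [Field K] [NumberField K] [Algebra K F] [IsGalois K F]

lemma exists_frob {v : HeightOneSpectrum (𝓞 K)} {w : HeightOneSpectrum (𝓞 F)} (hw : dn K w = v) :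
    ∃ σ : F ≃ₐ[K] F, ∀ x : 𝓞 F, σ • x - x ^ nm v ∈ w.asIdeal := by
  have hQ := w.isPrime
  have hfw : Finite (𝓞 F ⧸ w.asIdeal) := Ideal.finiteQuotientOfFreeOfNeBot w.asIdeal w.ne_bot
  obtain ⟨σ, hσ⟩ := IsArithFrobAt.exists_of_isInvariant (𝓞 K) (F ≃ₐ[K] F) w.asIdeal
  refine ⟨σ, fun x => ?_⟩
  have h1 := hσ x
  have h2 : Nat.card (𝓞 K ⧸ w.asIdeal.under (𝓞 K)) = nm v := by
    unfold nm
    rw [Ideal.absNorm_apply, Submodule.cardQuot_apply, ← hw]
    rfl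
  rw [h2] at h1
  exact h1

lemma frob_key {v : HeightOneSpectrum (𝓞 K)} (hun : Unram K F v) (w : HeightOneSpectrum (𝓞 F))
    (σ : F ≃ₐ[K] F) (hw : dn K w = v) (hσ : ∀ x : 𝓞 F, σ • x - x ^ nm v ∈ w.asIdeal) :
      nm w = nm v ^ orderOf σ ∧
      (v.asIdeal.primesOver (𝓞 F)).ncard * orderOf σ = Nat.card (F ≃ₐ[K] F) := by
  have hfv : Finite (𝓞 K ⧸ v.asIdeal) := Ideal.finiteQuotientOfFreeOfNeBot v.asIdeal v.ne_bot
  have hfw : Finite (𝓞 F ⧸ w.asIdeal) := Ideal.finiteQuotientOfFreeOfNeBot w.asIdeal w.ne_bot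
  have hover : w.asIdeal.LiesOver v.asIdeal := dn_over hw
  exact Pool.Agent.W164.RC.split_abs (F ≃ₐ[K] F) v.asIdeal w.asIdeal (hun w hw) σ hσ

/-- splitting of an unramified prime -/
theorem frob_split {v : HeightOneSpectrum (𝓞 K)} (hun : Unram K F v)
    {w0 : HeightOneSpectrum (𝓞 F)} {σ0 : F ≃ₐ[K] F} (hw0 : dn K w0 = v)
    (hσ0 : ∀ x : 𝓞 F, σ0 • x - x ^ nm v ∈ w0.asIdeal) :
      (∀ w : HeightOneSpectrum (𝓞 F), dn K w = v → nm w = nm v ^ orderOf σ0) ∧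
      Nat.card {w : HeightOneSpectrum (𝓞 F) // dn K w = v} * orderOf σ0 = Nat.card (F ≃ₐ[K] F) := by
  obtain ⟨h1, h2⟩ := frob_key hun w0 σ0 hw0 hσ0
  refine ⟨fun w hw => ?_, ?_⟩
  · obtain ⟨σ, hσ⟩ := exists_frob hw
    obtain ⟨h3, h4⟩ := frob_key hun w σ hw hσ
    rw [← h2] at h4
    have h5 : (v.asIdeal.primesOver (𝓞 F)).ncard ≠ 0 := by
      intro h0
      rw [h0, zero_mul] at h2
      exact Nat.card_pos.ne h2
    rw [h3, Nat.eq_of_mul_eq_mul_left (Nat.pos_of_ne_zero h5) h4]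
  · rw [Nat.card_congr (fibEquiv v), Nat.card_coe_set_eq]
    exact h2

variable {M : Type} [Field M] [NumberField M] [Algebra K M] [Algebra F M] [IsScalarTower K F M]
  [IsGalois K M]

/-- splitting in `F`, in terms of a Frobenius element of a larger field `M` -/
theorem frob_link {v : HeightOneSpectrum (𝓞 K)} (hun : Unram K F v)
    {P : HeightOneSpectrum (𝓞 M)} {σ : M ≃ₐ[K] M} (hP : dn K P = v)
    (hσ : ∀ x : 𝓞 M, σ • x - x ^ nm v ∈ P.asIdeal) :
      (∀ w : HeightOneSpectrum (𝓞 F), dn K w = v →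
        nm w = nm v ^ orderOf (AlgEquiv.restrictNormalHom F σ)) ∧
      Nat.card {w : HeightOneSpectrum (𝓞 F) // dn K w = v} *
        orderOf (AlgEquiv.restrictNormalHom F σ) = Nat.card (F ≃ₐ[K] F) := by
  have hw0 : dn K (dn F P) = v := by
    rw [← hP]
    apply HeightOneSpectrum.ext
    show (P.asIdeal.under (𝓞 F)).under (𝓞 K) = P.asIdeal.under (𝓞 K)
    rw [Ideal.under_under]
  refine frob_split hun hw0 fun x => ?_
  rw [dn_mem, map_sub, map_pow]
  have h1 : algebraMap (𝓞 F) (𝓞 M) (AlgEquiv.restrictNormalHom F σ • x) =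
      σ • algebraMap (𝓞 F) (𝓞 M) x := by
    apply IsFractionRing.injective (𝓞 M) M
    have h2 := AlgEquiv.restrictNormal_commutes σ F (x : F)
    exact h2
  rw [h1]
  exact hσ _

end

section product
variable {K F : Type} [Field F] [NumberField F] [Field K] [NumberField K] [Algebra K F]

/-- the product of the Euler factors over a place of `K` -/
noncomputable def GG (W : HeightOneSpectrum (𝓞 F) → WeierstrassCurve (𝓞 F)) (s : ℂ)
    (v : HeightOneSpectrum (𝓞 K)) : ℂ :=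
  ∏ w : {w : HeightOneSpectrum (𝓞 F) // dn K w = v}, (fac W w.1 s)⁻¹

theorem GG_prod {E : WeierstrassCurve F} {W : HeightOneSpectrum (𝓞 F) → WeierstrassCurve (𝓞 F)}
    (hE : E.IsElliptic) (hW : ∀ v, IsMinAt E v (W v)) {s : ℂ}
    (hs : 3 / 2 < s.re) : HasProd (fun v : HeightOneSpectrum (𝓞 K) => GG W s v) (LS W s) := by
  classical
  have h1 := (hasProd_LS hE hW hs).1
  have h2 : HasProd ((fun w => (fac W w s)⁻¹) ∘
      (Equiv.sigmaFiberEquiv (dn K : HeightOneSpectrum (𝓞 F) → _))) (LS W s) :=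
    (Equiv.hasProd_iff _).2 h1
  refine h2.sigma fun v => ?_
  exact hasProd_fintype _

end product

section local_factors
variable {K F F' : Type} [Field K] [NumberField K] [Field F] [NumberField F] [Algebra K F]
  [Field F'] [NumberField F'] [Algebra K F']

lemma coe_am (x : 𝓞 K) : ((algebraMap (𝓞 K) (𝓞 F) x : 𝓞 F) : F) = algebraMap K F (x : K) := rfl

theorem data_map {E : WeierstrassCurve K} {l P Q : 𝓞 K} (h : Data E l P Q) :
    Data (E.map (algebraMap K F)) (algebraMap (𝓞 K) (𝓞 F) l) (algebraMap (𝓞 K) (𝓞 F) P)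
      (algebraMap (𝓞 K) (𝓞 F) Q) := by
  obtain ⟨h1, h2, h3, h4⟩ := h
  have hinj := FaithfulSMul.algebraMap_injective (𝓞 K) (𝓞 F)
  refine ⟨?_, ?_, ?_, ?_⟩
  · rwa [Ne, map_eq_zero_iff _ hinj]
  · rw [coe_am, coe_am, WeierstrassCurve.map_c₄, h2, map_mul, map_pow]
  · rw [coe_am, coe_am, WeierstrassCurve.map_c₆, h3, map_mul, map_pow]
  · rw [← map_pow, ← map_pow, ← map_sub, Ne, map_eq_zero_iff _ hinj]
    exact h4

theorem good_map {P Q : 𝓞 K} {w : HeightOneSpectrum (𝓞 F)} {v : HeightOneSpectrum (𝓞 K)}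
    (hw : dn K w = v) (hg : Good P Q v) :
    Good (algebraMap (𝓞 K) (𝓞 F) P) (algebraMap (𝓞 K) (𝓞 F) Q) w := by
  obtain ⟨h1, h2⟩ := hg
  rw [← hw] at h1 h2
  refine ⟨fun h => h1 ?_, fun h => h2 ?_⟩
  · rw [dn_mem, map_ofNat]
    exact h
  · rw [dn_mem, map_sub, map_pow, map_pow]
    exact h

theorem csumv_congr {P Q : 𝓞 K} {v : HeightOneSpectrum (𝓞 K)} (hg : Good P Q v)
    {w : HeightOneSpectrum (𝓞 F)} {w' : HeightOneSpectrum (𝓞 F')} (hw : dn K w = v)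
    (hw' : dn K w' = v) (hn : nm w = nm w') :
    csumv (algebraMap (𝓞 K) (𝓞 F) P) (algebraMap (𝓞 K) (𝓞 F) Q) w =
      csumv (algebraMap (𝓞 K) (𝓞 F') P) (algebraMap (𝓞 K) (𝓞 F') Q) w' := by
  have hov : w.asIdeal.LiesOver v.asIdeal := dn_over hw
  have hov' : w'.asIdeal.LiesOver v.asIdeal := dn_over hw'
  have hcard : ∀ {A B : Type} [Field A] [Fintype A] [Field B] [Fintype B] [Algebra A B],
      Nat.card B = Nat.card A ^ Module.finrank A B := by
    intro A B _ _ _ _ _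
    exact Module.natCard_eq_pow_finrank
  set n := Module.finrank (𝓞 K ⧸ v.asIdeal) (𝓞 F ⧸ w.asIdeal) with hn1
  have h1 : Nat.card (𝓞 F ⧸ w.asIdeal) = Nat.card (𝓞 K ⧸ v.asIdeal) ^ n := hcard
  have h2 : Nat.card (𝓞 F' ⧸ w'.asIdeal) = Nat.card (𝓞 K ⧸ v.asIdeal) ^
      Module.finrank (𝓞 K ⧸ v.asIdeal) (𝓞 F' ⧸ w'.asIdeal) := hcard
  have h3 : Nat.card (𝓞 F ⧸ w.asIdeal) = Nat.card (𝓞 F' ⧸ w'.asIdeal) := hn
  have hq : 1 < Nat.card (𝓞 K ⧸ v.asIdeal) := Finite.one_lt_card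
  have h4 : Module.finrank (𝓞 K ⧸ v.asIdeal) (𝓞 F' ⧸ w'.asIdeal) = n := by
    rw [h1, h2] at h3
    exact (Nat.pow_right_injective hq h3).symm
  obtain ⟨p, hp⟩ := CharP.exists (𝓞 K ⧸ v.asIdeal)
  have hpp : Fact p.Prime := ⟨CharP.char_is_prime (𝓞 K ⧸ v.asIdeal) p⟩
  have hn0 : NeZero n := ⟨(Module.finrank_pos).ne'⟩
  let e1 := FiniteField.algEquivExtension (𝓞 K ⧸ v.asIdeal) p n (𝓞 F ⧸ w.asIdeal) hn1.symm
  let e2 := FiniteField.algEquivExtension (𝓞 K ⧸ v.asIdeal) p n (𝓞 F' ⧸ w'.asIdeal) h4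
  let e := e1.trans e2.symm
  have he : ∀ x : 𝓞 K, e (Ideal.Quotient.mk w.asIdeal (algebraMap (𝓞 K) (𝓞 F) x)) =
      Ideal.Quotient.mk w'.asIdeal (algebraMap (𝓞 K) (𝓞 F') x) := by
    intro x
    have h5 : algebraMap (𝓞 K ⧸ v.asIdeal) (𝓞 F ⧸ w.asIdeal) (Ideal.Quotient.mk v.asIdeal x) =
        Ideal.Quotient.mk w.asIdeal (algebraMap (𝓞 K) (𝓞 F) x) := rfl
    have h6 : algebraMap (𝓞 K ⧸ v.asIdeal) (𝓞 F' ⧸ w'.asIdeal) (Ideal.Quotient.mk v.asIdeal x) =
        Ideal.Quotient.mk w'.asIdeal (algebraMap (𝓞 K) (𝓞 F') x) := rfl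
    rw [← h5, ← h6]
    exact e.commutes _
  unfold csumv
  rw [← he, ← he]
  have h6' : (6 : 𝓞 F ⧸ w.asIdeal) ≠ 0 := by
    have := mk_ne (good_map hw hg).1
    rwa [map_ofNat] at this
  exact (csum_congr e.toRingEquiv h6' _ _).symm

theorem fac_congr {E : WeierstrassCurve K} {l P Q : 𝓞 K} (hd : Data E l P Q)
    {W : HeightOneSpectrum (𝓞 F) → WeierstrassCurve (𝓞 F)}
    (hW : ∀ v, IsMinAt (E.map (algebraMap K F)) v (W v))
    {W' : HeightOneSpectrum (𝓞 F') → WeierstrassCurve (𝓞 F')}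
    (hW' : ∀ v, IsMinAt (E.map (algebraMap K F')) v (W' v))
    {v : HeightOneSpectrum (𝓞 K)} (hg : Good P Q v)
    {w : HeightOneSpectrum (𝓞 F)} {w' : HeightOneSpectrum (𝓞 F')} (hw : dn K w = v)
    (hw' : dn K w' = v) (hn : nm w = nm w') (s : ℂ) : fac W w s = fac W' w' s := by
  rw [fac_good (data_map hd) hW (good_map hw hg), fac_good (data_map hd) hW' (good_map hw' hg),
    csumv_congr hg hw hw' hn, hn]

end local_factors

end Pool.Agent.HW484
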