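import Pool.Agent.HW484.B

/-!
# The subgroups of order `p` of an elementary abelian group of order `p ^ 2`
-/

set_option autoImplicit false
set_option linter.unusedSectionVars false

namespace Pool.Agent.HW484

section group
variable {G : Type} [Group G] [Finite G] {p : ℕ}

lemma card_zpowers' (hp : p.Prime) (hexp : ∀ g : G, g ^ p = 1) {g : G} (hg : g ≠ 1) :
    Nat.card (Subgroup.zpowers g) = p := by
  have : Fact p.Prime := ⟨hp⟩
  rw [Nat.card_zpowers]
  exact orderOf_eq_prime (hexp g) hg

lemma mem_iff_zpowers (hp : p.Prime) (hexp : ∀ g : G, g ^ p = 1) {g : G} (hg : g ≠ 1)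
    {H : Subgroup G} (hH : Nat.card H = p) : g ∈ H ↔ Subgroup.zpowers g = H := by
  constructor
  · intro h
    have h1 : Subgroup.zpowers g ≤ H := Subgroup.zpowers_le.2 h
    refine Subgroup.eq_of_le_of_card_ge h1 ?_
    rw [hH, card_zpowers' hp hexp hg]
  · intro h
    rw [← h]
    exact Subgroup.mem_zpowers g

theorem card_subgroups (hp : p.Prime) (hexp : ∀ g : G, g ^ p = 1) (hG : Nat.card G = p ^ 2) :
    Nat.card {H : Subgroup G // Nat.card H = p} = p + 1 := by
  classical
  have := Fintype.ofFinite G
  have hfs : Finite (Subgroup G) := inferInstance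
  have := Fintype.ofFinite (Subgroup G)
  set S : Finset G := Finset.univ.erase 1 with hS
  set T : Finset (Subgroup G) := Finset.univ.filter fun H => Nat.card H = p with hT
  have h1 : ∀ g ∈ S, Subgroup.zpowers g ∈ T := by
    intro g hg
    rw [hT, Finset.mem_filter]
    exact ⟨Finset.mem_univ _, card_zpowers' hp hexp (Finset.ne_of_mem_erase hg)⟩
  have h2 := Finset.card_eq_sum_card_fiberwise (f := fun g : G => Subgroup.zpowers g) (s := S) (t := T)
    (fun g hg => h1 g hg)
  have h3 : ∀ H ∈ T, (S.filter fun g => Subgroup.zpowers g = H).card = p - 1 := by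
    intro H hH
    rw [hT, Finset.mem_filter] at hH
    have h4 : (S.filter fun g => Subgroup.zpowers g = H) =
        (Finset.univ.filter fun g : G => g ∈ H).erase 1 := by
      ext g
      simp only [Finset.mem_filter, Finset.mem_erase, hS]
      constructor
      · rintro ⟨⟨h5, h6⟩, h7⟩
        exact ⟨h5, Finset.mem_univ _, (mem_iff_zpowers hp hexp h5 hH.2).2 h7⟩
      · rintro ⟨h5, h6, h7⟩
        exact ⟨⟨h5, Finset.mem_univ _⟩, (mem_iff_zpowers hp hexp h5 hH.2).1 h7⟩
    rw [h4, Finset.card_erase_of_mem (by simp [H.one_mem])]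
    congr 1
    rw [← hH.2, Nat.card_eq_fintype_card, Fintype.card_subtype]
  rw [Finset.sum_congr rfl h3, Finset.sum_const, smul_eq_mul, hS,
    Finset.card_erase_of_mem (Finset.mem_univ _), Finset.card_univ, ← Nat.card_eq_fintype_card, hG] at h2
  have h5 : Nat.card {H : Subgroup G // Nat.card H = p} = T.card := by
    rw [Nat.card_eq_fintype_card, Fintype.card_subtype]
  rw [h5]
  have h6 : p ^ 2 - 1 = (p + 1) * (p - 1) := by
    have := Nat.sq_sub_sq p 1
    simpa using this
  rw [h6] at h2
  have h7 : 0 < p - 1 := by have := hp.two_le; omega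
  exact (Nat.eq_of_mul_eq_mul_right h7 h2).symm

end group

end Pool.Agent.HW484
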