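import Pool.Agent.HW484.C

/-!
# The relation between the Euler products
-/

set_option autoImplicit false
set_option linter.unusedSectionVars false

namespace Pool.Agent.HW484

open NumberField IsDedekindDomain
open Pool.Agent.H921R2.TatePole (nm two_le_nm nm_summable)

section self
variable {K : Type} [Field K] [NumberField K]

lemma dn_self (v : HeightOneSpectrum (𝓞 K)) : dn K v = v := by
  apply HeightOneSpectrum.ext
  ext x
  exact Iff.rfl

lemma map_self (E : WeierstrassCurve K) : E.map (algebraMap K K) = E := by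
  rw [Algebra.algebraMap_self, WeierstrassCurve.map_id]

variable {F : Type} [Field F] [NumberField F] [Algebra K F]

lemma GG_const {W : HeightOneSpectrum (𝓞 F) → WeierstrassCurve (𝓞 F)} {s : ℂ}
    {v : HeightOneSpectrum (𝓞 K)} {c : ℂ} {n : ℕ}
    (hc : ∀ w : HeightOneSpectrum (𝓞 F), dn K w = v → (fac W w s)⁻¹ = c)
    (hn : Nat.card {w : HeightOneSpectrum (𝓞 F) // dn K w = v} = n) :
    GG W s v = c ^ n := by
  unfold GG
  rw [Finset.prod_congr rfl fun w _ => hc w.1 w.2, Finset.prod_const, Finset.card_univ,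
    ← Nat.card_eq_fintype_card, hn]

end self

section rel
variable {K : Type} [Field K] [NumberField K]
  {M : Type} [Field M] [NumberField M] [Algebra K M] [IsGalois K M]
  {ι : Type} [Fintype ι] (F : ι → Type) [∀ i, Field (F i)] [∀ i, NumberField (F i)]
  [∀ i, Algebra K (F i)] [∀ i, Algebra (F i) M] [∀ i, IsScalarTower K (F i) M]
  [∀ i, IsGalois K (F i)]

/-- the intermediate fields of degree `p` of an elementary abelian extension of degree `p ^ 2` -/
structure Hyp (p : ℕ) : Prop where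
  hp : p.Prime
  card : Nat.card (M ≃ₐ[K] M) = p ^ 2
  exp : ∀ σ : M ≃ₐ[K] M, σ ^ p = 1
  cardF : ∀ i, Nat.card (F i ≃ₐ[K] F i) = p
  hι : Fintype.card ι = p + 1
  uniq : ∀ σ : M ≃ₐ[K] M, σ ≠ 1 → ∃! i, AlgEquiv.restrictNormalHom (F i) σ = 1

variable {F}

theorem rel_local {p : ℕ} (h : Hyp (K := K) (M := M) F p) {E : WeierstrassCurve K} {l P Q : 𝓞 K}
    (hd : Data E l P Q)
    {W : HeightOneSpectrum (𝓞 K) → WeierstrassCurve (𝓞 K)} (hW : ∀ v, IsMinAt E v (W v))
    {WM : HeightOneSpectrum (𝓞 M) → WeierstrassCurve (𝓞 M)}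
    (hWM : ∀ v, IsMinAt (E.map (algebraMap K M)) v (WM v))
    {WF : ∀ i, HeightOneSpectrum (𝓞 (F i)) → WeierstrassCurve (𝓞 (F i))}
    (hWF : ∀ i v, IsMinAt (E.map (algebraMap K (F i))) v (WF i v))
    {v : HeightOneSpectrum (𝓞 K)} (hg : Good P Q v) (hunM : Unram K M v)
    (hunF : ∀ i, Unram K (F i) v) (s : ℂ) :
    ((fac W v s)⁻¹) ^ p * GG WM s v = ∏ i, GG (WF i) s v := by
  classical
  have hWK : ∀ v, IsMinAt (E.map (algebraMap K K)) v (W v) := by
    rw [map_self]
    exact hW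
  obtain ⟨P0, hP0⟩ := dn_surj (F := M) v
  obtain ⟨σ, hσ⟩ := exists_frob hP0
  obtain ⟨hM1, hM2⟩ := frob_split hunM hP0 hσ
  have hF : ∀ i, _ := fun i => frob_link (F := F i) (hunF i) hP0 hσ
  rw [h.card] at hM2
  have hMc : ∀ w : HeightOneSpectrum (𝓞 M), dn K w = v → (fac WM w s)⁻¹ = (fac WM P0 s)⁻¹ := by
    intro w hw
    rw [fac_congr hd hWM hWM hg hw hP0 (by rw [hM1 w hw, hM1 P0 hP0])]
  by_cases hσ1 : σ = 1
  · subst hσ1
    rw [orderOf_one, mul_one] at hM2
    have e0 : nm P0 = nm v := by rw [hM1 P0 hP0, orderOf_one, pow_one]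
    have e1 : (fac WM P0 s)⁻¹ = (fac W v s)⁻¹ := by
      rw [fac_congr hd hWM hWK hg hP0 (dn_self v) e0]
    rw [GG_const (v := v) (fun w hw => (hMc w hw).trans e1) hM2]
    have e2 : ∀ i, GG (WF i) s v = ((fac W v s)⁻¹) ^ p := by
      intro i
      obtain ⟨h1, h2⟩ := hF i
      rw [map_one, orderOf_one, mul_one, h.cardF i] at h2
      refine GG_const (fun w hw => ?_) h2
      have h3 := h1 w hw
      rw [map_one, orderOf_one, pow_one] at h3
      rw [fac_congr hd (hWF i) hWK hg hw (dn_self v) h3]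
    rw [Finset.prod_congr rfl fun i _ => e2 i, Finset.prod_const, Finset.card_univ, h.hι,
      ← pow_add, ← pow_mul]
    congr 1
    ring
  · have : Fact p.Prime := ⟨h.hp⟩
    have hord : orderOf σ = p := orderOf_eq_prime (h.exp σ) hσ1
    have hp0 : 0 < p := h.hp.pos
    rw [hord] at hM2
    have hMn : Nat.card {w : HeightOneSpectrum (𝓞 M) // dn K w = v} = p := by
      have : p ^ 2 = p * p := by ring
      rw [this] at hM2
      exact Nat.eq_of_mul_eq_mul_right hp0 hM2
    rw [GG_const (v := v) hMc hMn]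
    obtain ⟨i0, hi0, hi1⟩ := h.uniq σ hσ1
    have e1 : GG (WF i0) s v = ((fac W v s)⁻¹) ^ p := by
      obtain ⟨h1, h2⟩ := hF i0
      rw [hi0, orderOf_one, mul_one, h.cardF i0] at h2
      refine GG_const (fun w hw => ?_) h2
      have h3 := h1 w hw
      rw [hi0, orderOf_one, pow_one] at h3
      rw [fac_congr hd (hWF i0) hWK hg hw (dn_self v) h3]
    have e2 : ∀ i, i ≠ i0 → GG (WF i) s v = (fac WM P0 s)⁻¹ := by
      intro i hi
      obtain ⟨h1, h2⟩ := hF i
      have h3 : AlgEquiv.restrictNormalHom (F i) σ ≠ 1 := fun h0 => hi (hi1 i h0)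
      have h4 : orderOf (AlgEquiv.restrictNormalHom (F i) σ) = p :=
        orderOf_eq_prime (by rw [← map_pow, h.exp, map_one]) h3
      rw [h4, h.cardF i] at h2
      have h5 : Nat.card {w : HeightOneSpectrum (𝓞 (F i)) // dn K w = v} = 1 := by
        refine Nat.eq_of_mul_eq_mul_right hp0 ?_
        rw [h2, one_mul]
      rw [GG_const (c := (fac WM P0 s)⁻¹) (fun w hw => ?_) h5, pow_one]
      have h6 := h1 w hw
      rw [h4] at h6
      rw [fac_congr hd (hWF i) hWM hg hw hP0 (by rw [h6, hM1 P0 hP0, hord])]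
    rw [← Finset.mul_prod_erase Finset.univ _ (Finset.mem_univ i0), e1,
      Finset.prod_congr rfl fun i hi => e2 i (Finset.ne_of_mem_erase hi), Finset.prod_const,
      Finset.card_erase_of_mem (Finset.mem_univ _), Finset.card_univ, h.hι, Nat.add_sub_cancel]

/-- the product of the inverses of the Euler factors over a place of `K` -/
noncomputable def HH {F : Type} [Field F] [NumberField F] [Algebra K F]
    (W : HeightOneSpectrum (𝓞 F) → WeierstrassCurve (𝓞 F)) (s : ℂ)
    (v : HeightOneSpectrum (𝓞 K)) : ℂ :=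
  ∏ w : {w : HeightOneSpectrum (𝓞 F) // dn K w = v}, fac W w.1 s

lemma GG_HH {F : Type} [Field F] [NumberField F] [Algebra K F]
    (W : HeightOneSpectrum (𝓞 F) → WeierstrassCurve (𝓞 F)) {s : ℂ} (hs : 3 / 2 < s.re)
    (v : HeightOneSpectrum (𝓞 K)) : GG W s v * HH W s v = 1 := by
  unfold GG HH
  rw [← Finset.prod_mul_distrib]
  refine Finset.prod_eq_one fun w _ => ?_
  exact inv_mul_cancel₀ (fac_ne W w.1 hs)

lemma HH_mero {F : Type} [Field F] [NumberField F] [Algebra K F]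
    (W : HeightOneSpectrum (𝓞 F) → WeierstrassCurve (𝓞 F)) (v : HeightOneSpectrum (𝓞 K))
    (Ω : Set ℂ) : MeromorphicOn (fun s => HH W s v) Ω := by
  unfold HH
  exact MeromorphicOn.fun_prod fun w _ => fac_mero W w.1 Ω

open Classical in
theorem hasProd_mod {F : Type} [Field F] [NumberField F] [Algebra K F] {E : WeierstrassCurve F}
    {W : HeightOneSpectrum (𝓞 F) → WeierstrassCurve (𝓞 F)}
    (hE : E.IsElliptic) (hW : ∀ v, IsMinAt E v (W v)) {s : ℂ} (hs : 3 / 2 < s.re)
    (S : Finset (HeightOneSpectrum (𝓞 K))) :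
    HasProd (fun v : HeightOneSpectrum (𝓞 K) => if v ∈ S then 1 else GG W s v)
      (LS W s * ∏ v ∈ S, HH W s v) := by
  have h1 := GG_prod (K := K) hE hW hs
  have h2 : HasProd (fun v : HeightOneSpectrum (𝓞 K) => if v ∈ S then HH W s v else 1)
      (∏ v ∈ S, if v ∈ S then HH W s v else 1) := by
    refine hasProd_prod_of_ne_finset_one fun v hv => ?_
    rw [if_neg hv]
  have h3 : (∏ v ∈ S, if v ∈ S then HH W s v else 1) = ∏ v ∈ S, HH W s v :=
    Finset.prod_congr rfl fun v hv => by rw [if_pos hv]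
  rw [h3] at h2
  refine (h1.mul h2).congr_fun fun v => ?_
  by_cases hv : v ∈ S
  · rw [if_pos hv, if_pos hv, GG_HH W hs v]
  · rw [if_neg hv, if_neg hv, mul_one]

/-- meromorphic continuation to `Ω` -/
def Cont (W : HeightOneSpectrum (𝓞 K) → WeierstrassCurve (𝓞 K)) (Ω : Set ℂ) : Prop :=
  ∃ f : ℂ → ℂ, MeromorphicOn f Ω ∧ ∀ s : ℂ, 3 / 2 < s.re → f s = LS W s

theorem rel_global {p : ℕ} (h : Hyp (K := K) (M := M) F p) {E : WeierstrassCurve K}
    (hE : E.IsElliptic) {Ω : Set ℂ}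
    {W : HeightOneSpectrum (𝓞 K) → WeierstrassCurve (𝓞 K)} (hW : ∀ v, IsMinAt E v (W v))
    {WM : HeightOneSpectrum (𝓞 M) → WeierstrassCurve (𝓞 M)}
    (hWM : ∀ v, IsMinAt (E.map (algebraMap K M)) v (WM v))
    {WF : ∀ i, HeightOneSpectrum (𝓞 (F i)) → WeierstrassCurve (𝓞 (F i))}
    (hWF : ∀ i v, IsMinAt (E.map (algebraMap K (F i))) v (WF i v))
    (hcM : Cont WM Ω) (hcF : ∀ i, Cont (WF i) Ω) :
    ∃ f : ℂ → ℂ, MeromorphicOn f Ω ∧ ∀ s : ℂ, 3 / 2 < s.re → f s = LS W s ^ p := by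
  classical
  obtain ⟨l, P, Q, hd⟩ := exists_data E hE
  have hfin : ({v : HeightOneSpectrum (𝓞 K) | ¬ Good P Q v} ∪
      ({v : HeightOneSpectrum (𝓞 K) | ¬ Unram K M v} ∪
        ⋃ i, {v : HeightOneSpectrum (𝓞 K) | ¬ Unram K (F i) v})).Finite :=
    (finite_bad hd.2.2.2).union ((finite_ram K M).union (Set.finite_iUnion fun i => finite_ram K (F i)))
  set S := hfin.toFinset with hS
  have hSm : ∀ v, v ∉ S → Good P Q v ∧ Unram K M v ∧ ∀ i, Unram K (F i) v := by
    intro v hv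
    rw [hS, Set.Finite.mem_toFinset, Set.mem_union, Set.mem_union, Set.mem_iUnion] at hv
    push Not at hv
    obtain ⟨h1, h2, h3⟩ := hv
    have h1' : ¬ ¬ Good P Q v := h1
    have h2' : ¬ ¬ Unram K M v := h2
    refine ⟨not_not.1 h1', not_not.1 h2', fun i => ?_⟩
    have h3' : ¬ ¬ Unram K (F i) v := h3 i
    exact not_not.1 h3'
  obtain ⟨fM, hfM, hfM'⟩ := hcM
  choose fF hfF hfF' using hcF
  have hEF : ∀ i, (E.map (algebraMap K (F i))).IsElliptic := fun i => inferInstance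
  have hEM : (E.map (algebraMap K M)).IsElliptic := inferInstance
  have key : ∀ s : ℂ, 3 / 2 < s.re →
      (LS W s * ∏ v ∈ S, fac W v s) ^ p * (LS WM s * ∏ v ∈ S, HH WM s v) =
        ∏ i, (LS (WF i) s * ∏ v ∈ S, HH (WF i) s v) := by
    intro s hs
    have hK : HasProd (fun v : HeightOneSpectrum (𝓞 K) => if v ∈ S then 1 else (fac W v s)⁻¹)
        (LS W s * ∏ v ∈ S, fac W v s) := by
      have h1 := (hasProd_LS hE hW hs).1
      have h2 : HasProd (fun v : HeightOneSpectrum (𝓞 K) => if v ∈ S then fac W v s else 1)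
          (∏ v ∈ S, if v ∈ S then fac W v s else 1) := by
        refine hasProd_prod_of_ne_finset_one fun v hv => ?_
        rw [if_neg hv]
      have h3 : (∏ v ∈ S, if v ∈ S then fac W v s else 1) = ∏ v ∈ S, fac W v s :=
        Finset.prod_congr rfl fun v hv => by rw [if_pos hv]
      rw [h3] at h2
      refine (h1.mul h2).congr_fun fun v => ?_
      by_cases hv : v ∈ S
      · rw [if_pos hv, if_pos hv, inv_mul_cancel₀ (fac_ne W v hs)]
      · rw [if_neg hv, if_neg hv, mul_one]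
    have hKp : HasProd (fun v : HeightOneSpectrum (𝓞 K) =>
        (if v ∈ S then 1 else (fac W v s)⁻¹) ^ p) ((LS W s * ∏ v ∈ S, fac W v s) ^ p) := by
      have := hasProd_prod (s := Finset.range p) (fun _ _ => hK)
      simpa using this
    have hM := hasProd_mod hEM hWM hs S
    have hF := hasProd_prod (s := (Finset.univ : Finset ι)) fun i _ =>
      hasProd_mod (K := K) (hEF i) (hWF i) hs S
    refine (hKp.mul hM).unique (hF.congr_fun fun v => ?_)
    by_cases hv : v ∈ S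
    · simp [hv]
    · obtain ⟨h1, h2, h3⟩ := hSm v hv
      simp only [if_neg hv]
      exact rel_local h hd hW hWM hWF h1 h2 h3 s
  refine ⟨fun s => (∏ i, (fF i s * ∏ v ∈ S, HH (WF i) s v)) *
    (fM s * ∏ v ∈ S, HH WM s v)⁻¹ * ((∏ v ∈ S, fac W v s) ^ p)⁻¹, ?_, fun s hs => ?_⟩
  · have m1 : MeromorphicOn (fun s => ∏ i, (fF i s * ∏ v ∈ S, HH (WF i) s v)) Ω :=
      MeromorphicOn.fun_prod fun i _ => (hfF i).fun_mul
        (MeromorphicOn.fun_prod fun v _ => HH_mero (WF i) v Ω)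
    have m2 : MeromorphicOn (fun s => (fM s * ∏ v ∈ S, HH WM s v)⁻¹) Ω :=
      (hfM.fun_mul (MeromorphicOn.fun_prod fun v _ => HH_mero WM v Ω)).fun_inv
    have m3 : MeromorphicOn (fun s => ((∏ v ∈ S, fac W v s) ^ p)⁻¹) Ω :=
      ((MeromorphicOn.fun_prod fun v _ => fac_mero W v Ω).fun_pow p).fun_inv
    exact (m1.fun_mul m2).fun_mul m3
  · have h1 := key s hs
    have n1 : LS WM s ≠ 0 := (hasProd_LS hEM hWM hs).2
    have n2 : ∏ v ∈ S, HH WM s v ≠ 0 := by
      rw [Finset.prod_ne_zero_iff]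
      intro v _ h0
      have := GG_HH WM hs v
      rw [h0, mul_zero] at this
      exact zero_ne_one this
    have n3 : ∏ v ∈ S, fac W v s ≠ 0 := Finset.prod_ne_zero_iff.2 fun v _ => fac_ne W v hs
    simp only
    rw [Finset.prod_congr rfl fun i _ => by rw [hfF' i s hs], hfM' s hs, ← h1, mul_pow]
    field_simp

end rel

end Pool.Agent.HW484
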