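import Mathlib

/-!
# Elementary abelian quotients of finite abelian groups
-/

set_option autoImplicit false
set_option linter.unusedSectionVars false

namespace Pool.Agent.HW484

lemma exists_lin {p : ℕ} [Fact p.Prime] {Q : Type} [AddCommGroup Q] [Module (ZMod p) Q] [Finite Q]
    (VS : Submodule (ZMod p) Q) (h : p < Nat.card VS) :
    ∃ f : Q →ₗ[ZMod p] (Fin 2 → ZMod p), ∀ y, ∃ v ∈ VS, f v = y := by
  have hfin : Module.Finite (ZMod p) VS := inferInstance
  have hrank : 2 ≤ Module.finrank (ZMod p) VS := by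
    have h1 : Nat.card VS = Nat.card (ZMod p) ^ Module.finrank (ZMod p) VS :=
      Module.natCard_eq_pow_finrank
    rw [Nat.card_zmod] at h1
    by_contra hcon
    push Not at hcon
    have h3 : p ^ Module.finrank (ZMod p) VS ≤ p ^ 1 :=
      Nat.pow_le_pow_right (Fact.out (p := p.Prime)).pos (by omega)
    rw [pow_one] at h3
    omega
  -- a surjection
  obtain ⟨f0, hf0⟩ : ∃ f0 : VS →ₗ[ZMod p] (Fin 2 → ZMod p), Function.Surjective f0 := by
    let b := Module.finBasis (ZMod p) VS
    let e := b.equivFun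
    let r : (Fin (Module.finrank (ZMod p) VS) → ZMod p) →ₗ[ZMod p] (Fin 2 → ZMod p) :=
      LinearMap.funLeft (ZMod p) (ZMod p) (Fin.castLE hrank)
    refine ⟨r.comp e.toLinearMap, ?_⟩
    rw [LinearMap.coe_comp]
    exact (LinearMap.funLeft_surjective_of_injective _ _ _ (Fin.castLE_injective hrank)).comp
      e.surjective
  obtain ⟨f1, hf1⟩ := LinearMap.exists_extend f0
  refine ⟨f1, fun y => ?_⟩
  obtain ⟨⟨x, hx⟩, rfl⟩ := hf0 y
  exact ⟨x, hx, by rw [← hf1]; rfl⟩

/-- additive version: a homomorphism onto `(ℤ/p)²` which is onto on a given subgroup -/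
theorem exists_hom_add {A : Type} [AddCommGroup A] [Finite A] {p : ℕ} (hp : p.Prime)
    (V : AddSubgroup A) (hV : p * V.index < Nat.card {a : A // p • a = 0}) :
    ∃ f : A →+ (Fin 2 → ZMod p), ∀ y, ∃ v ∈ V, f v = y := by
  classical
  have : Fact p.Prime := ⟨hp⟩
  -- the quotient by the multiples of `p`
  let pA : AddSubgroup A := (nsmulAddMonoidHom (α := A) p).range
  let Q := A ⧸ pA
  have hQ0 : ∀ x : Q, p • x = 0 := by
    intro x
    induction x using QuotientAddGroup.induction_on with
    | _ a =>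
      rw [← QuotientAddGroup.mk_nsmul, QuotientAddGroup.eq_zero_iff]
      exact ⟨a, rfl⟩
  letI : Module (ZMod p) Q := AddCommGroup.zmodModule hQ0
  have hQc : Nat.card Q = Nat.card {a : A // p • a = 0} := by
    have h1 := AddSubgroup.card_mul_index (nsmulAddMonoidHom (α := A) p).ker
    have h2 := AddSubgroup.card_mul_index pA
    have h3 : (nsmulAddMonoidHom (α := A) p).ker.index = Nat.card pA :=
      AddSubgroup.index_ker _
    rw [h3] at h1
    have h4 : Nat.card (nsmulAddMonoidHom (α := A) p).ker = Nat.card {a : A // p • a = 0} := rfl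
    have h5 : Nat.card pA * pA.index = Nat.card pA * Nat.card {a : A // p • a = 0} := by
      rw [h2, ← h1, h4, mul_comm]
    have h6 := Nat.eq_of_mul_eq_mul_left Nat.card_pos h5
    exact h6
  let π : A →+ Q := QuotientAddGroup.mk' pA
  let VQ : AddSubgroup Q := V.map π
  let VS : Submodule (ZMod p) Q := AddSubgroup.toZModSubmodule p VQ
  have hidx : VQ.index ∣ V.index := AddSubgroup.index_map_dvd V (QuotientAddGroup.mk'_surjective pA)
  have hVQ : p < Nat.card VQ := by
    have h1 := AddSubgroup.card_mul_index VQ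
    rw [hQc] at h1
    have h2 : VQ.index ≤ V.index := Nat.le_of_dvd (Nat.pos_of_ne_zero V.index_ne_zero_of_finite) hidx
    have h3 : 0 < VQ.index := Nat.pos_of_ne_zero VQ.index_ne_zero_of_finite
    by_contra hcon
    push Not at hcon
    have h4 : Nat.card VQ * VQ.index ≤ p * V.index := Nat.mul_le_mul hcon h2
    omega
  obtain ⟨f1, hf1⟩ := exists_lin VS hVQ
  refine ⟨f1.toAddMonoidHom.comp π, fun y => ?_⟩
  obtain ⟨x, ⟨v, hv, rfl⟩, h⟩ := hf1 y
  exact ⟨v, hv, h⟩

/-- multiplicative version -/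
theorem exists_subgroup {G : Type} [CommGroup G] [Finite G] {p : ℕ} (hp : p.Prime)
    (V : Subgroup G) (hV : p * V.index < Nat.card {a : G // a ^ p = 1}) :
    ∃ U : Subgroup G, U ⊔ V = ⊤ ∧ U.index = p ^ 2 ∧ ∀ g : G, g ^ p ∈ U := by
  classical
  have : Fact p.Prime := ⟨hp⟩
  obtain ⟨f, hf⟩ := exists_hom_add (A := Additive G) hp V.toAddSubgroup (by
    have h1 : V.toAddSubgroup.index = V.index := rfl
    rw [h1]
    exact hV)
  let F : G →* Multiplicative (Fin 2 → ZMod p) := f.toMultiplicativeRight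
  have hF : ∀ y, ∃ v ∈ V, F v = y := fun y => by
    obtain ⟨v, hv, h⟩ := hf (Multiplicative.toAdd y)
    exact ⟨Additive.toMul v, hv, h⟩
  refine ⟨F.ker, ?_, ?_, ?_⟩
  · rw [eq_top_iff]
    intro g _
    obtain ⟨v, hv, h⟩ := hF (F g)
    have h1 : g * v⁻¹ ∈ F.ker := by
      rw [MonoidHom.mem_ker, map_mul, map_inv, h, mul_inv_cancel]
    have h2 : g = (g * v⁻¹) * v := by group
    rw [h2]
    exact Subgroup.mul_mem_sup h1 hv
  · have hsurj : Function.Surjective F := fun y => by
      obtain ⟨v, _, h⟩ := hF y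
      exact ⟨v, h⟩
    rw [Subgroup.index_ker, MonoidHom.range_eq_top.2 hsurj, Subgroup.card_top]
    have : Nat.card (Multiplicative (Fin 2 → ZMod p)) = Nat.card (Fin 2 → ZMod p) := rfl
    rw [this, Nat.card_fun, Nat.card_zmod, Nat.card_fin]
  · intro g
    rw [MonoidHom.mem_ker, map_pow]
    have h1 : ∀ y : Fin 2 → ZMod p, p • y = 0 := by
      intro y
      funext i
      simp
    exact h1 (Multiplicative.toAdd (F g))

end Pool.Agent.HW484
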