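import Pool.Agent.HW484.E1

/-!
# Elementary abelian extensions of number fields
-/

set_option autoImplicit false
set_option linter.unusedSectionVars false

namespace Pool.Agent.HW484

open IntermediateField

/-- number of solutions of `a ^ p = 1` -/
noncomputable def tors (p : ℕ) (A : Type) [Group A] : ℕ := Nat.card {a : A // a ^ p = 1}

lemma tors_congr (p : ℕ) {A B : Type} [Group A] [Group B] (e : A ≃* B) : tors p A = tors p B := by
  refine Nat.card_congr (Equiv.subtypeEquiv e.toEquiv fun a => ?_)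
  show a ^ p = 1 ↔ (e a) ^ p = 1
  rw [← map_pow, map_eq_one_iff e e.injective]

lemma tors_prod (p : ℕ) (A B : Type) [Group A] [Group B] :
    tors p (A × B) = tors p A * tors p B := by
  unfold tors
  rw [← Nat.card_prod]
  refine Nat.card_congr
    { toFun := fun x => (⟨x.1.1, congrArg Prod.fst x.2⟩, ⟨x.1.2, congrArg Prod.snd x.2⟩)
      invFun := fun x => ⟨(x.1.1, x.2.1), Prod.ext x.1.2 x.2.2⟩
      left_inv := fun x => rfl
      right_inv := fun x => rfl }

lemma exists_n {p : ℕ} (hp : p.Prime) (r : ℕ) :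
    ∃ n : ℕ, 0 < n ∧ p ^ r ≤ tors p (ZMod n)ˣ := by
  induction r with
  | zero =>
    refine ⟨1, one_pos, ?_⟩
    rw [pow_zero, tors]
    have : Finite {a : (ZMod 1)ˣ // a ^ p = 1} := inferInstance
    have : Nonempty {a : (ZMod 1)ˣ // a ^ p = 1} := ⟨⟨1, one_pow p⟩⟩
    exact Nat.card_pos
  | succ r ih =>
    obtain ⟨n, hn, h⟩ := ih
    obtain ⟨l, hl, hnl, hlp⟩ := Nat.exists_prime_gt_modEq_one n hp.ne_zero
    have : Fact l.Prime := ⟨hl⟩
    have : Fact p.Prime := ⟨hp⟩
    have : NeZero n := ⟨hn.ne'⟩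
    have hcop : n.Coprime l :=
      (Nat.coprime_comm.1 ((Nat.Prime.coprime_iff_not_dvd hl).2 fun hd =>
        absurd (Nat.le_of_dvd hn hd) (not_le.2 hnl)))
    refine ⟨n * l, Nat.mul_pos hn hl.pos, ?_⟩
    have e : (ZMod (n * l))ˣ ≃* (ZMod n)ˣ × (ZMod l)ˣ :=
      (Units.mapEquiv (ZMod.chineseRemainder hcop).toMulEquiv).trans MulEquiv.prodUnits
    rw [tors_congr p e, tors_prod, pow_succ]
    refine Nat.mul_le_mul h ?_
    have hdvd : p ∣ Nat.card (ZMod l)ˣ := by
      rw [Nat.card_eq_fintype_card, ZMod.card_units_eq_totient, Nat.totient_prime hl]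
      exact (Nat.modEq_iff_dvd' hl.one_le).1 hlp.symm
    obtain ⟨x, hx⟩ := exists_prime_orderOf_dvd_card' p hdvd
    have hc : Nat.card (Subgroup.zpowers x) = p := by rw [Nat.card_zpowers, hx]
    have hy : ∀ y : Subgroup.zpowers x, y.1 ^ p = 1 := by
      intro y
      obtain ⟨i, hi⟩ := Subgroup.mem_zpowers_iff.1 y.2
      rw [← hi, ← zpow_natCast, ← zpow_mul, mul_comm, zpow_mul, zpow_natCast, ← hx,
        pow_orderOf_eq_one, one_zpow]
    have h5 : Nat.card (Subgroup.zpowers x) ≤ tors p (ZMod l)ˣ := by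
      refine Nat.card_le_card_of_injective
        (fun y : Subgroup.zpowers x => (⟨y.1, hy y⟩ : {a : (ZMod l)ˣ // a ^ p = 1})) ?_
      intro a b hab
      exact Subtype.ext (congrArg (fun z : {a : (ZMod l)ˣ // a ^ p = 1} => z.1) hab)
    rwa [hc] at h5

lemma tors_le {p : ℕ} {G A : Type} [Group G] [CommGroup A] [Finite G] [Finite A] (φ : G →* A)
    (hφ : Function.Injective φ) : tors p A ≤ tors p G * φ.range.index := by
  let T : Subgroup A := (powMonoidHom p : A →* A).ker
  have hT : Nat.card T = tors p A := rfl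
  have h1 := Subgroup.card_mul_index (φ.range.subgroupOf T)
  have h2 : (φ.range.subgroupOf T).index ≤ φ.range.index := by
    have h3 : φ.range.relIndex T ∣ φ.range.index := Subgroup.relIndex_dvd_index_of_normal _ _
    exact Nat.le_of_dvd (Nat.pos_of_ne_zero φ.range.index_ne_zero_of_finite) h3
  have h3 : Nat.card (φ.range.subgroupOf T) ≤ tors p G := by
    have hex : ∀ t : φ.range.subgroupOf T, ∃ g : G, φ g = t.1.1 := fun t => t.2
    choose s hs using hex
    refine Nat.card_le_card_of_injective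
      (fun t => (⟨s t, ?_⟩ : {a : G // a ^ p = 1})) ?_
    · apply hφ
      rw [map_pow, hs, map_one]
      exact t.1.2
    · intro a b hab
      have h4 : s a = s b := congrArg Subtype.val hab
      apply Subtype.ext
      apply Subtype.ext
      rw [← hs a, ← hs b, h4]
  rw [← hT, ← h1]
  exact Nat.mul_le_mul h3 h2

/-- **Elementary abelian extensions of degree `p ^ 2`** which meet a given finite extension only in
the base field. -/
theorem exists_ext (K : Type) [Field K] [NumberField K] {p : ℕ} (hp : p.Prime)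
    (B : IntermediateField K (AlgebraicClosure K)) [FiniteDimensional K B] :
    ∃ M : IntermediateField K (AlgebraicClosure K), FiniteDimensional K M ∧ IsGalois K M ∧
      Nat.card (M ≃ₐ[K] M) = p ^ 2 ∧ (∀ σ : M ≃ₐ[K] M, σ ^ p = 1) ∧ M ⊓ B = ⊥ ∧
      ∃ (n : ℕ) (ζ : AlgebraicClosure K), 0 < n ∧ ζ ^ n = 1 ∧ M ≤ K⟮ζ⟯ := by
  classical
  set d := Module.finrank ℚ K with hd
  obtain ⟨r, hr⟩ : ∃ r : ℕ, p * Module.finrank K B * d < p ^ r :=
    pow_unbounded_of_one_lt _ hp.one_lt
  obtain ⟨n, hn, hnr⟩ := exists_n hp r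
  have : NeZero n := ⟨hn.ne'⟩
  obtain ⟨ζ, hζ⟩ := HasEnoughRootsOfUnity.exists_primitiveRoot (AlgebraicClosure K) n
  let C : IntermediateField K (AlgebraicClosure K) := K⟮ζ⟯
  have hcyc : IsCyclotomicExtension {n} K C := hζ.intermediateField_adjoin_isCyclotomicExtension K
  have hfd : FiniteDimensional K C := IsCyclotomicExtension.finite_of_singleton n K C
  have hgal : IsGalois K C := IsCyclotomicExtension.isGalois {n} K C
  have hcomm : IsMulCommutative (C ≃ₐ[K] C) := IsCyclotomicExtension.isMulCommutative {n} K C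
  letI hcg : CommGroup (C ≃ₐ[K] C) :=
    { (inferInstance : Group (C ≃ₐ[K] C)) with mul_comm := hcomm.is_comm.comm }
  let z : C := ⟨ζ, IntermediateField.mem_adjoin_simple_self K ζ⟩
  have hz : IsPrimitiveRoot z n := by
    rw [← IsPrimitiveRoot.coe_submonoidClass_iff]
    exact hζ
  let φ : (C ≃ₐ[K] C) →* (ZMod n)ˣ := hz.autToPow K
  have hφ : Function.Injective φ := hz.autToPow_injective K
  -- the index of the image
  have hidx : φ.range.index ≤ d := by
    have h1 := Subgroup.card_mul_index φ.range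
    have h2 : Nat.card φ.range = Module.finrank K C := by
      rw [← Nat.card_congr (MonoidHom.ofInjective hφ).toEquiv, IsGalois.card_aut_eq_finrank]
    have h3 : Nat.card (ZMod n)ˣ = n.totient := by
      rw [Nat.card_eq_fintype_card, ZMod.card_units_eq_totient]
    have h4 : n.totient ≤ Module.finrank ℚ C := by
      have hfdQ : FiniteDimensional ℚ C := Module.Finite.trans K C
      have h5 := Polynomial.cyclotomic_eq_minpoly_rat hz hn
      rw [← Polynomial.natDegree_cyclotomic n ℚ, h5]
      exact minpoly.natDegree_le z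
    have h5 : Module.finrank ℚ C = d * Module.finrank K C := (Module.finrank_mul_finrank ℚ K C).symm
    rw [h2, h3] at h1
    rw [h5, ← h1, mul_comm] at h4
    exact Nat.le_of_mul_le_mul_right h4 Module.finrank_pos
  have htors : p * Module.finrank K B < tors p (C ≃ₐ[K] C) := by
    by_contra hcon
    push Not at hcon
    have h1 := tors_le (p := p) φ hφ
    have h2 : tors p (C ≃ₐ[K] C) * φ.range.index ≤ p * Module.finrank K B * d :=
      Nat.mul_le_mul hcon hidx
    omega
  -- the subgroup of `B`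
  let B' : IntermediateField K C := B.comap C.val
  let V : Subgroup (C ≃ₐ[K] C) := B'.fixingSubgroup
  have hV : V.index ≤ Module.finrank K B := by
    rw [← IntermediateField.finrank_eq_fixingSubgroup_index]
    let f : B' →ₗ[K] B :=
      { toFun := fun x => ⟨x.1.1, x.2⟩
        map_add' := fun x y => rfl
        map_smul' := fun c x => rfl }
    refine LinearMap.finrank_le_finrank_of_injective (f := f) fun x y hxy => ?_
    have h1 : x.1.1 = y.1.1 := congrArg (fun z : B => (z : AlgebraicClosure K)) hxy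
    exact Subtype.ext (Subtype.ext h1)
  obtain ⟨U, hU1, hU2, hU3⟩ := exists_subgroup hp V (lt_of_le_of_lt (Nat.mul_le_mul_left p hV) htors)
  let F' : IntermediateField K C := fixedField U
  have hnU : U.Normal := inferInstance
  have hgF : IsGalois K F' := IsGalois.of_fixedField_normal_subgroup U
  have hcF : Nat.card (F' ≃ₐ[K] F') = p ^ 2 := by
    rw [IsGalois.card_aut_eq_finrank]
    have h1 := Module.finrank_mul_finrank K F' C
    have h2 : Module.finrank F' C = Nat.card U := IntermediateField.finrank_fixedField_eq_card U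
    have h3 := Subgroup.card_mul_index U
    rw [hU2, IsGalois.card_aut_eq_finrank, ← h1, h2, mul_comm] at h3
    exact (Nat.eq_of_mul_eq_mul_right Nat.card_pos h3).symm
  have heF : ∀ σ : F' ≃ₐ[K] F', σ ^ p = 1 := by
    intro σ
    obtain ⟨g, rfl⟩ := AlgEquiv.restrictNormalHom_surjective (F := K) (K₁ := F') C σ
    rw [← map_pow]
    have h1 : g ^ p ∈ F'.fixingSubgroup := by
      rw [IntermediateField.fixingSubgroup_fixedField]
      exact hU3 g
    rw [← IntermediateField.restrictNormalHom_ker] at h1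
    exact h1
  let e : F' ≃ₐ[K] lift F' := liftAlgEquiv F'
  refine ⟨lift F', ?_, ?_, ?_, ?_, ?_, n, ζ, hn, hζ.pow_eq_one, lift_le F'⟩
  · exact Module.Finite.equiv e.toLinearEquiv
  · exact IsGalois.of_algEquiv e
  · rw [← hcF]
    exact (Nat.card_congr (AlgEquiv.autCongr e).toEquiv).symm
  · intro σ
    have h1 := heF ((AlgEquiv.autCongr e).symm σ)
    rw [← map_pow] at h1
    exact (MulEquiv.map_eq_one_iff _).1 h1
  · rw [eq_bot_iff]
    rintro x ⟨hx1, hx2⟩
    have hxC : x ∈ C := lift_le F' hx1
    have h1 : (⟨x, hxC⟩ : C) ∈ F' := (mem_lift (⟨x, hxC⟩ : C)).1 hx1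
    have h2 : (⟨x, hxC⟩ : C) ∈ B' := hx2
    have h3 : (⟨x, hxC⟩ : C) ∈ fixedField (⊤ : Subgroup (C ≃ₐ[K] C)) := by
      rw [← hU1]
      have h4 : U ⊔ V ≤ IntermediateField.fixingSubgroup (K⟮(⟨x, hxC⟩ : C)⟯) := by
        refine sup_le ?_ ?_
        · intro g hg
          rw [IntermediateField.mem_fixingSubgroup_iff]
          intro y hy
          have h5 : K⟮(⟨x, hxC⟩ : C)⟯ ≤ F' := IntermediateField.adjoin_simple_le_iff.2 h1
          exact h5 hy ⟨g, hg⟩
        · exact IntermediateField.fixingSubgroup_antitone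
            (IntermediateField.adjoin_simple_le_iff.2 h2)
      intro g
      exact (IntermediateField.mem_fixingSubgroup_iff _ _).1 (h4 g.2) _
        (IntermediateField.mem_adjoin_simple_self K _)
    rw [IsGalois.fixedField_top, IntermediateField.mem_bot] at h3
    obtain ⟨y, hy⟩ := h3
    rw [IntermediateField.mem_bot]
    exact ⟨y, congrArg Subtype.val hy⟩

end Pool.Agent.HW484
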