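import Pool.Agent.HW484.D

/-!
# Places of intermediate fields of a Galois extension and Frobenius elements
-/

set_option autoImplicit false
set_option linter.unusedSectionVars false

namespace Pool.Agent.HW484

open NumberField IsDedekindDomain
open scoped Pointwise
open Pool.Agent.H921R2.TatePole (nm two_le_nm nm_summable)

section
variable {K F M : Type} [Field K] [NumberField K] [Field F] [NumberField F] [Field M] [NumberField M]
  [Algebra K F] [Algebra F M] [Algebra K M] [IsScalarTower K F M] [IsGalois K M]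

variable (F) in
/-- `H` is the group of all automorphisms which are trivial on `F` -/
def FixedBy (H : Subgroup (M ≃ₐ[K] M)) : Prop :=
  ∀ σ : M ≃ₐ[K] M, σ ∈ H ↔ ∀ x : F, σ (algebraMap F M x) = algebraMap F M x

omit [IsGalois K M] in
lemma dn_dn (P : HeightOneSpectrum (𝓞 M)) : dn K (dn F P) = dn K P := by
  apply HeightOneSpectrum.ext
  show (P.asIdeal.under (𝓞 F)).under (𝓞 K) = P.asIdeal.under (𝓞 K)
  rw [Ideal.under_under]

lemma exists_deg {v : HeightOneSpectrum (𝓞 K)} {w : HeightOneSpectrum (𝓞 F)} (hw : dn K w = v) :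
    ∃ j : ℕ, 0 < j ∧ nm w = nm v ^ j := by
  have hov : w.asIdeal.LiesOver v.asIdeal := dn_over hw
  refine ⟨Module.finrank (𝓞 K ⧸ v.asIdeal) (𝓞 F ⧸ w.asIdeal), Module.finrank_pos, ?_⟩
  exact Module.natCard_eq_pow_finrank (K := 𝓞 K ⧸ v.asIdeal) (V := 𝓞 F ⧸ w.asIdeal)

lemma two_le (v : HeightOneSpectrum (𝓞 K)) : 1 < nm v := by
  have := two_le_nm v
  omega

/-- powers of a Frobenius element -/
lemma frob_pow {v : HeightOneSpectrum (𝓞 K)} {P : HeightOneSpectrum (𝓞 M)} {σ : M ≃ₐ[K] M}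
    (hσ : ∀ x : 𝓞 M, σ • x - x ^ nm v ∈ P.asIdeal) (k : ℕ) (x : 𝓞 M) :
    (σ ^ k) • x - x ^ (nm v ^ k) ∈ P.asIdeal := by
  rw [← Ideal.Quotient.eq]
  induction k with
  | zero => simp
  | succ k ih =>
    have h1 := hσ ((σ ^ k) • x)
    rw [← Ideal.Quotient.eq, map_pow, ih] at h1
    rw [pow_succ', mul_smul, h1, ← map_pow, ← pow_mul, pow_succ]

lemma pow_eq_one_of {k : Type} [Field k] [Finite k] {q j r : ℕ} (hq : 1 < q)
    (hc : Nat.card k = q ^ j) (h : ∀ x : k, x ^ (q ^ r) = x) (hr : 0 < r) : j ≤ r := by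
  have := Fintype.ofFinite k
  have h3 : ∀ u : kˣ, u ^ (q ^ r - 1) = 1 := by
    intro u
    have h5 : (u : k) ^ (q ^ r - 1) = 1 := by
      have h6 : (u : k) * (u : k) ^ (q ^ r - 1) = (u : k) * 1 := by
        rw [← pow_succ', Nat.sub_add_cancel (Nat.one_le_pow _ _ (by omega)), mul_one]
        exact h _
      exact mul_left_cancel₀ u.ne_zero h6
    ext
    push_cast
    exact h5
  have h4 := Monoid.exponent_dvd_of_forall_pow_eq_one h3
  rw [IsCyclic.exponent_eq_card, Nat.card_units, hc] at h4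
  have h5 : 0 < q ^ r - 1 := by
    have := Nat.one_lt_pow hr.ne' hq
    omega
  have h6 := Nat.le_of_dvd h5 h4
  have h7 : q ^ j ≤ q ^ r := by
    have := Nat.one_le_pow j q (by omega)
    omega
  exact (Nat.pow_le_pow_iff_right hq).1 h7

/-- the residue degree of an intermediate field in terms of a Frobenius element -/
theorem res_deg {v : HeightOneSpectrum (𝓞 K)} (hun : Unram K M v)
    {P : HeightOneSpectrum (𝓞 M)} {σ : M ≃ₐ[K] M} (hP : dn K P = v)
    (hσ : ∀ x : 𝓞 M, σ • x - x ^ nm v ∈ P.asIdeal) {H : Subgroup (M ≃ₐ[K] M)}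
    (hH : FixedBy F H) :
    ∃ m : ℕ, 0 < m ∧ nm (dn F P) = nm v ^ m ∧ ∀ k : ℕ, σ ^ k ∈ H ↔ m ∣ k := by
  have hgal : IsGalois F M := IsGalois.tower_top_of_isGalois K F M
  obtain ⟨m, hm, hn⟩ := exists_deg (K := K) (w := dn F P) (dn_dn P)
  rw [hP] at hn
  -- `σ ^ m ∈ H`
  have h1 : σ ^ m ∈ H := by
    obtain ⟨τ', hτ'⟩ := exists_frob (K := F) (w := P) rfl
    set τ : M ≃ₐ[K] M := AlgEquiv.restrictScalars K τ' with hτ
    have h2 : ∀ x : 𝓞 M, τ • x - x ^ (nm v ^ m) ∈ P.asIdeal := by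
      intro x
      have h3 := hτ' x
      rw [hn] at h3
      exact h3
    have h3 : σ ^ m * τ⁻¹ = 1 := by
      apply hun P hP
      intro x
      have h4 := frob_pow hσ m (τ⁻¹ • x)
      have h5 := h2 (τ⁻¹ • x)
      rw [smul_inv_smul] at h5
      have h6 := P.asIdeal.sub_mem h4 h5
      rw [mul_smul]
      have e : (σ ^ m) • τ⁻¹ • x - x =
        (σ ^ m) • τ⁻¹ • x - (τ⁻¹ • x) ^ nm v ^ m - (x - (τ⁻¹ • x) ^ nm v ^ m) := by ring
      rw [e]
      exact h6
    have h4 : σ ^ m = τ := mul_inv_eq_one.1 h3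
    rw [h4, hH]
    intro x
    exact τ'.commutes x
  -- minimality
  have h2 : ∀ r : ℕ, 0 < r → σ ^ r ∈ H → m ≤ r := by
    intro r hr hmem
    rw [hH] at hmem
    have hfin : Finite (𝓞 F ⧸ (dn F P).asIdeal) := inferInstance
    have hc : Nat.card (𝓞 F ⧸ (dn F P).asIdeal) = nm v ^ m := hn
    refine pow_eq_one_of (two_le v) hc (fun y => ?_) hr
    obtain ⟨x, rfl⟩ := Ideal.Quotient.mk_surjective y
    rw [← map_pow, Ideal.Quotient.eq, dn_mem, map_sub, map_pow]
    have h3 := frob_pow hσ r (algebraMap (𝓞 F) (𝓞 M) x)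
    have h4 : (σ ^ r) • algebraMap (𝓞 F) (𝓞 M) x = algebraMap (𝓞 F) (𝓞 M) x := by
      apply IsFractionRing.injective (𝓞 M) M
      exact hmem x
    rw [h4] at h3
    rw [← neg_sub]
    exact P.asIdeal.neg_mem h3
  refine ⟨m, hm, hn, fun k => ⟨fun hk => ?_, ?_⟩⟩
  · rw [Nat.dvd_iff_mod_eq_zero]
    by_contra hne
    have h3 : σ ^ (k % m) ∈ H := by
      have e : σ ^ k = σ ^ (k % m) * (σ ^ m) ^ (k / m) := by
        rw [← pow_mul, ← pow_add, Nat.mod_add_div]
      rw [e] at hk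
      exact (H.mul_mem_cancel_right (H.pow_mem h1 _)).1 hk
    exact absurd (h2 _ (Nat.pos_of_ne_zero hne) h3) (not_le.2 (Nat.mod_lt _ hm))
  · rintro ⟨t, rfl⟩
    rw [pow_mul]
    exact H.pow_mem h1 _

end

end Pool.Agent.HW484
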