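import Pool.Agent.HW484.P1

/-!
# Counting the places of intermediate fields
-/

set_option autoImplicit false
set_option linter.unusedSectionVars false

namespace Pool.Agent.HW484

open NumberField IsDedekindDomain
open scoped Pointwise
open Pool.Agent.H921R2.TatePole (nm two_le_nm nm_summable)

lemma card_fib {G α : Type} [Group G] [MulAction G α] [Finite G] (b : α) (T : Set α)
    (hT : T ⊆ MulAction.orbit G b) :
    Nat.card {g : G // g • b ∈ T} = T.ncard * Nat.card (MulAction.stabilizer G b) := by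
  classical
  have hs : ∀ t : T, ∃ g : G, g • b = t := fun t => hT t.2
  choose s hs using hs
  let e : {g : G // g • b ∈ T} ≃ T × MulAction.stabilizer G b :=
    { toFun := fun g => (⟨g.1 • b, g.2⟩, ⟨(s ⟨g.1 • b, g.2⟩)⁻¹ * g.1, by
        rw [MulAction.mem_stabilizer_iff, mul_smul, inv_smul_eq_iff, hs]⟩)
      invFun := fun x => ⟨s x.1 * x.2.1, by
        rw [mul_smul, MulAction.mem_stabilizer_iff.1 x.2.2, hs]
        exact x.1.2⟩
      left_inv := fun g => by
        apply Subtype.ext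
        simp
      right_inv := fun x => by
        obtain ⟨t, u⟩ := x
        have h1 : (s t * u.1) • b = t := by
          rw [mul_smul, MulAction.mem_stabilizer_iff.1 u.2, hs]
        have h2 : (⟨(s t * u.1) • b, by rw [h1]; exact t.2⟩ : T) = t := Subtype.ext h1
        apply Prod.ext
        · exact h2
        · apply Subtype.ext
          simp only
          rw [h2]
          simp }
  rw [Nat.card_congr e, Nat.card_prod, Nat.card_coe_set_eq]

section
variable {K F M : Type} [Field K] [NumberField K] [Field F] [NumberField F] [Field M] [NumberField M]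
  [Algebra K F] [Algebra F M] [Algebra K M] [IsScalarTower K F M] [IsGalois K M]

omit [IsGalois K M] in
lemma unram_top {v : HeightOneSpectrum (𝓞 K)} (hun : Unram K M v) {w : HeightOneSpectrum (𝓞 F)}
    (hw : dn K w = v) : Unram F M w := by
  intro P hP σ hσ
  have h1 := hun P (by rw [← dn_dn (F := F), hP, hw]) (AlgEquiv.restrictScalars K σ) hσ
  ext x
  exact congrArg (fun τ : M ≃ₐ[K] M => τ x) h1

lemma card_stab {v : HeightOneSpectrum (𝓞 K)} (hun : Unram K M v)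
    {P : HeightOneSpectrum (𝓞 M)} {σ : M ≃ₐ[K] M} (hP : dn K P = v)
    (hσ : ∀ x : 𝓞 M, σ • x - x ^ nm v ∈ P.asIdeal) :
    Nat.card (MulAction.stabilizer (M ≃ₐ[K] M) P.asIdeal) = orderOf σ := by
  obtain ⟨_, h2⟩ := frob_key hun P σ hP hσ
  have hov : P.asIdeal.LiesOver v.asIdeal := dn_over hP
  have hpr := P.isPrime
  have horb := Algebra.IsInvariant.orbit_eq_primesOver (𝓞 K) (𝓞 M) (M ≃ₐ[K] M) v.asIdeal P.asIdeal
  have h3 := Nat.card_congr (MulAction.orbitProdStabilizerEquivGroup (M ≃ₐ[K] M) P.asIdeal)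
  rw [Nat.card_prod, horb, Nat.card_coe_set_eq, ← h2] at h3
  have h4 : 0 < (v.asIdeal.primesOver (𝓞 M)).ncard := by
    rw [Nat.pos_iff_ne_zero]
    intro h0
    rw [h0, zero_mul] at h2
    exact Nat.card_pos.ne h2
  exact Nat.eq_of_mul_eq_mul_left h4 h3

/-- the places of `M` over `w`, in terms of group elements -/
theorem card_T {v : HeightOneSpectrum (𝓞 K)} (hun : Unram K M v)
    {P : HeightOneSpectrum (𝓞 M)} {σ : M ≃ₐ[K] M} (hP : dn K P = v)
    (hσ : ∀ x : 𝓞 M, σ • x - x ^ nm v ∈ P.asIdeal) {H : Subgroup (M ≃ₐ[K] M)}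
    (hH : FixedBy F H) {w : HeightOneSpectrum (𝓞 F)} (hw : dn K w = v) {m : ℕ}
    (hm : nm w = nm v ^ m) :
    Nat.card {g : M ≃ₐ[K] M // g • P.asIdeal ∈ w.asIdeal.primesOver (𝓞 M)} = m * Nat.card H := by
  have hgal : IsGalois F M := IsGalois.tower_top_of_isGalois K F M
  have hov : P.asIdeal.LiesOver v.asIdeal := dn_over hP
  have hpr := P.isPrime
  have horb := Algebra.IsInvariant.orbit_eq_primesOver (𝓞 K) (𝓞 M) (M ≃ₐ[K] M) v.asIdeal P.asIdeal
  have hsub : w.asIdeal.primesOver (𝓞 M) ⊆ MulAction.orbit (M ≃ₐ[K] M) P.asIdeal := by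
    rw [horb]
    rintro Q ⟨hQ1, hQ2⟩
    refine ⟨hQ1, ?_⟩
    have : w.asIdeal.LiesOver v.asIdeal := dn_over hw
    exact Ideal.LiesOver.trans Q w.asIdeal v.asIdeal
  rw [card_fib P.asIdeal _ hsub, card_stab hun hP hσ]
  -- the number of places over `w`
  obtain ⟨P1, hP1⟩ := dn_surj (F := M) w
  obtain ⟨τ, hτ⟩ := exists_frob (K := F) hP1
  obtain ⟨h1, h2⟩ := frob_key (K := F) (unram_top hun hw) P1 τ hP1 hτ
  have h3 : nm P1 = nm v ^ orderOf σ :=
    (frob_split hun hP hσ).1 P1 (by rw [← dn_dn (F := F), hP1, hw])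
  rw [hm, ← pow_mul] at h1
  have h4 : orderOf σ = m * orderOf τ := Nat.pow_right_injective (two_le v) (h3.symm.trans h1)
  have h5 : Nat.card (M ≃ₐ[F] M) = Nat.card H := by
    refine Nat.card_congr
      { toFun := fun g => ⟨AlgEquiv.restrictScalars K g, by
          rw [hH]
          intro x
          exact g.commutes x⟩
        invFun := fun g => AlgEquiv.ofRingEquiv (f := g.1.toRingEquiv) fun x => (hH g.1).1 g.2 x
        left_inv := fun g => by ext x; rfl
        right_inv := fun g => by ext x; rfl }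
  rw [h4, ← h5, ← h2]
  ring

/-- the group elements which correspond to places of residue degree `m` -/
def Deg (σ : M ≃ₐ[K] M) (H : Subgroup (M ≃ₐ[K] M)) (m : ℕ) (g : M ≃ₐ[K] M) : Prop :=
  ∀ k : ℕ, g * σ ^ k * g⁻¹ ∈ H ↔ m ∣ k

/-- the number of places of residue degree `m` -/
noncomputable def cn (F : Type) [Field F] [NumberField F] [Algebra K F]
    (v : HeightOneSpectrum (𝓞 K)) (m : ℕ) : ℕ :=
  Nat.card {w : {w : HeightOneSpectrum (𝓞 F) // dn K w = v} // nm w.1 = nm v ^ m}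

/-- the translate of a place -/
noncomputable def tr (g : M ≃ₐ[K] M) (P : HeightOneSpectrum (𝓞 M)) : HeightOneSpectrum (𝓞 M) :=
  ⟨g • P.asIdeal, P.isPrime.smul g, fun h0 => P.ne_bot (by
    have h1 : g⁻¹ • g • P.asIdeal = g⁻¹ • (⊥ : Ideal (𝓞 M)) := by rw [h0]
    rw [inv_smul_smul] at h1
    rw [h1, Ideal.pointwise_smul_def, Ideal.map_bot])⟩

lemma mem_tr {g : M ≃ₐ[K] M} {P : HeightOneSpectrum (𝓞 M)} {x : 𝓞 M} :
    x ∈ (tr g P).asIdeal ↔ g⁻¹ • x ∈ P.asIdeal := by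
  show x ∈ g • P.asIdeal ↔ _
  rw [Ideal.mem_pointwise_smul_iff_inv_smul_mem]

lemma dn_tr {v : HeightOneSpectrum (𝓞 K)} {P : HeightOneSpectrum (𝓞 M)} (hP : dn K P = v)
    (g : M ≃ₐ[K] M) : dn K (tr g P) = v := by
  rw [← hP]
  apply HeightOneSpectrum.ext
  ext x
  rw [dn_mem, dn_mem, mem_tr, smul_algebraMap]

lemma frob_tr {v : HeightOneSpectrum (𝓞 K)}
    {P : HeightOneSpectrum (𝓞 M)} {σ : M ≃ₐ[K] M}
    (hσ : ∀ x : 𝓞 M, σ • x - x ^ nm v ∈ P.asIdeal) (g : M ≃ₐ[K] M) (x : 𝓞 M) :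
    (g * σ * g⁻¹) • x - x ^ nm v ∈ (tr g P).asIdeal := by
  rw [mem_tr, smul_sub, smul_pow', mul_smul, mul_smul, inv_smul_smul]
  exact hσ _

lemma mem_over {g : M ≃ₐ[K] M} {P : HeightOneSpectrum (𝓞 M)} {w : HeightOneSpectrum (𝓞 F)} :
    g • P.asIdeal ∈ w.asIdeal.primesOver (𝓞 M) ↔ dn F (tr g P) = w := by
  constructor
  · rintro ⟨h1, h2⟩
    apply HeightOneSpectrum.ext
    exact h2.over.symm
  · intro h
    exact ⟨P.isPrime.smul g, ⟨by rw [← h]; rfl⟩⟩

lemma deg_iff {v : HeightOneSpectrum (𝓞 K)} (hun : Unram K M v)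
    {P : HeightOneSpectrum (𝓞 M)} {σ : M ≃ₐ[K] M} (hP : dn K P = v)
    (hσ : ∀ x : 𝓞 M, σ • x - x ^ nm v ∈ P.asIdeal) {H : Subgroup (M ≃ₐ[K] M)}
    (hH : FixedBy F H) (m : ℕ) (g : M ≃ₐ[K] M) :
    Deg σ H m g ↔ nm (dn F (tr g P)) = nm v ^ m := by
  obtain ⟨m', hm', h1, h2⟩ := res_deg hun (dn_tr hP g) (frob_tr hσ g) hH
  have h3 : ∀ k : ℕ, g * σ ^ k * g⁻¹ ∈ H ↔ m' ∣ k := by
    intro k
    rw [← h2 k, conj_pow]
  constructor
  · intro h
    have : m = m' := Nat.dvd_antisymm ((h m').1 ((h3 m').2 dvd_rfl)) ((h3 m).1 ((h m).2 dvd_rfl))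
    rw [this, h1]
  · intro h
    have : m = m' := Nat.pow_right_injective (two_le v) (h.symm.trans h1)
    rw [this]
    exact h3

theorem card_Deg {v : HeightOneSpectrum (𝓞 K)} (hun : Unram K M v)
    {P : HeightOneSpectrum (𝓞 M)} {σ : M ≃ₐ[K] M} (hP : dn K P = v)
    (hσ : ∀ x : 𝓞 M, σ • x - x ^ nm v ∈ P.asIdeal) {H : Subgroup (M ≃ₐ[K] M)}
    (hH : FixedBy F H) (m : ℕ) :
    Nat.card {g : M ≃ₐ[K] M // Deg σ H m g} = cn F v m * (m * Nat.card H) := by
  classical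
  let e : {g : M ≃ₐ[K] M // Deg σ H m g} ≃
      Σ w : {w : {w : HeightOneSpectrum (𝓞 F) // dn K w = v} // nm w.1 = nm v ^ m},
        {g : M ≃ₐ[K] M // g • P.asIdeal ∈ w.1.1.asIdeal.primesOver (𝓞 M)} :=
    { toFun := fun g => ⟨⟨⟨dn F (tr g.1 P), by rw [dn_dn, dn_tr hP]⟩,
          (deg_iff hun hP hσ hH m g.1).1 g.2⟩, ⟨g.1, mem_over.2 rfl⟩⟩
      invFun := fun x => ⟨x.2.1, (deg_iff hun hP hσ hH m x.2.1).2 (by
        rw [mem_over.1 x.2.2]
        exact x.1.2)⟩
      left_inv := fun g => rfl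
      right_inv := fun x => by
        obtain ⟨⟨⟨w, hw⟩, hw2⟩, ⟨g, hg⟩⟩ := x
        have h1 := mem_over.1 hg
        subst h1
        rfl }
  have hfin : Finite {w : {w : HeightOneSpectrum (𝓞 F) // dn K w = v} // nm w.1 = nm v ^ m} :=
    inferInstance
  have := Fintype.ofFinite {w : {w : HeightOneSpectrum (𝓞 F) // dn K w = v} // nm w.1 = nm v ^ m}
  rw [Nat.card_congr e, Nat.card_sigma]
  rw [Finset.sum_congr rfl fun w _ => card_T hun hP hσ hH w.1.2 w.2, Finset.sum_const,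
    Finset.card_univ, smul_eq_mul, cn, ← Nat.card_eq_fintype_card]

end

end Pool.Agent.HW484
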