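import Pool.Agent.HW484.P2

/-!
# Permutation characters and Euler products
-/

set_option autoImplicit false
set_option linter.unusedSectionVars false

namespace Pool.Agent.HW484

open NumberField IsDedekindDomain
open scoped Pointwise
open Pool.Agent.H921R2.TatePole (nm two_le_nm nm_summable)

section group
variable {G : Type} [Group G] [Finite G]

/-- the permutation character of `G / H` -/
noncomputable def ind (H : Subgroup G) (x : G) : ℕ := Nat.card {y : G ⧸ H // x • y = y}

lemma card_conj (H : Subgroup G) (x : G) :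
    Nat.card {g : G // g * x * g⁻¹ ∈ H} = Nat.card H * ind H x := by
  have h1 : Nat.card {g : G // g * x * g⁻¹ ∈ H} =
      Nat.card ((QuotientGroup.mk : G → G ⧸ H) ⁻¹' {y | x • y = y}) := by
    refine Nat.card_congr (Equiv.subtypeEquiv (Equiv.inv G) fun g => ?_)
    show g * x * g⁻¹ ∈ H ↔ x • ((g⁻¹ : G) : G ⧸ H) = ((g⁻¹ : G) : G ⧸ H)
    rw [MulAction.Quotient.smul_mk, smul_eq_mul, eq_comm, QuotientGroup.eq, inv_inv, mul_assoc]
  rw [h1, Nat.card_congr (QuotientGroup.preimageMkEquivSubgroupProdSet H _), Nat.card_prod]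
  rfl

end group

lemma prod_zpow_sum {ι : Type} (s : Finset ι) {u : ℂ} (hu : u ≠ 0) (e : ι → ℤ) :
    ∏ i ∈ s, u ^ e i = u ^ ∑ i ∈ s, e i := by
  classical
  induction s using Finset.induction_on with
  | empty => simp
  | insert i s hi ih => rw [Finset.prod_insert hi, Finset.sum_insert hi, zpow_add₀ hu, ih]

lemma hasProd_zpow {β : Type} {f : β → ℂ} {a : ℂ} (h : HasProd f a) (ha : a ≠ 0) (n : ℤ) :
    HasProd (fun b => f b ^ n) (a ^ n) := by
  have key : ∀ m : ℕ, HasProd (fun b => f b ^ m) (a ^ m) := by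
    intro m
    have := hasProd_prod (s := Finset.range m) (fun _ _ => h)
    simpa using this
  obtain ⟨m, rfl | rfl⟩ := n.eq_nat_or_neg
  · simpa using key m
  · have := (key m).inv₀ (pow_ne_zero m ha)
    simpa using this

section
variable {K F M : Type} [Field K] [NumberField K] [Field F] [NumberField F] [Field M] [NumberField M]
  [Algebra K F] [Algebra F M] [Algebra K M] [IsScalarTower K F M] [IsGalois K M]

theorem ind_eq {v : HeightOneSpectrum (𝓞 K)} (hun : Unram K M v)
    {P : HeightOneSpectrum (𝓞 M)} {σ : M ≃ₐ[K] M} (hP : dn K P = v)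
    (hσ : ∀ x : 𝓞 M, σ • x - x ^ nm v ∈ P.asIdeal) {H : Subgroup (M ≃ₐ[K] M)}
    (hH : FixedBy F H) {k : ℕ} (hk : 0 < k) :
    ind H (σ ^ k) = ∑ m ∈ k.divisors, m * cn F v m := by
  classical
  have hfd : FiniteDimensional K M := Module.Finite.of_restrictScalars_finite ℚ K M
  have hex : ∀ g : M ≃ₐ[K] M, ∃ m : ℕ, 0 < m ∧ Deg σ H m g := by
    intro g
    obtain ⟨m, h1, h2, h3⟩ := res_deg hun (dn_tr hP g) (frob_tr hσ g) hH
    refine ⟨m, h1, fun k => ?_⟩
    rw [← h3 k, conj_pow]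
  choose d hd1 hd2 using hex
  have huniq : ∀ g m, Deg σ H m g → d g = m := fun g m h =>
    Nat.dvd_antisymm ((hd2 g m).1 ((h m).2 dvd_rfl)) ((h (d g)).1 ((hd2 g (d g)).2 dvd_rfl))
  have h1 : Nat.card {g : M ≃ₐ[K] M // g * σ ^ k * g⁻¹ ∈ H} =
      ∑ m ∈ k.divisors, Nat.card {g : M ≃ₐ[K] M // Deg σ H m g} := by
    rw [Nat.card_eq_fintype_card, Fintype.card_subtype,
      Finset.card_eq_sum_card_fiberwise (f := d) (t := k.divisors)]
    · refine Finset.sum_congr rfl fun m hm => ?_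
      rw [Nat.card_eq_fintype_card, Fintype.card_subtype, Finset.filter_filter]
      congr 1
      ext g
      simp only [Finset.mem_filter, Finset.mem_univ, true_and]
      constructor
      · rintro ⟨_, h3⟩
        rw [← h3]
        exact hd2 g
      · intro h
        exact ⟨(h k).2 (Nat.dvd_of_mem_divisors hm), huniq g m h⟩
    · intro g hg
      simp only [Finset.coe_filter, Finset.mem_univ, true_and, Set.mem_ofPred_eq] at hg
      exact Finset.mem_coe.2 (Nat.mem_divisors.2 ⟨(hd2 g k).1 hg, hk.ne'⟩)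
  rw [card_conj, Finset.sum_congr rfl fun m _ => card_Deg hun hP hσ hH m] at h1
  have h2 : ∑ m ∈ k.divisors, cn F v m * (m * Nat.card H) =
      Nat.card H * ∑ m ∈ k.divisors, m * cn F v m := by
    rw [Finset.mul_sum]
    exact Finset.sum_congr rfl fun m _ => by ring
  rw [h2] at h1
  exact Nat.eq_of_mul_eq_mul_left Nat.card_pos h1

end

section relation
variable {K M : Type} [Field K] [NumberField K] [Field M] [NumberField M] [Algebra K M] [IsGalois K M]
  {ι : Type} [Fintype ι] (F : ι → Type) [∀ i, Field (F i)] [∀ i, NumberField (F i)]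
  [∀ i, Algebra K (F i)] [∀ i, Algebra (F i) M] [∀ i, IsScalarTower K (F i) M]

/-- a relation between permutation characters -/
structure Rel (H : ι → Subgroup (M ≃ₐ[K] M)) (a : ι → ℤ) (n : ℤ) : Prop where
  fixed : ∀ i, FixedBy (F i) (H i)
  rel : ∀ x : M ≃ₐ[K] M, ∑ i, a i * (ind (H i) x : ℤ) = n

variable {F}

theorem sum_cn {H : ι → Subgroup (M ≃ₐ[K] M)} {a : ι → ℤ} {n : ℤ} (h : Rel F H a n)
    {v : HeightOneSpectrum (𝓞 K)} (hun : Unram K M v) {m : ℕ} (hm : 0 < m) :
    ∑ i, a i * (cn (F i) v m : ℤ) = if m = 1 then n else 0 := by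
  obtain ⟨P, hP⟩ := dn_surj (F := M) v
  obtain ⟨σ, hσ⟩ := exists_frob hP
  set b : ℕ → ℤ := fun m => ∑ i, a i * ((m * cn (F i) v m : ℕ) : ℤ) with hb
  have h1 : ∀ k : ℕ, 0 < k → ∑ m ∈ k.divisors, b m = n := by
    intro k hk
    rw [hb, Finset.sum_comm, ← h.rel (σ ^ k)]
    refine Finset.sum_congr rfl fun i _ => ?_
    rw [← Finset.mul_sum, ind_eq hun hP hσ (h.fixed i) hk]
    push_cast
    rfl
  have h2 : ∀ k : ℕ, 0 < k → b k = if k = 1 then n else 0 := by
    intro k
    induction k using Nat.strong_induction_on with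
    | _ k ih =>
      intro hk
      by_cases hk1 : k = 1
      · subst hk1
        have := h1 1 one_pos
        rw [Nat.divisors_one, Finset.sum_singleton] at this
        rw [this, if_pos rfl]
      · have h3 := h1 k hk
        rw [← Nat.insert_self_properDivisors hk.ne',
          Finset.sum_insert Nat.self_notMem_properDivisors] at h3
        have h4 : ∑ m ∈ k.properDivisors, b m = n := by
          rw [Finset.sum_congr rfl fun m hm => ih m (Nat.mem_properDivisors.1 hm).2
            (Nat.pos_of_mem_properDivisors hm)]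
          rw [Finset.sum_ite_eq', if_pos]
          exact Nat.one_mem_properDivisors_iff_one_lt.2 (by omega)
        rw [if_neg hk1]
        linarith
  have h3 := h2 m hm
  have h4 : b m = m * ∑ i, a i * (cn (F i) v m : ℤ) := by
    rw [hb, Finset.mul_sum]
    refine Finset.sum_congr rfl fun i _ => ?_
    push_cast
    ring
  rw [h4] at h3
  by_cases hm1 : m = 1
  · subst hm1
    simpa using h3
  · rw [if_neg hm1] at h3 ⊢
    rcases mul_eq_zero.1 h3 with h5 | h5
    · exact absurd h5 (by exact_mod_cast hm.ne')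
    · exact h5

theorem rel_local' {H : ι → Subgroup (M ≃ₐ[K] M)} {a : ι → ℤ} {n : ℤ} (h : Rel F H a n)
    {E : WeierstrassCurve K} {l P Q : 𝓞 K} (hd : Data E l P Q)
    {W : HeightOneSpectrum (𝓞 K) → WeierstrassCurve (𝓞 K)} (hW : ∀ v, IsMinAt E v (W v))
    {WF : ∀ i, HeightOneSpectrum (𝓞 (F i)) → WeierstrassCurve (𝓞 (F i))}
    (hWF : ∀ i v, IsMinAt (E.map (algebraMap K (F i))) v (WF i v))
    {v : HeightOneSpectrum (𝓞 K)} (hg : Good P Q v) (hun : Unram K M v) {s : ℂ}
    (hs : 3 / 2 < s.re) :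
    ∏ i, GG (WF i) s v ^ a i = ((fac W v s)⁻¹) ^ n := by
  classical
  have hWK : ∀ v, IsMinAt (E.map (algebraMap K K)) v (W v) := by
    rw [map_self]
    exact hW
  let y : ℕ → ℂ := fun m => if h : ∃ (i : ι) (w : HeightOneSpectrum (𝓞 (F i))), dn K w = v ∧
    nm w = nm v ^ m then (fac (WF h.choose) h.choose_spec.choose s)⁻¹ else (fac W v s)⁻¹
  have hy0 : ∀ m, y m ≠ 0 := by
    intro m
    show (if h : ∃ (i : ι) (w : HeightOneSpectrum (𝓞 (F i))), dn K w = v ∧
      nm w = nm v ^ m then (fac (WF h.choose) h.choose_spec.choose s)⁻¹ else (fac W v s)⁻¹) ≠ 0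
    split_ifs
    · exact inv_ne_zero (fac_ne _ _ hs)
    · exact inv_ne_zero (fac_ne _ _ hs)
  have hy : ∀ (m : ℕ) (i : ι) (w : HeightOneSpectrum (𝓞 (F i))), dn K w = v → nm w = nm v ^ m →
      (fac (WF i) w s)⁻¹ = y m := by
    intro m i w hw hn
    have hex : ∃ (i : ι) (w : HeightOneSpectrum (𝓞 (F i))), dn K w = v ∧ nm w = nm v ^ m :=
      ⟨i, w, hw, hn⟩
    show _ = (if h : ∃ (i : ι) (w : HeightOneSpectrum (𝓞 (F i))), dn K w = v ∧
      nm w = nm v ^ m then (fac (WF h.choose) h.choose_spec.choose s)⁻¹ else (fac W v s)⁻¹)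
    rw [dif_pos hex]
    obtain ⟨h1, h2⟩ := hex.choose_spec.choose_spec
    rw [fac_congr hd (hWF i) (hWF hex.choose) hg hw h1 (hn.trans h2.symm)]
  have hy1 : y 1 = (fac W v s)⁻¹ := by
    show (if h : ∃ (i : ι) (w : HeightOneSpectrum (𝓞 (F i))), dn K w = v ∧
      nm w = nm v ^ 1 then (fac (WF h.choose) h.choose_spec.choose s)⁻¹ else (fac W v s)⁻¹) = _
    split_ifs with hex
    · obtain ⟨h1, h2⟩ := hex.choose_spec.choose_spec
      have h2' := h2.trans (pow_one (nm v))
      rw [fac_congr hd (hWF hex.choose) hWK hg h1 (dn_self v) h2']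
    · rfl
  -- a bound for the degrees
  obtain ⟨B, hB2, hB⟩ : ∃ B : ℕ, 2 ≤ B ∧ ∀ (i : ι) (w : {w : HeightOneSpectrum (𝓞 (F i)) // dn K w = v}),
      Nat.log (nm v) (nm w.1) < B := by
    refine ⟨(Finset.univ.sup fun i : ι => Finset.univ.sup
      fun w : {w : HeightOneSpectrum (𝓞 (F i)) // dn K w = v} => Nat.log (nm v) (nm w.1)) + 2,
      by omega, fun i w => ?_⟩
    have h1 := Finset.le_sup (f := fun w : {w : HeightOneSpectrum (𝓞 (F i)) // dn K w = v} =>
      Nat.log (nm v) (nm w.1)) (Finset.mem_univ w)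
    have h2 := Finset.le_sup (f := fun i : ι => Finset.univ.sup
      fun w : {w : HeightOneSpectrum (𝓞 (F i)) // dn K w = v} => Nat.log (nm v) (nm w.1))
      (Finset.mem_univ i)
    exact lt_of_le_of_lt (h1.trans h2) (by omega)
  have hlog : ∀ m, Nat.log (nm v) (nm v ^ m) = m := fun m => Nat.log_pow (two_le v) m
  have hGG : ∀ i, GG (WF i) s v = ∏ m ∈ Finset.range B, y m ^ cn (F i) v m := by
    intro i
    unfold GG
    rw [← Finset.prod_fiberwise_of_maps_to (s := Finset.univ) (t := Finset.range B)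
      (g := fun w : {w : HeightOneSpectrum (𝓞 (F i)) // dn K w = v} => Nat.log (nm v) (nm w.1))
      (fun w _ => Finset.mem_range.2 (hB i w))]
    refine Finset.prod_congr rfl fun m _ => ?_
    have h1 : ∀ w : {w : HeightOneSpectrum (𝓞 (F i)) // dn K w = v},
        Nat.log (nm v) (nm w.1) = m ↔ nm w.1 = nm v ^ m := by
      intro w
      obtain ⟨j, _, hj⟩ := exists_deg w.2
      rw [hj, hlog]
      exact ⟨fun h => by rw [h], fun h => Nat.pow_right_injective (two_le v) h⟩
    rw [Finset.prod_congr rfl (g := fun _ => y m)]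
    · rw [Finset.prod_const]
      congr 1
      rw [cn, Nat.card_eq_fintype_card, Fintype.card_subtype]
      congr 1
      ext w
      simp only [Finset.mem_filter, Finset.mem_univ, true_and]
      exact h1 w
    · intro w hw
      rw [Finset.mem_filter] at hw
      exact hy m i w.1 w.2 ((h1 w).1 hw.2)
  have h1 : ∏ i, GG (WF i) s v ^ a i = ∏ m ∈ Finset.range B, y m ^ ∑ i, a i * (cn (F i) v m : ℤ) := by
    rw [Finset.prod_congr rfl fun i _ => by rw [hGG i, ← Finset.prod_zpow], Finset.prod_comm]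
    refine Finset.prod_congr rfl fun m _ => ?_
    rw [← prod_zpow_sum _ (hy0 m)]
    refine Finset.prod_congr rfl fun i _ => ?_
    rw [← zpow_natCast, ← zpow_mul, mul_comm]
  rw [h1, ← hy1]
  have h2 : ∀ m ∈ Finset.range B, y m ^ ∑ i, a i * (cn (F i) v m : ℤ) = if m = 1 then y 1 ^ n else 1 := by
    intro m _
    rcases Nat.eq_zero_or_pos m with h0 | h0
    · subst h0
      have h3 : ∀ i, cn (F i) v 0 = 0 := by
        intro i
        rw [cn, Nat.card_eq_zero]
        left
        refine ⟨fun w => ?_⟩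
        have h4 : nm w.1.1 = 1 := w.2.trans (pow_zero _)
        have := two_le_nm w.1.1
        omega
      rw [Finset.sum_eq_zero fun i _ => by rw [h3 i]; simp, zpow_zero, if_neg (by norm_num)]
    · rw [sum_cn h hun h0]
      by_cases hm1 : m = 1
      · rw [if_pos hm1, if_pos hm1, hm1]
      · rw [if_neg hm1, if_neg hm1, zpow_zero]
  rw [Finset.prod_congr rfl h2, Finset.prod_ite_eq', if_pos (Finset.mem_range.2 (by omega))]

theorem rel_global' {H : ι → Subgroup (M ≃ₐ[K] M)} {a : ι → ℤ} {n : ℤ} (h : Rel F H a n)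
    {E : WeierstrassCurve K} (hE : E.IsElliptic) {Ω : Set ℂ}
    {W : HeightOneSpectrum (𝓞 K) → WeierstrassCurve (𝓞 K)} (hW : ∀ v, IsMinAt E v (W v))
    {WF : ∀ i, HeightOneSpectrum (𝓞 (F i)) → WeierstrassCurve (𝓞 (F i))}
    (hWF : ∀ i v, IsMinAt (E.map (algebraMap K (F i))) v (WF i v))
    (hc : ∀ i, a i ≠ 0 → Cont (WF i) Ω) :
    ∃ f : ℂ → ℂ, MeromorphicOn f Ω ∧ ∀ s : ℂ, 3 / 2 < s.re → f s = LS W s ^ n := by
  classical
  obtain ⟨l, P, Q, hd⟩ := exists_data E hE
  have hfin : ({v : HeightOneSpectrum (𝓞 K) | ¬ Good P Q v} ∪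
      {v : HeightOneSpectrum (𝓞 K) | ¬ Unram K M v}).Finite :=
    (finite_bad hd.2.2.2).union (finite_ram K M)
  set S := hfin.toFinset with hS
  have hSm : ∀ v, v ∉ S → Good P Q v ∧ Unram K M v := by
    intro v hv
    rw [hS, Set.Finite.mem_toFinset, Set.mem_union, not_or] at hv
    obtain ⟨h1, h2⟩ := hv
    have h1' : ¬ ¬ Good P Q v := h1
    have h2' : ¬ ¬ Unram K M v := h2
    exact ⟨not_not.1 h1', not_not.1 h2'⟩
  have hex : ∀ i, ∃ f : ℂ → ℂ, MeromorphicOn f Ω ∧
      (a i ≠ 0 → ∀ s : ℂ, 3 / 2 < s.re → f s = LS (WF i) s) := by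
    intro i
    by_cases ha : a i = 0
    · exact ⟨fun _ => 1, MeromorphicOn.const 1, fun h => (h ha).elim⟩
    · obtain ⟨f, h1, h2⟩ := hc i ha
      exact ⟨f, h1, fun _ => h2⟩
  choose fF hfF hfF' using hex
  have hEF : ∀ i, (E.map (algebraMap K (F i))).IsElliptic := fun i => inferInstance
  have key : ∀ s : ℂ, 3 / 2 < s.re →
      ∏ i, (LS (WF i) s * ∏ v ∈ S, HH (WF i) s v) ^ a i = (LS W s * ∏ v ∈ S, fac W v s) ^ n := by
    intro s hs
    have n1 : LS W s ≠ 0 := (hasProd_LS hE hW hs).2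
    have n3 : ∏ v ∈ S, fac W v s ≠ 0 := Finset.prod_ne_zero_iff.2 fun v _ => fac_ne W v hs
    have hK : HasProd (fun v : HeightOneSpectrum (𝓞 K) => if v ∈ S then 1 else (fac W v s)⁻¹)
        (LS W s * ∏ v ∈ S, fac W v s) := by
      have h1 := (hasProd_LS hE hW hs).1
      have h2 : HasProd (fun v : HeightOneSpectrum (𝓞 K) => if v ∈ S then fac W v s else 1)
          (∏ v ∈ S, if v ∈ S then fac W v s else 1) := by
        refine hasProd_prod_of_ne_finset_one fun v hv => ?_
        rw [if_neg hv]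
      have h3 : (∏ v ∈ S, if v ∈ S then fac W v s else 1) = ∏ v ∈ S, fac W v s :=
        Finset.prod_congr rfl fun v hv => by rw [if_pos hv]
      rw [h3] at h2
      refine (h1.mul h2).congr_fun fun v => ?_
      by_cases hv : v ∈ S
      · rw [if_pos hv, if_pos hv, inv_mul_cancel₀ (fac_ne W v hs)]
      · rw [if_neg hv, if_neg hv, mul_one]
    have hKn := hasProd_zpow hK (mul_ne_zero n1 n3) n
    have hF := hasProd_prod (s := (Finset.univ : Finset ι)) fun i _ => by
      have n2 : ∏ v ∈ S, HH (WF i) s v ≠ 0 := by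
        rw [Finset.prod_ne_zero_iff]
        intro v _ h0
        have := GG_HH (WF i) hs v
        rw [h0, mul_zero] at this
        exact zero_ne_one this
      exact hasProd_zpow (hasProd_mod (K := K) (hEF i) (hWF i) hs S)
        (mul_ne_zero (hasProd_LS (hEF i) (hWF i) hs).2 n2) (a i)
    refine hF.unique (hKn.congr_fun fun v => ?_)
    by_cases hv : v ∈ S
    · simp [hv]
    · obtain ⟨h1, h2⟩ := hSm v hv
      simp only [if_neg hv]
      exact (rel_local' h hd hW hWF h1 h2 hs)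
  refine ⟨fun s => (∏ i, (fF i s * ∏ v ∈ S, HH (WF i) s v) ^ a i) *
    ((∏ v ∈ S, fac W v s) ^ n)⁻¹, ?_, fun s hs => ?_⟩
  · have m1 : MeromorphicOn (fun s => ∏ i, (fF i s * ∏ v ∈ S, HH (WF i) s v) ^ a i) Ω :=
      MeromorphicOn.fun_prod fun i _ => ((hfF i).fun_mul
        (MeromorphicOn.fun_prod fun v _ => HH_mero (WF i) v Ω)).fun_zpow (a i)
    have m3 : MeromorphicOn (fun s => ((∏ v ∈ S, fac W v s) ^ n)⁻¹) Ω :=
      ((MeromorphicOn.fun_prod fun v _ => fac_mero W v Ω).fun_zpow n).fun_inv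
    exact m1.fun_mul m3
  · have h1 := key s hs
    have n3 : ∏ v ∈ S, fac W v s ≠ 0 := Finset.prod_ne_zero_iff.2 fun v _ => fac_ne W v hs
    have h2 : ∏ i, (fF i s * ∏ v ∈ S, HH (WF i) s v) ^ a i =
        ∏ i, (LS (WF i) s * ∏ v ∈ S, HH (WF i) s v) ^ a i := by
      refine Finset.prod_congr rfl fun i _ => ?_
      by_cases ha : a i = 0
      · rw [ha, zpow_zero, zpow_zero]
      · rw [hfF' i ha s hs]
    simp only
    rw [h2, h1, mul_zpow, mul_assoc, mul_inv_cancel₀ (zpow_ne_zero n n3), mul_one]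

end relation

end Pool.Agent.HW484
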