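import Pool.Agent.HW484.S2
import Pool.Agent.HW484.E2

/-!
# Propagation of the failure of meromorphic continuation
-/

set_option autoImplicit false
set_option linter.unusedSectionVars false

namespace Pool.Agent.HW484

open NumberField IsDedekindDomain IntermediateField
open Pool.Agent.H921R2.TatePole (nm two_le_nm nm_summable)

/-- meromorphic continuation to `Ω` -/
def Continues (K : Type) [Field K] [NumberField K] (E : WeierstrassCurve K) (Ω : Set ℂ) : Prop :=
  ∀ W : HeightOneSpectrum (𝓞 K) → WeierstrassCurve (𝓞 K), (∀ v, IsMinAt E v (W v)) → Cont W Ω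

section
variable {K : Type} [Field K] [NumberField K]

/-- the powers which have a continuation -/
def Pw (W : HeightOneSpectrum (𝓞 K) → WeierstrassCurve (𝓞 K)) (Ω : Set ℂ) (n : ℤ) : Prop :=
  ∃ f : ℂ → ℂ, MeromorphicOn f Ω ∧ ∀ s : ℂ, 3 / 2 < s.re → f s = LS W s ^ n

/-- the powers which have a continuation do not depend on the choice of the minimal models -/
theorem pw_indep {E : WeierstrassCurve K} (hE : E.IsElliptic)
    {W W' : HeightOneSpectrum (𝓞 K) → WeierstrassCurve (𝓞 K)} (hW : ∀ v, IsMinAt E v (W v))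
    (hW' : ∀ v, IsMinAt E v (W' v)) {Ω : Set ℂ} {n : ℤ} (h : Pw W Ω n) : Pw W' Ω n := by
  classical
  obtain ⟨l, P, Q, hd⟩ := exists_data E hE
  have hfin := finite_bad hd.2.2.2
  set S := hfin.toFinset with hS
  have hSm : ∀ v, v ∉ S → Good P Q v := by
    intro v hv
    rw [hS, Set.Finite.mem_toFinset] at hv
    have hv' : ¬ ¬ Good P Q v := hv
    exact not_not.1 hv'
  have hK : ∀ {V : HeightOneSpectrum (𝓞 K) → WeierstrassCurve (𝓞 K)}, (∀ v, IsMinAt E v (V v)) →
      ∀ {s : ℂ}, 3 / 2 < s.re →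
      HasProd (fun v : HeightOneSpectrum (𝓞 K) => if v ∈ S then 1 else (fac V v s)⁻¹)
        (LS V s * ∏ v ∈ S, fac V v s) := by
    intro V hV s hs
    have h1 := (hasProd_LS hE hV hs).1
    have h2 : HasProd (fun v : HeightOneSpectrum (𝓞 K) => if v ∈ S then fac V v s else 1)
        (∏ v ∈ S, if v ∈ S then fac V v s else 1) := by
      refine hasProd_prod_of_ne_finset_one fun v hv => ?_
      rw [if_neg hv]
    have h3 : (∏ v ∈ S, if v ∈ S then fac V v s else 1) = ∏ v ∈ S, fac V v s :=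
      Finset.prod_congr rfl fun v hv => by rw [if_pos hv]
    rw [h3] at h2
    refine (h1.mul h2).congr_fun fun v => ?_
    by_cases hv : v ∈ S
    · rw [if_pos hv, if_pos hv, inv_mul_cancel₀ (fac_ne V v hs)]
    · rw [if_neg hv, if_neg hv, mul_one]
  have key : ∀ s : ℂ, 3 / 2 < s.re →
      LS W s * ∏ v ∈ S, fac W v s = LS W' s * ∏ v ∈ S, fac W' v s := by
    intro s hs
    refine (hK hW hs).unique ((hK hW' hs).congr_fun fun v => ?_)
    by_cases hv : v ∈ S
    · rw [if_pos hv, if_pos hv]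
    · rw [if_neg hv, if_neg hv, fac_good hd hW (hSm v hv), fac_good hd hW' (hSm v hv)]
  obtain ⟨f, hf, hf'⟩ := h
  refine ⟨fun s => f s * (∏ v ∈ S, fac W v s) ^ n * ((∏ v ∈ S, fac W' v s) ^ n)⁻¹, ?_,
    fun s hs => ?_⟩
  · exact (hf.fun_mul ((MeromorphicOn.fun_prod fun v _ => fac_mero W v Ω).fun_zpow n)).fun_mul
      ((MeromorphicOn.fun_prod fun v _ => fac_mero W' v Ω).fun_zpow n).fun_inv
  · have n3 : ∏ v ∈ S, fac W' v s ≠ 0 := Finset.prod_ne_zero_iff.2 fun v _ => fac_ne W' v hs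
    simp only
    rw [hf' s hs, ← mul_zpow, key s hs, mul_zpow, mul_assoc, mul_inv_cancel₀ (zpow_ne_zero n n3),
      mul_one]

theorem exists_prime {E : WeierstrassCurve K} (hE : E.IsElliptic)
    {W : HeightOneSpectrum (𝓞 K) → WeierstrassCurve (𝓞 K)} (hW : ∀ v, IsMinAt E v (W v)) {Ω : Set ℂ}
    (h : ¬ Cont W Ω) : ∃ ℓ : ℕ, ℓ.Prime ∧ ∀ n : ℤ, Pw W Ω n → (ℓ : ℤ) ∣ n := by
  classical
  let D : AddSubgroup ℤ :=
    { carrier := {n | Pw W Ω n}
      zero_mem' := ⟨fun _ => 1, MeromorphicOn.const 1, fun s _ => by rw [zpow_zero]⟩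
      add_mem' := by
        rintro a b ⟨f, hf, hf'⟩ ⟨g, hg, hg'⟩
        exact ⟨fun s => f s * g s, hf.fun_mul hg, fun s hs => by
          show f s * g s = _
          rw [hf' s hs, hg' s hs, zpow_add₀ (hasProd_LS hE hW hs).2]⟩
      neg_mem' := by
        rintro a ⟨f, hf, hf'⟩
        exact ⟨fun s => (f s)⁻¹, hf.fun_inv, fun s hs => by
          show (f s)⁻¹ = _
          rw [hf' s hs, zpow_neg]⟩ }
  obtain ⟨d, hd⟩ := Int.subgroup_cyclic D
  have h1 : d.natAbs ≠ 1 := by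
    intro h1
    apply h
    have h2 : (1 : ℤ) ∈ D := by
      rw [hd, AddSubgroup.mem_closure_singleton]
      rcases Int.natAbs_eq_iff.1 h1 with h3 | h3
      · exact ⟨1, by rw [h3]; simp⟩
      · exact ⟨-1, by rw [h3]; simp⟩
    obtain ⟨f, hf, hf'⟩ := h2
    exact ⟨f, hf, fun s hs => by rw [hf' s hs, zpow_one]⟩
  refine ⟨d.natAbs.minFac, Nat.minFac_prime h1, fun n hn => ?_⟩
  have h2 : n ∈ D := hn
  rw [hd, AddSubgroup.mem_closure_singleton] at h2
  obtain ⟨k, rfl⟩ := h2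
  have h3 : ((d.natAbs.minFac : ℕ) : ℤ) ∣ d := Int.natCast_dvd.2 (Nat.minFac_dvd _)
  rw [smul_eq_mul]
  exact h3.mul_left k

variable {M : Type} [Field M] [NumberField M] [Algebra K M] [IsGalois K M]
  (Fam : Subgroup (M ≃ₐ[K] M) → Type) [∀ i, Field (Fam i)] [∀ i, NumberField (Fam i)]
  [∀ i, Algebra K (Fam i)] [∀ i, Algebra (Fam i) M] [∀ i, IsScalarTower K (Fam i) M]

theorem bad_exists (hfix : ∀ H, FixedBy (Fam H) H) {E : WeierstrassCurve K} (hE : E.IsElliptic)
    {Ω : Set ℂ} {W : HeightOneSpectrum (𝓞 K) → WeierstrassCurve (𝓞 K)}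
    (hW : ∀ v, IsMinAt E v (W v)) {𝒬 : Subgroup (M ≃ₐ[K] M) → Prop} {n : ℤ}
    (hn : (fun _ => n) ∈ AA 𝒬) (hD : ¬ Pw W Ω n) :
    ∃ H, 𝒬 H ∧ ¬ Continues (Fam H) (E.map (algebraMap K (Fam H))) Ω := by
  classical
  have hfd : FiniteDimensional K M := Module.Finite.of_restrictScalars_finite ℚ K M
  have := Fintype.ofFinite (Subgroup (M ≃ₐ[K] M))
  by_contra hcon
  push Not at hcon
  obtain ⟨a, ha1, ha2⟩ := coeff_of_mem hn
  have hex : ∀ (H : Subgroup (M ≃ₐ[K] M)) (v : HeightOneSpectrum (𝓞 (Fam H))),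
      ∃ V, IsMinAt (E.map (algebraMap K (Fam H))) v V := fun H v => exists_min _ inferInstance v
  choose WF hWF using hex
  apply hD
  exact rel_global' (F := Fam) (H := fun H => H) (a := a) (n := n) ⟨hfix, fun x => ha2 x⟩ hE hW hWF
    fun H h => hcon H (ha1 H h) (WF H) (hWF H)

end

section gal
variable {K M : Type} [Field K] [Field M] [Algebra K M]

/-- A group which is an extension of an `ℓ`-group by a cyclic group. -/
def IsQE (ℓ : ℕ) (G : Type) [Group G] : Prop :=
  ∃ C : Subgroup G, ∃ _ : C.Normal, IsCyclic C ∧ IsPGroup ℓ (G ⧸ C)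

theorem isQE_of {F : Type} [Field F] [Algebra K F] [Algebra F M] [IsScalarTower K F M]
    {H : Subgroup (M ≃ₐ[K] M)} (hH : FixedBy F H) {ℓ : ℕ} (h : QE ℓ H) : IsQE ℓ (M ≃ₐ[F] M) := by
  obtain ⟨C, h1, h2, h3, h4⟩ := h
  let θ : (M ≃ₐ[F] M) →* (M ≃ₐ[K] M) :=
    { toFun := fun σ => AlgEquiv.restrictScalars K σ
      map_one' := rfl
      map_mul' := fun _ _ => rfl }
  have hθ : ∀ σ, θ σ ∈ H := by
    intro σ
    rw [hH]
    intro x
    exact σ.commutes x
  have hnorm : (C.comap θ).Normal := ⟨fun c hc σ => by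
    show θ (σ * c * σ⁻¹) ∈ C
    rw [map_mul, map_mul, map_inv]
    exact h3 _ (hθ σ) _ hc⟩
  refine ⟨C.comap θ, hnorm, ?_, ?_⟩
  · let f : C.comap θ →* C :=
      { toFun := fun x => ⟨θ x.1, x.2⟩
        map_one' := Subtype.ext (map_one θ)
        map_mul' := fun x y => Subtype.ext (map_mul θ _ _) }
    refine isCyclic_of_injective f fun x y hxy => ?_
    have h5 : θ x.1 = θ y.1 := congrArg Subtype.val hxy
    apply Subtype.ext
    ext z
    exact congrArg (fun τ : M ≃ₐ[K] M => τ z) h5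
  · intro x
    induction x using QuotientGroup.induction_on with
    | _ σ =>
      obtain ⟨k, hk⟩ := h4 _ (hθ σ)
      refine ⟨k, ?_⟩
      rw [← QuotientGroup.mk_pow, QuotientGroup.eq_one_iff]
      show θ (σ ^ ℓ ^ k) ∈ C
      rw [map_pow]
      exact hk

end gal

section main
variable {K : Type} [Field K] [NumberField K]

lemma fixedBy_fixedField {M : Type} [Field M] [NumberField M] [Algebra K M] [IsGalois K M]
    (H : Subgroup (M ≃ₐ[K] M)) : FixedBy (fixedField H) H := by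
  have hfd : FiniteDimensional K M := Module.Finite.of_restrictScalars_finite ℚ K M
  intro σ
  constructor
  · intro hσ x
    exact x.2 ⟨σ, hσ⟩
  · intro h
    rw [← IntermediateField.fixingSubgroup_fixedField H, IntermediateField.mem_fixingSubgroup_iff]
    intro x hx
    exact h ⟨x, hx⟩

/-- **The layers of a finite Galois extension.** -/
theorem layers {E : WeierstrassCurve K} (hE : E.IsElliptic)
    {Ω : Set ℂ} {W : HeightOneSpectrum (𝓞 K) → WeierstrassCurve (𝓞 K)}
    (hW : ∀ v, IsMinAt E v (W v)) {ℓ : ℕ} (hℓ : ℓ.Prime)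
    (hD : ∀ n : ℤ, Pw W Ω n → (ℓ : ℤ) ∣ n)
    (M : Type) [Field M] [NumberField M] [Algebra K M] [IsGalois K M] :
    ∃ F : IntermediateField K M, IsQE ℓ (M ≃ₐ[F] M) ∧
      ¬ Continues F (E.map (algebraMap K F)) Ω := by
  have hfd : FiniteDimensional K M := Module.Finite.of_restrictScalars_finite ℚ K M
  obtain ⟨n, hn1, hn2⟩ := solomon (G := M ≃ₐ[K] M) hℓ
  obtain ⟨H, h1, h2⟩ := bad_exists (K := K) (M := M) (fun H => fixedField H) fixedBy_fixedField hE hW
    hn2 fun h => hn1 (hD n h)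
  exact ⟨fixedField H, isQE_of (fixedBy_fixedField H) h1, h2⟩

/-- **The cyclic layers of a finite Galois extension.** -/
theorem cyclic_layers {E : WeierstrassCurve K} (hE : E.IsElliptic)
    {Ω : Set ℂ} {W : HeightOneSpectrum (𝓞 K) → WeierstrassCurve (𝓞 K)}
    (hW : ∀ v, IsMinAt E v (W v)) (hD : ∀ n : ℤ, n ≠ 0 → ¬ Pw W Ω n)
    (M : Type) [Field M] [NumberField M] [Algebra K M] [IsGalois K M] :
    ∃ F : IntermediateField K M, IsCyclic (M ≃ₐ[F] M) ∧
      ¬ Continues F (E.map (algebraMap K F)) Ω := by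
  have hfd : FiniteDimensional K M := Module.Finite.of_restrictScalars_finite ℚ K M
  obtain ⟨n, hn1, hn2⟩ := artin (G := M ≃ₐ[K] M)
  obtain ⟨H, h1, h2⟩ := bad_exists (K := K) (M := M) (fun H => fixedField H) fixedBy_fixedField hE hW
    hn2 (hD n hn1)
  exact ⟨fixedField H, isCyclic_of_injective (IntermediateField.subgroupEquivAlgEquiv H).symm.toMonoidHom
    (IntermediateField.subgroupEquivAlgEquiv H).symm.injective, h2⟩

/-- an elementary abelian group of order `p ^ 2` is not `ℓ`-quasi-elementary, `ℓ ≠ p` -/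
lemma ne_top {G : Type} [Group G] [Finite G] {p ℓ : ℕ} (hp : p.Prime) (hℓ : ℓ.Prime) (hne : p ≠ ℓ)
    (hc : Nat.card G = p ^ 2) (he : ∀ g : G, g ^ p = 1) {H : Subgroup G} (hH : QE ℓ H) :
    H ≠ ⊤ := by
  rintro rfl
  obtain ⟨C, h1, h2, h3, h4⟩ := hH
  have h5 : C = ⊤ := by
    rw [eq_top_iff]
    intro g _
    obtain ⟨k, hk⟩ := h4 g trivial
    exact mem_of_pow hk (he g) (Nat.Coprime.pow_left k ((Nat.coprime_primes hℓ hp).2 hne.symm))
  rw [h5] at h2
  have h6 : IsCyclic G := isCyclic_of_surjective (Subgroup.topEquiv (G := G)) Subgroup.topEquiv.surjective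
  obtain ⟨g, hg⟩ := h6.exists_generator
  have h7 : orderOf g = Nat.card G := orderOf_eq_card_of_forall_mem_zpowers hg
  have h8 := orderOf_dvd_of_pow_eq_one (he g)
  rw [h7, hc] at h8
  have h9 := Nat.le_of_dvd hp.pos h8
  have := hp.one_lt
  nlinarith

/-- the bad extensions -/
def Bad (E : WeierstrassCurve K) (Ω : Set ℂ) (F : IntermediateField K (AlgebraicClosure K)) : Prop :=
  ∃ _ : NumberField F, ¬ Continues F (E.map (algebraMap K F)) Ω

theorem disjoint_ext {E : WeierstrassCurve K} (hE : E.IsElliptic)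
    {Ω : Set ℂ} {W : HeightOneSpectrum (𝓞 K) → WeierstrassCurve (𝓞 K)}
    (hW : ∀ v, IsMinAt E v (W v)) {ℓ : ℕ} (hℓ : ℓ.Prime)
    (hD : ∀ n : ℤ, Pw W Ω n → (ℓ : ℤ) ∣ n) {p : ℕ} (hp : p.Prime) (hne : p ≠ ℓ)
    (B : IntermediateField K (AlgebraicClosure K)) [FiniteDimensional K B] :
    ∃ F : IntermediateField K (AlgebraicClosure K), F ⊓ B = ⊥ ∧ IsGalois K F ∧
      (Module.finrank K F = p ∨ Module.finrank K F = p ^ 2) ∧ (∀ σ : F ≃ₐ[K] F, σ ^ p = 1) ∧
      (∃ (n : ℕ) (ζ : AlgebraicClosure K), 0 < n ∧ ζ ^ n = 1 ∧ F ≤ K⟮ζ⟯) ∧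
      Bad E Ω F := by
  classical
  obtain ⟨M, hM1, hM2, hM3, hM4, hM5, m, ζ, hm, hζ, hM6⟩ := exists_ext K hp B
  have hnM : NumberField M := NumberField.of_module_finite K M
  let Fam : Subgroup (M ≃ₐ[K] M) → IntermediateField K (AlgebraicClosure K) :=
    fun H => lift (fixedField H)
  have hfdF : ∀ H, FiniteDimensional K (Fam H) := fun H =>
    Module.Finite.equiv (liftAlgEquiv (fixedField H)).toLinearEquiv
  have hnF : ∀ H, NumberField (Fam H) := fun H => NumberField.of_module_finite K (Fam H)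
  let halg : ∀ H, Algebra (Fam H) M := fun H =>
    (IntermediateField.inclusion (lift_le (fixedField H))).toAlgebra
  have htow : ∀ H, IsScalarTower K (Fam H) M := fun H =>
    IsScalarTower.of_algebraMap_eq fun x => rfl
  have hfix : ∀ H, FixedBy (Fam H) H := by
    intro H σ
    rw [fixedBy_fixedField H σ]
    constructor
    · intro h x
      have h1 := h ((liftAlgEquiv (fixedField H)).symm x)
      exact h1
    · intro h x
      exact h ((liftAlgEquiv (fixedField H)) x)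
  obtain ⟨n, hn1, hn2⟩ := solomon (G := M ≃ₐ[K] M) hℓ
  obtain ⟨H, h1, h2⟩ := bad_exists (K := K) (M := M) (fun H => Fam H) hfix hE hW hn2
    fun h => hn1 (hD n h)
  have hHt : H ≠ ⊤ := ne_top hp hℓ hne hM3 hM4 h1
  have hrank : Module.finrank K (fixedField H) * Nat.card H = p ^ 2 := by
    rw [← IntermediateField.finrank_fixedField_eq_card H, Module.finrank_mul_finrank K (fixedField H) M,
      ← IsGalois.card_aut_eq_finrank, hM3]
  have hHc : Nat.card H = 1 ∨ Nat.card H = p := by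
    have h3 : Nat.card H ∣ p ^ 2 := Dvd.intro_left _ hrank
    obtain ⟨i, hi, h4⟩ := (Nat.dvd_prime_pow hp).1 h3
    interval_cases i
    · left; simpa using h4
    · right; simpa using h4
    · exact (hHt (Subgroup.eq_top_of_card_eq H (h4.trans hM3.symm))).elim
  have hFr : Module.finrank K (fixedField H) = p ∨ Module.finrank K (fixedField H) = p ^ 2 := by
    rcases hHc with h3 | h3
    · right; rw [h3, mul_one] at hrank; exact hrank
    · left
      rw [h3] at hrank
      exact Nat.eq_of_mul_eq_mul_right hp.pos (by rw [hrank]; ring)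
  have : Fact p.Prime := ⟨hp⟩
  have hcomm : ∀ a b : M ≃ₐ[K] M, a * b = b * a :=
    fun a b => (IsPGroup.commGroupOfCardEqPrimeSq (G := M ≃ₐ[K] M) hM3).mul_comm a b
  have hHn : H.Normal := ⟨fun a ha g => by rw [hcomm g a, mul_assoc, mul_inv_cancel, mul_one]; exact ha⟩
  have hgF : IsGalois K (fixedField H) := IsGalois.of_fixedField_normal_subgroup H
  have hexp : ∀ σ : fixedField H ≃ₐ[K] fixedField H, σ ^ p = 1 := by
    intro σ
    obtain ⟨g, rfl⟩ := AlgEquiv.restrictNormalHom_surjective (F := K) (K₁ := fixedField H) M σ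
    rw [← map_pow, hM4, map_one]
  have hle2 : Fam H ≤ M := lift_le _
  refine ⟨Fam H, ?_, IsGalois.of_algEquiv (liftAlgEquiv (fixedField H)), ?_, ?_,
    ⟨m, ζ, hm, hζ, hle2.trans hM6⟩, hnF H, h2⟩
  · rw [eq_bot_iff, ← hM5]
    exact inf_le_inf_right B hle2
  · rw [← (liftAlgEquiv (fixedField H)).toLinearEquiv.finrank_eq]
    exact hFr
  · intro σ
    have h3 := hexp ((AlgEquiv.autCongr (liftAlgEquiv (fixedField H))).symm σ)
    rw [← map_pow] at h3
    exact (MulEquiv.map_eq_one_iff _).1 h3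

/-- **The exponent.**  The powers of the `L`-series which have a continuation are the multiples of
a number `d`. -/
theorem exists_exponent {E : WeierstrassCurve K} (hE : E.IsElliptic)
    {W : HeightOneSpectrum (𝓞 K) → WeierstrassCurve (𝓞 K)} (hW : ∀ v, IsMinAt E v (W v))
    (Ω : Set ℂ) : ∃ d : ℕ, ∀ n : ℤ, Pw W Ω n ↔ (d : ℤ) ∣ n := by
  classical
  let D : AddSubgroup ℤ :=
    { carrier := {n | Pw W Ω n}
      zero_mem' := ⟨fun _ => 1, MeromorphicOn.const 1, fun s _ => by rw [zpow_zero]⟩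
      add_mem' := by
        rintro a b ⟨f, hf, hf'⟩ ⟨g, hg, hg'⟩
        exact ⟨fun s => f s * g s, hf.fun_mul hg, fun s hs => by
          show f s * g s = _
          rw [hf' s hs, hg' s hs, zpow_add₀ (hasProd_LS hE hW hs).2]⟩
      neg_mem' := by
        rintro a ⟨f, hf, hf'⟩
        exact ⟨fun s => (f s)⁻¹, hf.fun_inv, fun s hs => by
          show (f s)⁻¹ = _
          rw [hf' s hs, zpow_neg]⟩ }
  obtain ⟨d, hd⟩ := Int.subgroup_cyclic D
  refine ⟨d.natAbs, fun n => ?_⟩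
  have h1 : Pw W Ω n ↔ n ∈ D := Iff.rfl
  rw [h1, hd, AddSubgroup.mem_closure_singleton, Int.natAbs_dvd]
  constructor
  · rintro ⟨k, rfl⟩
    rw [smul_eq_mul]
    exact Dvd.intro_left k rfl
  · rintro ⟨k, rfl⟩
    exact ⟨k, by rw [smul_eq_mul, mul_comm]⟩

/-- a number which is not a power of `p` has a prime factor different from `p` -/
lemma exists_other {p d : ℕ} (hp : p.Prime) (h : ∀ k : ℕ, d ≠ p ^ k) :
    ∃ ℓ : ℕ, ℓ.Prime ∧ p ≠ ℓ ∧ ℓ ∣ d := by
  rcases Nat.eq_zero_or_pos d with hd | hd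
  · obtain ⟨ℓ, h1, h2⟩ := Nat.exists_infinite_primes (p + 1)
    exact ⟨ℓ, h2, by omega, hd ▸ dvd_zero ℓ⟩
  · by_contra hcon
    push Not at hcon
    refine h _ (Nat.eq_prime_pow_of_unique_prime_dvd hd.ne' (p := p) fun {q} hq hqd => ?_)
    by_contra hne
    exact hcon q hq (Ne.symm hne) hqd

end main

end Pool.Agent.HW484
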