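import Pool.Agent.HW484.P3

/-!
# Quasi-elementary subgroups and permutation characters
-/

set_option autoImplicit false
set_option linter.unusedSectionVars false

namespace Pool.Agent.HW484

section group
variable {G : Type} [Group G] [Finite G]

/-- `H` has a cyclic normal subgroup `C` such that `H / C` is an `ℓ`-group -/
def QE (ℓ : ℕ) (H : Subgroup G) : Prop :=
  ∃ C : Subgroup G, C ≤ H ∧ IsCyclic C ∧ (∀ h ∈ H, ∀ c ∈ C, h * c * h⁻¹ ∈ C) ∧
    ∀ h ∈ H, ∃ k : ℕ, h ^ (ℓ ^ k) ∈ C

lemma QE.mono {ℓ : ℕ} {H H' : Subgroup G} (h : QE ℓ H) (hle : H' ≤ H) : QE ℓ H' := by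
  obtain ⟨C, h1, h2, h3, h4⟩ := h
  refine ⟨C ⊓ H', inf_le_right, Subgroup.isCyclic_of_le inf_le_left, ?_, ?_⟩
  · rintro h hh c ⟨hc1, hc2⟩
    exact ⟨h3 h (hle hh) c hc1, H'.mul_mem (H'.mul_mem hh hc2) (H'.inv_mem hh)⟩
  · intro h hh
    obtain ⟨k, hk⟩ := h4 h (hle hh)
    exact ⟨k, hk, H'.pow_mem hh _⟩

lemma QE.comap {ℓ : ℕ} {H : Subgroup G} (h : QE ℓ H) (e : G ≃* G) : QE ℓ (H.comap e.toMonoidHom) := by
  obtain ⟨C, h1, h2, h3, h4⟩ := h
  refine ⟨C.comap e.toMonoidHom, Subgroup.comap_mono h1, ?_, ?_, ?_⟩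
  · have e' : C.comap e.toMonoidHom ≃* C :=
      { toFun := fun x => ⟨e x.1, x.2⟩
        invFun := fun x => ⟨e.symm x.1, by
          show e (e.symm x.1) ∈ C
          rw [e.apply_symm_apply]
          exact x.2⟩
        left_inv := fun x => Subtype.ext (e.symm_apply_apply _)
        right_inv := fun x => Subtype.ext (e.apply_symm_apply _)
        map_mul' := fun x y => Subtype.ext (map_mul e _ _) }
    exact isCyclic_of_surjective e'.symm e'.symm.surjective
  · intro h hh c hc
    show e (h * c * h⁻¹) ∈ C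
    rw [map_mul, map_mul, map_inv]
    exact h3 _ hh _ hc
  · intro h hh
    obtain ⟨k, hk⟩ := h4 _ hh
    refine ⟨k, ?_⟩
    show e (h ^ ℓ ^ k) ∈ C
    rw [map_pow]
    exact hk

/-- number of fixed points -/
noncomputable def fx (X : Type) [MulAction G X] (g : G) : ℕ := Nat.card {x : X // g • x = x}

/-- a family of subgroups closed under subgroups and automorphisms -/
structure ClFam (𝒬 : Subgroup G → Prop) : Prop where
  mono : ∀ H H' : Subgroup G, 𝒬 H → H' ≤ H → 𝒬 H'
  comap : ∀ (H : Subgroup G) (e : G ≃* G), 𝒬 H → 𝒬 (H.comap e.toMonoidHom)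

lemma clFam_QE (ℓ : ℕ) : ClFam (fun H : Subgroup G => QE ℓ H) :=
  ⟨fun _ _ h hle => h.mono hle, fun _ e h => h.comap e⟩

lemma clFam_cyclic : ClFam (fun H : Subgroup G => IsCyclic H) := by
  refine ⟨fun H H' h hle => Subgroup.isCyclic_of_le hle, fun H e h => ?_⟩
  let f : H.comap e.toMonoidHom →* H :=
    { toFun := fun x => ⟨e x.1, x.2⟩
      map_one' := Subtype.ext (map_one e)
      map_mul' := fun x y => Subtype.ext (map_mul e _ _) }
  refine isCyclic_of_injective f fun x y hxy => ?_
  have h5 : e x.1 = e y.1 := congrArg Subtype.val hxy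
  exact Subtype.ext (e.injective h5)

/-- integral combinations of the characters of `G / H` for `H` in the family -/
def AA (𝒬 : Subgroup G → Prop) : AddSubgroup (G → ℤ) :=
  AddSubgroup.closure {f | ∃ H : Subgroup G, 𝒬 H ∧ f = fun g => (ind H g : ℤ)}

lemma fx_orbit (X : Type) [MulAction G X] (x : X) (g : G) :
    ind (MulAction.stabilizer G x) g = Nat.card {y : MulAction.orbit G x // g • y = y} := by
  refine Nat.card_congr (Equiv.subtypeEquiv (MulAction.orbitEquivQuotientStabilizer G x).symm ?_)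
  intro y
  induction y using QuotientGroup.induction_on with
  | _ a =>
    rw [MulAction.Quotient.smul_mk, smul_eq_mul, Subtype.ext_iff, MulAction.orbit.coe_smul,
      MulAction.orbitEquivQuotientStabilizer_symm_apply, QuotientGroup.eq,
      MulAction.mem_stabilizer_iff, mul_smul, inv_smul_eq_iff, mul_smul, eq_comm]

theorem fx_mem {𝒬 : Subgroup G → Prop} (X : Type) [MulAction G X] [Finite X]
    (hX : ∀ x : X, 𝒬 (MulAction.stabilizer G x)) :
    (fun g => (fx X g : ℤ)) ∈ AA 𝒬 := by
  classical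
  have := Fintype.ofFinite (MulAction.orbitRel.Quotient G X)
  have h1 : (fun g : G => (fx X g : ℤ)) = ∑ ω : MulAction.orbitRel.Quotient G X,
      fun g => (ind (MulAction.stabilizer G ω.out) g : ℤ) := by
    funext g
    rw [Finset.sum_apply]
    unfold fx
    let e : {x : X // g • x = x} ≃ Σ ω : MulAction.orbitRel.Quotient G X,
        {y : MulAction.orbit G ω.out // g • y = y} :=
      { toFun := fun x => ⟨Quotient.mk _ x.1, ⟨⟨x.1, by
            have := Quotient.mk_out (s := MulAction.orbitRel G X) x.1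
            exact (MulAction.orbitRel G X).symm this⟩, Subtype.ext x.2⟩⟩
        invFun := fun y => ⟨y.2.1.1, congrArg Subtype.val y.2.2⟩
        left_inv := fun x => rfl
        right_inv := fun y => by
          obtain ⟨ω, ⟨⟨x, hx⟩, hy⟩⟩ := y
          have h2 : (Quotient.mk _ x : MulAction.orbitRel.Quotient G X) = ω := by
            rw [← Quotient.out_eq ω]
            exact Quotient.sound hx
          subst h2
          rfl }
    rw [Nat.card_congr e, Nat.card_sigma]
    push_cast
    refine Finset.sum_congr rfl fun ω _ => ?_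
    rw [fx_orbit]
  rw [h1]
  refine AddSubgroup.sum_mem _ fun ω _ => ?_
  exact AddSubgroup.subset_closure ⟨_, hX _, rfl⟩

end group

end Pool.Agent.HW484
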