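import Pool.Agent.HW484.S1

/-!
# Solomon's induction theorem, localised at a prime
-/

set_option autoImplicit false
set_option linter.unusedSectionVars false

namespace Pool.Agent.HW484

open Polynomial

section group
variable {G : Type} [Group G] [Finite G]

lemma stab_mem {𝒬 : Subgroup G → Prop} (h𝒬 : ClFam 𝒬) {H : Subgroup G} (hH : 𝒬 H) (y : G ⧸ H) :
    𝒬 (MulAction.stabilizer G y) := by
  induction y using QuotientGroup.induction_on with
  | _ a =>
    refine h𝒬.mono _ _ (h𝒬.comap H (MulAut.conj a⁻¹) hH) ?_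
    intro g hg
    rw [MulAction.mem_stabilizer_iff, MulAction.Quotient.smul_mk, smul_eq_mul, eq_comm,
      QuotientGroup.eq] at hg
    show MulAut.conj a⁻¹ g ∈ H
    rw [MulAut.conj_apply, inv_inv]
    rwa [← mul_assoc] at hg

lemma ind_mul_mem {𝒬 : Subgroup G → Prop} (h𝒬 : ClFam 𝒬) {H H' : Subgroup G} (hH : 𝒬 H) :
    (fun g => (ind H g : ℤ) * (ind H' g : ℤ)) ∈ AA 𝒬 := by
  have h1 : (fun g : G => (ind H g : ℤ) * (ind H' g : ℤ)) =
      fun g => (fx ((G ⧸ H) × (G ⧸ H')) g : ℤ) := by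
    funext g
    rw [← Nat.cast_mul]
    congr 1
    unfold ind fx
    rw [← Nat.card_prod]
    refine Nat.card_congr
      { toFun := fun y => ⟨(y.1.1, y.2.1), Prod.ext y.1.2 y.2.2⟩
        invFun := fun y => (⟨y.1.1, congrArg Prod.fst y.2⟩, ⟨y.1.2, congrArg Prod.snd y.2⟩)
        left_inv := fun y => rfl
        right_inv := fun y => rfl }
  rw [h1]
  refine fx_mem _ fun x => h𝒬.mono _ _ (stab_mem h𝒬 hH x.1) ?_
  intro g hg
  rw [MulAction.mem_stabilizer_iff] at hg ⊢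
  exact congrArg Prod.fst hg

lemma mul_mem_AA {𝒬 : Subgroup G → Prop} (h𝒬 : ClFam 𝒬) {f g : G → ℤ} (hf : f ∈ AA 𝒬)
    (hg : g ∈ AA 𝒬) : f * g ∈ AA 𝒬 := by
  refine AddSubgroup.closure_induction (p := fun f _ => f * g ∈ AA 𝒬) ?_ ?_ ?_ ?_ hf
  · rintro _ ⟨H, hH, rfl⟩
    refine AddSubgroup.closure_induction
      (p := fun g _ => (fun x => (ind H x : ℤ)) * g ∈ AA 𝒬) ?_ ?_ ?_ ?_ hg
    · rintro _ ⟨H', _, rfl⟩
      exact ind_mul_mem h𝒬 hH
    · rw [mul_zero]
      exact AddSubgroup.zero_mem _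
    · intro x y _ _ hx hy
      rw [mul_add]
      exact AddSubgroup.add_mem _ hx hy
    · intro x _ hx
      rw [mul_neg]
      exact AddSubgroup.neg_mem _ hx
  · rw [zero_mul]
    exact AddSubgroup.zero_mem _
  · intro x y _ _ hx hy
    rw [add_mul]
    exact AddSubgroup.add_mem _ hx hy
  · intro x _ hx
    rw [neg_mul]
    exact AddSubgroup.neg_mem _ hx

lemma pow_mem_AA {𝒬 : Subgroup G → Prop} (h𝒬 : ClFam 𝒬) {f : G → ℤ} (hf : f ∈ AA 𝒬) (n : ℕ) :
    f ^ (n + 1) ∈ AA 𝒬 := by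
  induction n with
  | zero => simpa using hf
  | succ n ih =>
    rw [pow_succ]
    exact mul_mem_AA h𝒬 ih hf

lemma poly_mem {𝒬 : Subgroup G → Prop} (h𝒬 : ClFam 𝒬) {f : G → ℤ} (hf : f ∈ AA 𝒬) (q : ℤ[X]) :
    (fun x => f x * q.eval (f x)) ∈ AA 𝒬 := by
  have h1 : (fun x => f x * q.eval (f x)) =
      ∑ i ∈ Finset.range (q.natDegree + 1), q.coeff i • f ^ (i + 1) := by
    funext x
    rw [Finset.sum_apply, eval_eq_sum_range, Finset.mul_sum]
    refine Finset.sum_congr rfl fun i _ => ?_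
    simp only [Pi.smul_apply, Pi.pow_apply, smul_eq_mul]
    ring
  rw [h1]
  exact AddSubgroup.sum_mem _ fun i _ => AddSubgroup.zsmul_mem _ (pow_mem_AA h𝒬 hf i) _

lemma mem_of_pow {h : G} {C : Subgroup G} {m b : ℕ} (hm : h ^ m ∈ C) (hb : h ^ b = 1)
    (hc : m.Coprime b) : h ∈ C := by
  have h1 : (1 : ℤ) = m * m.gcdA b + b * m.gcdB b := by
    rw [← Nat.gcd_eq_gcd_ab, hc]
    rfl
  have h2 : h = (h ^ m) ^ (m.gcdA b) := by
    conv_lhs => rw [← zpow_one h, h1, zpow_add, zpow_mul, zpow_mul, zpow_natCast, zpow_natCast, hb,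
      one_zpow, mul_one]
  rw [h2]
  exact C.zpow_mem hm _

theorem exists_H {ℓ : ℕ} (hℓ : ℓ.Prime) (g : G) :
    ∃ H : Subgroup G, QE ℓ H ∧ ¬ ℓ ∣ ind H g := by
  classical
  have : Fact ℓ.Prime := ⟨hℓ⟩
  obtain ⟨a, b, hb, hab⟩ := Nat.exists_eq_pow_mul_and_not_dvd (orderOf_pos g).ne' ℓ hℓ.ne_one
  have hcop : ∀ k, (ℓ ^ k).Coprime b := fun k =>
    Nat.Coprime.pow_left k ((Nat.Prime.coprime_iff_not_dvd hℓ).2 hb)
  set c0 := g ^ (ℓ ^ a) with hc0
  set u := g ^ b with hu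
  have hc0b : c0 ^ b = 1 := by
    rw [hc0, ← pow_mul, ← hab, pow_orderOf_eq_one]
  have hua : u ^ (ℓ ^ a) = 1 := by
    rw [hu, ← pow_mul, mul_comm, ← hab, pow_orderOf_eq_one]
  set C : Subgroup G := Subgroup.zpowers c0 with hC
  have hCb : ∀ c ∈ C, c ^ b = 1 := by
    intro c hc
    obtain ⟨t, rfl⟩ := Subgroup.mem_zpowers_iff.1 hc
    rw [← zpow_natCast, ← zpow_mul, mul_comm, zpow_mul, zpow_natCast, hc0b, one_zpow]
  set N : Subgroup G := Subgroup.normalizer (C : Set G) with hN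
  have hCN : C ≤ N := Subgroup.le_normalizer
  let S : Sylow ℓ N := default
  let CN : Subgroup N := C.subgroupOf N
  have hnorm : CN.Normal := inferInstance
  let HN : Subgroup N := CN ⊔ S
  let H : Subgroup G := HN.map N.subtype
  have hHN : H ≤ N := Subgroup.map_subtype_le HN
  have hCH : C ≤ H := fun c hc => ⟨⟨c, hCN hc⟩, (le_sup_left : CN ≤ HN) hc, rfl⟩
  have hHp : ∀ h ∈ H, ∃ k : ℕ, h ^ (ℓ ^ k) ∈ C := by
    rintro _ ⟨x, hx, rfl⟩
    obtain ⟨c, hc, s, hs, hcs⟩ := Subgroup.mem_sup_of_normal_left.1 hx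
    obtain ⟨k, hk⟩ := S.isPGroup' ⟨s, hs⟩
    have hk' : s ^ (ℓ ^ k) = 1 := congrArg Subtype.val hk
    refine ⟨k, ?_⟩
    have h1 : (QuotientGroup.mk (x ^ (ℓ ^ k)) : N ⧸ CN) = 1 := by
      have h2 : (QuotientGroup.mk x : N ⧸ CN) = QuotientGroup.mk s := by
        rw [← hcs, QuotientGroup.mk_mul, (QuotientGroup.eq_one_iff c).2 hc, one_mul]
      rw [QuotientGroup.mk_pow, h2, ← QuotientGroup.mk_pow, hk', QuotientGroup.mk_one]
    have h3 := (QuotientGroup.eq_one_iff _).1 h1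
    exact h3
  have hQE : QE ℓ H := by
    refine ⟨C, hCH, inferInstance, fun h hh c hc => ?_, hHp⟩
    exact (Subgroup.mem_normalizer_iff.1 (hHN hh) c).1 hc
  refine ⟨H, hQE, ?_⟩
  have hA : ∀ h ∈ H, h ^ b = 1 → h ∈ C := by
    intro h hh hhb
    obtain ⟨k, hk⟩ := hHp h hh
    exact mem_of_pow hk hhb (hcop k)
  -- the fixed points of `C`
  set Y : Set (G ⧸ H) := {y | ∀ c ∈ C, c • y = y} with hY
  have hYN : (QuotientGroup.mk : G → G ⧸ H) ⁻¹' Y = (N : Set G) := by
    ext x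
    have h0 : x ∈ (QuotientGroup.mk : G → G ⧸ H) ⁻¹' Y ↔ ∀ c ∈ C, x⁻¹ * c * x ∈ H := by
      show (∀ c ∈ C, c • (x : G ⧸ H) = (x : G ⧸ H)) ↔ _
      refine forall_congr' fun c => forall_congr' fun _ => ?_
      rw [MulAction.Quotient.smul_mk, smul_eq_mul, eq_comm, QuotientGroup.eq, mul_assoc]
    rw [h0]
    constructor
    · intro h
      have h1 : ∀ c ∈ C, x⁻¹ * c * x ∈ C := by
        intro c hc
        refine hA _ (h c hc) ?_
        have h2 : (x⁻¹ * c * x) ^ b = x⁻¹ * c ^ b * x := by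
          have := conj_pow (a := x⁻¹) (b := c) (i := b)
          rwa [inv_inv] at this
        rw [h2, hCb c hc]
        group
      show x ∈ N
      rw [hN, Subgroup.mem_normalizer_iff]
      intro c
      constructor
      · intro hc
        have hinj : Function.Injective (fun c : C => (⟨x⁻¹ * c.1 * x, h1 c.1 c.2⟩ : C)) := by
          intro c c' hcc
          have h3 : x⁻¹ * c.1 * x = x⁻¹ * c'.1 * x := congrArg Subtype.val hcc
          exact Subtype.ext (mul_left_cancel (mul_right_cancel h3))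
        obtain ⟨c', hc'⟩ := (Finite.injective_iff_surjective.1 hinj) ⟨c, hc⟩
        have h3 : x⁻¹ * c'.1 * x = c := congrArg Subtype.val hc'
        rw [← h3]
        have h4 : x * (x⁻¹ * c'.1 * x) * x⁻¹ = c'.1 := by group
        rw [h4]
        exact c'.2
      · intro hc
        have h3 := h1 _ hc
        have h4 : x⁻¹ * (x * c * x⁻¹) * x = c := by group
        rwa [h4] at h3
    · intro hx c hc
      have hx' : x⁻¹ ∈ N := N.inv_mem hx
      have h3 := (Subgroup.mem_normalizer_iff.1 hx' c).1 hc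
      rw [inv_inv] at h3
      exact hCH h3
  have hcardN : Nat.card N = Nat.card H * Nat.card Y := by
    have h1 : Nat.card N = Nat.card ((QuotientGroup.mk : G → G ⧸ H) ⁻¹' Y) := by
      rw [hYN]
      rfl
    rw [h1, Nat.card_congr (QuotientGroup.preimageMkEquivSubgroupProdSet H Y), Nat.card_prod]
  have hcardY : Nat.card Y = HN.index := by
    have h1 : Nat.card H = Nat.card HN :=
      (Nat.card_congr (HN.equivMapOfInjective N.subtype N.subtype_injective).toEquiv).symm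
    have h2 := HN.card_mul_index
    rw [hcardN, h1] at h2
    exact (Nat.eq_of_mul_eq_mul_left Nat.card_pos h2).symm
  have hndvd : ¬ ℓ ∣ Nat.card Y := by
    rw [hcardY]
    intro h
    exact S.not_dvd_index (h.trans (Subgroup.index_dvd_of_le (le_sup_right : (S : Subgroup N) ≤ HN)))
  -- the action of `u`
  have hcomm : ∀ z ∈ Subgroup.zpowers u, ∀ c ∈ C, c * z = z * c := by
    rintro _ ⟨i, rfl⟩ _ ⟨j, rfl⟩
    simp only [hu, hc0]
    rw [← zpow_natCast, ← zpow_natCast, ← zpow_mul, ← zpow_mul]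
    exact (Commute.refl g).zpow_zpow _ _
  letI act : MulAction (Subgroup.zpowers u) Y :=
    { smul := fun z y => ⟨z.1 • y.1, fun c hc => by
        rw [← mul_smul, hcomm z.1 z.2 c hc, mul_smul, y.2 c hc]⟩
      one_smul := fun y => Subtype.ext (one_smul G y.1)
      mul_smul := fun z z' y => Subtype.ext (mul_smul z.1 z'.1 y.1) }
  have hpg : IsPGroup ℓ (Subgroup.zpowers u) := by
    rintro ⟨_, ⟨i, rfl⟩⟩
    refine ⟨a, Subtype.ext ?_⟩
    show (u ^ i) ^ ℓ ^ a = 1
    rw [← zpow_natCast, ← zpow_mul, mul_comm, zpow_mul, zpow_natCast, hua, one_zpow]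
  have hmod := hpg.card_modEq_card_fixedPoints Y
  have hfix : Nat.card (MulAction.fixedPoints (Subgroup.zpowers u) Y) = ind H g := by
    unfold ind
    refine Nat.card_congr
      { toFun := fun y => ⟨y.1.1, ?_⟩
        invFun := fun y => ⟨⟨y.1, fun c hc => ?_⟩, fun z => Subtype.ext ?_⟩
        left_inv := fun y => rfl
        right_inv := fun y => rfl }
    · have h1 : u • y.1.1 = y.1.1 :=
        congrArg Subtype.val (y.2 ⟨u, Subgroup.mem_zpowers u⟩)
      have h2 : c0 • y.1.1 = y.1.1 := y.1.2 c0 (Subgroup.mem_zpowers c0)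
      have h3 : g ∈ MulAction.stabilizer G y.1.1 := by
        have h4 : (1 : ℤ) = ((ℓ ^ a : ℕ) : ℤ) * (ℓ ^ a).gcdA b + b * (ℓ ^ a).gcdB b := by
          rw [← Nat.gcd_eq_gcd_ab, hcop a]
          rfl
        have h5 : g = c0 ^ ((ℓ ^ a).gcdA b) * u ^ ((ℓ ^ a).gcdB b) := by
          conv_lhs => rw [← zpow_one g, h4, zpow_add, zpow_mul, zpow_mul, zpow_natCast, zpow_natCast]
        rw [h5]
        exact Subgroup.mul_mem _ (Subgroup.zpow_mem _ (MulAction.mem_stabilizer_iff.2 h2) _)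
          (Subgroup.zpow_mem _ (MulAction.mem_stabilizer_iff.2 h1) _)
      exact MulAction.mem_stabilizer_iff.1 h3
    · have h3 : g ∈ MulAction.stabilizer G y.1 := MulAction.mem_stabilizer_iff.2 y.2
      have h4 : C ≤ MulAction.stabilizer G y.1 := by
        rw [hC, Subgroup.zpowers_le]
        exact Subgroup.pow_mem _ h3 _
      exact MulAction.mem_stabilizer_iff.1 (h4 hc)
    · have h3 : g ∈ MulAction.stabilizer G y.1 := MulAction.mem_stabilizer_iff.2 y.2
      have h4 : Subgroup.zpowers u ≤ MulAction.stabilizer G y.1 := by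
        rw [Subgroup.zpowers_le]
        exact Subgroup.pow_mem _ h3 _
      exact MulAction.mem_stabilizer_iff.1 (h4 z.2)
  rw [hfix] at hmod
  intro h
  exact hndvd ((hmod.dvd_iff dvd_rfl).2 h)

/-- an integral combination with all values prime to a given integer gives a constant one -/
lemma const_mem {𝒬 : Subgroup G → Prop} (h𝒬 : ClFam 𝒬) {F : G → ℤ} (hF1 : F ∈ AA 𝒬) :
    ∃ n : ℤ, (fun _ => n) ∈ AA 𝒬 ∧ ∃ s : Finset ℤ, (∀ c ∈ s, ∃ x, F x = c) ∧ n = -∏ c ∈ s, -c := by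
  classical
  have := Fintype.ofFinite G
  set R : ℤ[X] := ∏ c ∈ Finset.univ.image F, (X - C c) with hR
  have hR0 : ∀ x, R.eval (F x) = 0 := by
    intro x
    rw [hR, eval_prod]
    refine Finset.prod_eq_zero (Finset.mem_image_of_mem F (Finset.mem_univ x)) ?_
    simp
  have hRc : R.coeff 0 = ∏ c ∈ Finset.univ.image F, -c := by
    rw [coeff_zero_eq_eval_zero, hR, eval_prod]
    refine Finset.prod_congr rfl fun c _ => ?_
    rw [eval_sub, eval_X, eval_C, zero_sub]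
  refine ⟨-R.coeff 0, ?_, Finset.univ.image F, fun c hc => ?_, by rw [hRc]⟩
  · have h1 : (fun _ : G => -R.coeff 0) = fun x => F x * R.divX.eval (F x) := by
      funext x
      have h2 := congrArg (fun q : ℤ[X] => q.eval (F x)) R.divX_mul_X_add
      simp only [eval_add, eval_mul, eval_X, eval_C] at h2
      rw [hR0] at h2
      linarith
    rw [h1]
    exact poly_mem h𝒬 hF1 _
  · obtain ⟨x, _, hx⟩ := Finset.mem_image.1 hc
    exact ⟨x, hx⟩

/-- **Solomon's induction theorem at the prime `ℓ`.** -/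
theorem solomon {ℓ : ℕ} (hℓ : ℓ.Prime) :
    ∃ n : ℤ, ¬ (ℓ : ℤ) ∣ n ∧ (fun _ => n) ∈ AA (fun H : Subgroup G => QE ℓ H) := by
  classical
  have := Fintype.ofFinite G
  have : Fact ℓ.Prime := ⟨hℓ⟩
  have hcl := clFam_QE (G := G) ℓ
  have hex : ∀ g : G, ∃ f ∈ AA (fun H : Subgroup G => QE ℓ H), ¬ (ℓ : ℤ) ∣ f g := by
    intro g
    obtain ⟨H, h1, h2⟩ := exists_H hℓ g
    exact ⟨_, AddSubgroup.subset_closure ⟨H, h1, rfl⟩, by exact_mod_cast h2⟩
  choose f hf1 hf2 using hex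
  have hprod : ∀ s : Finset G, ∃ b ∈ AA (fun H : Subgroup G => QE ℓ H),
      ∀ x, ∏ g ∈ s, (1 - f g x ^ (ℓ - 1)) = 1 - b x := by
    intro s
    induction s using Finset.induction_on with
    | empty => exact ⟨0, AddSubgroup.zero_mem _, fun x => by simp⟩
    | insert g s hg ih =>
      obtain ⟨b, hb1, hb2⟩ := ih
      have h1 : f g ^ (ℓ - 1) ∈ AA (fun H : Subgroup G => QE ℓ H) := by
        have h2 : ℓ - 1 = (ℓ - 2) + 1 := by have := hℓ.two_le; omega
        rw [h2]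
        exact pow_mem_AA hcl (hf1 g) _
      refine ⟨f g ^ (ℓ - 1) + b - f g ^ (ℓ - 1) * b,
        AddSubgroup.sub_mem _ (AddSubgroup.add_mem _ h1 hb1) (mul_mem_AA hcl h1 hb1), fun x => ?_⟩
      rw [Finset.prod_insert hg, hb2]
      simp only [Pi.sub_apply, Pi.add_apply, Pi.mul_apply, Pi.pow_apply]
      ring
  obtain ⟨F, hF1, hF2⟩ := hprod Finset.univ
  have hFl : ∀ x, ¬ (ℓ : ℤ) ∣ F x := by
    intro x h
    have h1 : (ℓ : ℤ) ∣ 1 - f x x ^ (ℓ - 1) := by
      have h2 : IsCoprime (f x x) (ℓ : ℤ) := by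
        rw [isCoprime_comm]
        exact (Nat.prime_iff_prime_int.1 hℓ).coprime_iff_not_dvd.2 (hf2 x)
      exact (Int.ModEq.pow_card_sub_one_eq_one hℓ h2).dvd
    have h2 : (ℓ : ℤ) ∣ 1 - F x := by
      rw [← hF2 x]
      exact h1.trans (Finset.dvd_prod_of_mem (fun g => 1 - f g x ^ (ℓ - 1)) (Finset.mem_univ x))
    have h3 := dvd_add h2 h
    rw [sub_add_cancel] at h3
    exact (Nat.prime_iff_prime_int.1 hℓ).not_dvd_one h3
  obtain ⟨n, hn, s, hs, hns⟩ := const_mem hcl hF1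
  refine ⟨n, ?_, hn⟩
  rw [hns, dvd_neg]
  intro h
  obtain ⟨c, hc, h1⟩ := ((Nat.prime_iff_prime_int.1 hℓ).dvd_finsetProd_iff _).1 h
  obtain ⟨x, rfl⟩ := hs c hc
  rw [dvd_neg] at h1
  exact hFl x h1

/-- **Artin's induction theorem.** -/
theorem artin : ∃ n : ℤ, n ≠ 0 ∧ (fun _ => n) ∈ AA (fun H : Subgroup G => IsCyclic H) := by
  classical
  have := Fintype.ofFinite G
  set F : G → ℤ := ∑ g : G, fun x => (ind (Subgroup.zpowers g) x : ℤ) with hF
  have hF1 : F ∈ AA (fun H : Subgroup G => IsCyclic H) :=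
    AddSubgroup.sum_mem _ fun g _ => AddSubgroup.subset_closure ⟨_, inferInstance, rfl⟩
  have hF2 : ∀ x, F x ≠ 0 := by
    intro x
    have h1 : (0 : ℤ) < (ind (Subgroup.zpowers x) x : ℤ) := by
      have : Nonempty {y : G ⧸ Subgroup.zpowers x // x • y = y} := ⟨⟨((1 : G) : G ⧸ _), by
        rw [MulAction.Quotient.smul_mk, smul_eq_mul, mul_one, eq_comm, QuotientGroup.eq, inv_one,
          one_mul]
        exact Subgroup.mem_zpowers x⟩⟩
      have h2 : 0 < ind (Subgroup.zpowers x) x := Nat.card_pos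
      exact_mod_cast h2
    have h2 : (ind (Subgroup.zpowers x) x : ℤ) ≤ F x := by
      rw [hF, Finset.sum_apply]
      exact Finset.single_le_sum (f := fun g => (ind (Subgroup.zpowers g) x : ℤ))
        (fun g _ => Int.natCast_nonneg _) (Finset.mem_univ x)
    linarith
  obtain ⟨n, hn, s, hs, hns⟩ := const_mem clFam_cyclic hF1
  refine ⟨n, ?_, hn⟩
  rw [hns, neg_ne_zero, Finset.prod_ne_zero_iff]
  intro c hc
  obtain ⟨x, rfl⟩ := hs c hc
  exact neg_ne_zero.2 (hF2 x)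

/-- the coefficients of a combination -/
theorem coeff_of_mem {𝒬 : Subgroup G → Prop} {f : G → ℤ} (hf : f ∈ AA 𝒬) :
    ∃ a : Subgroup G → ℤ, (∀ H, a H ≠ 0 → 𝒬 H) ∧
      ∀ [Fintype (Subgroup G)], ∀ x : G, ∑ H, a H * (ind H x : ℤ) = f x := by
  classical
  refine AddSubgroup.closure_induction (p := fun f _ => ∃ a : Subgroup G → ℤ,
    (∀ H, a H ≠ 0 → 𝒬 H) ∧ ∀ [Fintype (Subgroup G)], ∀ x : G, ∑ H, a H * (ind H x : ℤ) = f x)
    ?_ ?_ ?_ ?_ hf
  · rintro _ ⟨H, hH, rfl⟩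
    refine ⟨fun H' => if H' = H then 1 else 0, fun H' h => ?_, fun x => ?_⟩
    · have : H' = H := by
        by_contra hne
        simp [hne] at h
      rw [this]
      exact hH
    · simp
  · exact ⟨fun _ => 0, fun H h => (h rfl).elim, fun x => by simp⟩
  · rintro f g _ _ ⟨a, ha1, ha2⟩ ⟨b, hb1, hb2⟩
    refine ⟨fun H => a H + b H, fun H h => ?_, fun x => ?_⟩
    · by_cases h0 : a H = 0
      · refine hb1 H fun h' => h ?_
        simp only [h0, h', add_zero]
      · exact ha1 H h0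
    · rw [Pi.add_apply, ← ha2 x, ← hb2 x, ← Finset.sum_add_distrib]
      exact Finset.sum_congr rfl fun H _ => by ring
  · rintro f _ ⟨a, ha1, ha2⟩
    refine ⟨fun H => -a H, fun H h => ha1 H (neg_ne_zero.1 h), fun x => ?_⟩
    rw [Pi.neg_apply, ← ha2 x, ← Finset.sum_neg_distrib]
    exact Finset.sum_congr rfl fun H _ => by ring

end group

end Pool.Agent.HW484
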