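import Pool.Agent.HW484.T

/-!
# Relations between Euler products over the subfields of a Galois extension: general Euler products
-/

set_option autoImplicit false
set_option linter.unusedSectionVars false

namespace Pool.Agent.HW484.V

open NumberField IsDedekindDomain IntermediateField Filter
open Pool.Agent.H921R2.TatePole (nm two_le_nm nm_summable)

section euler
variable {F : Type} [Field F] [NumberField F]

/-- the inverses of Euler factors of an Euler product which converges for `Re s > σ` -/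
structure IsED (σ : ℝ) (g : HeightOneSpectrum (𝓞 F) → ℂ → ℂ) : Prop where
  ne : ∀ w s, σ < s.re → g w s ≠ 0
  mero : ∀ w (Ω : Set ℂ), MeromorphicOn (g w) Ω
  summ : ∀ s : ℂ, σ < s.re → Summable fun w => g w s - 1

/-- the Euler product -/
noncomputable def LG (g : HeightOneSpectrum (𝓞 F) → ℂ → ℂ) (s : ℂ) : ℂ := ∏' w, (g w s)⁻¹

variable {σ : ℝ} {g : HeightOneSpectrum (𝓞 F) → ℂ → ℂ}

theorem hasProd_LG (h : IsED σ g) {s : ℂ} (hs : σ < s.re) :
    HasProd (fun v => (g v s)⁻¹) (LG g s) ∧ LG g s ≠ 0 := by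
  have h1 := h.summ s hs
  have e : ∀ v, g v s = 1 + (g v s - 1) := fun v => by ring
  have h1n : Summable fun v => ‖g v s - 1‖ := h1.norm
  have h2 : Multipliable fun v => g v s := by
    have := multipliable_one_add_of_summable h1n
    refine this.congr fun v => (e v).symm
  have h3 : ∏' v, g v s ≠ 0 := by
    have := tprod_one_add_ne_zero_of_summable (f := fun v => g v s - 1)
      (fun v => by rw [← e]; exact h.ne v s hs) h1n
    rwa [tprod_congr fun v => (e v).symm] at this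
  have h4 := h2.hasProd.inv₀ h3
  unfold LG
  rw [h4.tprod_eq]
  exact ⟨h4, inv_ne_zero h3⟩

variable {K : Type} [Field K] [NumberField K] [Algebra K F]

/-- the product of the Euler factors over a place of `K` -/
noncomputable def GV (g : HeightOneSpectrum (𝓞 F) → ℂ → ℂ) (s : ℂ)
    (v : HeightOneSpectrum (𝓞 K)) : ℂ :=
  ∏ w : {w : HeightOneSpectrum (𝓞 F) // dn K w = v}, (g w.1 s)⁻¹

/-- the product of the inverses of the Euler factors over a place of `K` -/
noncomputable def HV (g : HeightOneSpectrum (𝓞 F) → ℂ → ℂ) (s : ℂ)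
    (v : HeightOneSpectrum (𝓞 K)) : ℂ :=
  ∏ w : {w : HeightOneSpectrum (𝓞 F) // dn K w = v}, g w.1 s

lemma HV_ne (h : IsED σ g) {s : ℂ} (hs : σ < s.re) (v : HeightOneSpectrum (𝓞 K)) :
    HV g s v ≠ 0 := Finset.prod_ne_zero_iff.2 fun w _ => h.ne w.1 s hs

lemma GV_HV (h : IsED σ g) {s : ℂ} (hs : σ < s.re) (v : HeightOneSpectrum (𝓞 K)) :
    GV g s v * HV g s v = 1 := by
  unfold GV HV
  rw [← Finset.prod_mul_distrib]
  exact Finset.prod_eq_one fun w _ => inv_mul_cancel₀ (h.ne w.1 s hs)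

lemma HV_mero (h : IsED σ g) (v : HeightOneSpectrum (𝓞 K)) (Ω : Set ℂ) :
    MeromorphicOn (fun s => HV g s v) Ω := by
  unfold HV
  exact MeromorphicOn.fun_prod fun w _ => h.mero w.1 Ω

open Classical in
theorem hasProd_modV (h : IsED σ g) {s : ℂ} (hs : σ < s.re)
    (S : Finset (HeightOneSpectrum (𝓞 K))) :
    HasProd (fun v : HeightOneSpectrum (𝓞 K) => if v ∈ S then 1 else GV g s v)
      (LG g s * ∏ v ∈ S, HV g s v) := by
  have h1 : HasProd (fun v : HeightOneSpectrum (𝓞 K) => GV g s v) (LG g s) := by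
    have h2 : HasProd ((fun w => (g w s)⁻¹) ∘
        (Equiv.sigmaFiberEquiv (dn K : HeightOneSpectrum (𝓞 F) → _))) (LG g s) :=
      (Equiv.hasProd_iff _).2 (hasProd_LG h hs).1
    refine h2.sigma fun v => ?_
    exact hasProd_fintype _
  have h2 : HasProd (fun v : HeightOneSpectrum (𝓞 K) => if v ∈ S then HV g s v else 1)
      (∏ v ∈ S, if v ∈ S then HV g s v else 1) := by
    refine hasProd_prod_of_ne_finset_one fun v hv => ?_
    rw [if_neg hv]
  have h3 : (∏ v ∈ S, if v ∈ S then HV g s v else 1) = ∏ v ∈ S, HV g s v :=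
    Finset.prod_congr rfl fun v hv => by rw [if_pos hv]
  rw [h3] at h2
  refine (h1.mul h2).congr_fun fun v => ?_
  by_cases hv : v ∈ S
  · rw [if_pos hv, if_pos hv, GV_HV h hs v]
  · rw [if_neg hv, if_neg hv, mul_one]

end euler

section relation
variable {K M : Type} [Field K] [NumberField K] [Field M] [NumberField M] [Algebra K M] [IsGalois K M]
  {ι : Type} [Fintype ι] {F : ι → Type} [∀ i, Field (F i)] [∀ i, NumberField (F i)]
  [∀ i, Algebra K (F i)] [∀ i, Algebra (F i) M] [∀ i, IsScalarTower K (F i) M]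

theorem rel_localV {H : ι → Subgroup (M ≃ₐ[K] M)} {a : ι → ℤ} {n : ℤ} (h : Rel F H a n)
    {gF : ∀ i, HeightOneSpectrum (𝓞 (F i)) → ℂ → ℂ}
    {v : HeightOneSpectrum (𝓞 K)} (hun : Unram K M v) {s : ℂ} {y : ℕ → ℂ} (hy0 : ∀ m, y m ≠ 0)
    (hy : ∀ (m : ℕ) (i : ι) (w : HeightOneSpectrum (𝓞 (F i))), dn K w = v → nm w = nm v ^ m →
      (gF i w s)⁻¹ = y m) :
    ∏ i, GV (gF i) s v ^ a i = y 1 ^ n := by
  classical
  -- a bound for the degrees
  obtain ⟨B, hB2, hB⟩ : ∃ B : ℕ, 2 ≤ B ∧ ∀ (i : ι) (w : {w : HeightOneSpectrum (𝓞 (F i)) // dn K w = v}),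
      Nat.log (nm v) (nm w.1) < B := by
    refine ⟨(Finset.univ.sup fun i : ι => Finset.univ.sup
      fun w : {w : HeightOneSpectrum (𝓞 (F i)) // dn K w = v} => Nat.log (nm v) (nm w.1)) + 2,
      by omega, fun i w => ?_⟩
    have h1 := Finset.le_sup (f := fun w : {w : HeightOneSpectrum (𝓞 (F i)) // dn K w = v} =>
      Nat.log (nm v) (nm w.1)) (Finset.mem_univ w)
    have h2 := Finset.le_sup (f := fun i : ι => Finset.univ.sup
      fun w : {w : HeightOneSpectrum (𝓞 (F i)) // dn K w = v} => Nat.log (nm v) (nm w.1))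
      (Finset.mem_univ i)
    exact lt_of_le_of_lt (h1.trans h2) (by omega)
  have hlog : ∀ m, Nat.log (nm v) (nm v ^ m) = m := fun m => Nat.log_pow (two_le v) m
  have hGG : ∀ i, GV (gF i) s v = ∏ m ∈ Finset.range B, y m ^ cn (F i) v m := by
    intro i
    unfold GV
    rw [← Finset.prod_fiberwise_of_maps_to (s := Finset.univ) (t := Finset.range B)
      (g := fun w : {w : HeightOneSpectrum (𝓞 (F i)) // dn K w = v} => Nat.log (nm v) (nm w.1))
      (fun w _ => Finset.mem_range.2 (hB i w))]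
    refine Finset.prod_congr rfl fun m _ => ?_
    have h1 : ∀ w : {w : HeightOneSpectrum (𝓞 (F i)) // dn K w = v},
        Nat.log (nm v) (nm w.1) = m ↔ nm w.1 = nm v ^ m := by
      intro w
      obtain ⟨j, _, hj⟩ := exists_deg w.2
      rw [hj, hlog]
      exact ⟨fun h => by rw [h], fun h => Nat.pow_right_injective (two_le v) h⟩
    rw [Finset.prod_congr rfl (g := fun _ => y m)]
    · rw [Finset.prod_const]
      congr 1
      rw [cn, Nat.card_eq_fintype_card, Fintype.card_subtype]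
      congr 1
      ext w
      simp only [Finset.mem_filter, Finset.mem_univ, true_and]
      exact h1 w
    · intro w hw
      rw [Finset.mem_filter] at hw
      exact hy m i w.1 w.2 ((h1 w).1 hw.2)
  have h1 : ∏ i, GV (gF i) s v ^ a i = ∏ m ∈ Finset.range B, y m ^ ∑ i, a i * (cn (F i) v m : ℤ) := by
    rw [Finset.prod_congr rfl fun i _ => by rw [hGG i, ← Finset.prod_zpow], Finset.prod_comm]
    refine Finset.prod_congr rfl fun m _ => ?_
    rw [← prod_zpow_sum _ (hy0 m)]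
    refine Finset.prod_congr rfl fun i _ => ?_
    rw [← zpow_natCast, ← zpow_mul, mul_comm]
  rw [h1]
  have h2 : ∀ m ∈ Finset.range B, y m ^ ∑ i, a i * (cn (F i) v m : ℤ) = if m = 1 then y 1 ^ n else 1 := by
    intro m _
    rcases Nat.eq_zero_or_pos m with h0 | h0
    · subst h0
      have h3 : ∀ i, cn (F i) v 0 = 0 := by
        intro i
        rw [cn, Nat.card_eq_zero]
        left
        refine ⟨fun w => ?_⟩
        have h4 : nm w.1.1 = 1 := w.2.trans (pow_zero _)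
        have := two_le_nm w.1.1
        omega
      rw [Finset.sum_eq_zero fun i _ => by rw [h3 i]; simp, zpow_zero, if_neg (by norm_num)]
    · rw [sum_cn h hun h0]
      by_cases hm1 : m = 1
      · rw [if_pos hm1, if_pos hm1, hm1]
      · rw [if_neg hm1, if_neg hm1, zpow_zero]
  rw [Finset.prod_congr rfl h2, Finset.prod_ite_eq', if_pos (Finset.mem_range.2 (by omega))]

theorem rel_globalV {H : ι → Subgroup (M ≃ₐ[K] M)} {a : ι → ℤ} {n : ℤ} (h : Rel F H a n)
    {σ : ℝ} {Ω : Set ℂ} {gK : HeightOneSpectrum (𝓞 K) → ℂ → ℂ} (hK : IsED σ gK)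
    {gF : ∀ i, HeightOneSpectrum (𝓞 (F i)) → ℂ → ℂ} (hF : ∀ i, IsED σ (gF i))
    (hcomp : {v : HeightOneSpectrum (𝓞 K) | ¬ ∀ s : ℂ, σ < s.re → ∃ y : ℕ → ℂ, (∀ m, y m ≠ 0) ∧
      y 1 = (gK v s)⁻¹ ∧ ∀ (m : ℕ) (i : ι) (w : HeightOneSpectrum (𝓞 (F i))), dn K w = v →
        nm w = nm v ^ m → (gF i w s)⁻¹ = y m}.Finite)
    (hc : ∀ i, a i ≠ 0 → ∃ f : ℂ → ℂ, MeromorphicOn f Ω ∧ ∀ s : ℂ, σ < s.re → f s = LG (gF i) s) :
    ∃ f : ℂ → ℂ, MeromorphicOn f Ω ∧ ∀ s : ℂ, σ < s.re → f s = LG gK s ^ n := by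
  classical
  have hfin := hcomp.union (finite_ram K M)
  set S := hfin.toFinset with hS
  have hSm : ∀ v, v ∉ S → (∀ s : ℂ, σ < s.re → ∃ y : ℕ → ℂ, (∀ m, y m ≠ 0) ∧
      y 1 = (gK v s)⁻¹ ∧ ∀ (m : ℕ) (i : ι) (w : HeightOneSpectrum (𝓞 (F i))), dn K w = v →
        nm w = nm v ^ m → (gF i w s)⁻¹ = y m) ∧ Unram K M v := by
    intro v hv
    rw [hS, Set.Finite.mem_toFinset, Set.mem_union, not_or] at hv
    obtain ⟨h1, h2⟩ := hv
    have h2' : ¬ ¬ Unram K M v := h2
    exact ⟨not_not.1 h1, not_not.1 h2'⟩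
  have hex : ∀ i, ∃ f : ℂ → ℂ, MeromorphicOn f Ω ∧
      (a i ≠ 0 → ∀ s : ℂ, σ < s.re → f s = LG (gF i) s) := by
    intro i
    by_cases ha : a i = 0
    · exact ⟨fun _ => 1, MeromorphicOn.const 1, fun h => (h ha).elim⟩
    · obtain ⟨f, h1, h2⟩ := hc i ha
      exact ⟨f, h1, fun _ => h2⟩
  choose fF hfF hfF' using hex
  have key : ∀ s : ℂ, σ < s.re →
      ∏ i, (LG (gF i) s * ∏ v ∈ S, HV (gF i) s v) ^ a i = (LG gK s * ∏ v ∈ S, gK v s) ^ n := by
    intro s hs
    have n1 : LG gK s ≠ 0 := (hasProd_LG hK hs).2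
    have n3 : ∏ v ∈ S, gK v s ≠ 0 := Finset.prod_ne_zero_iff.2 fun v _ => hK.ne v s hs
    have hK' : HasProd (fun v : HeightOneSpectrum (𝓞 K) => if v ∈ S then 1 else (gK v s)⁻¹)
        (LG gK s * ∏ v ∈ S, gK v s) := by
      have h1 := (hasProd_LG hK hs).1
      have h2 : HasProd (fun v : HeightOneSpectrum (𝓞 K) => if v ∈ S then gK v s else 1)
          (∏ v ∈ S, if v ∈ S then gK v s else 1) := by
        refine hasProd_prod_of_ne_finset_one fun v hv => ?_
        rw [if_neg hv]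
      have h3 : (∏ v ∈ S, if v ∈ S then gK v s else 1) = ∏ v ∈ S, gK v s :=
        Finset.prod_congr rfl fun v hv => by rw [if_pos hv]
      rw [h3] at h2
      refine (h1.mul h2).congr_fun fun v => ?_
      by_cases hv : v ∈ S
      · rw [if_pos hv, if_pos hv, inv_mul_cancel₀ (hK.ne v s hs)]
      · rw [if_neg hv, if_neg hv, mul_one]
    have hKn := hasProd_zpow hK' (mul_ne_zero n1 n3) n
    have hFp := hasProd_prod (s := (Finset.univ : Finset ι)) fun i _ => by
      have n2 : ∏ v ∈ S, HV (gF i) s v ≠ 0 :=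
        Finset.prod_ne_zero_iff.2 fun v _ => HV_ne (hF i) hs v
      exact hasProd_zpow (hasProd_modV (K := K) (hF i) hs S)
        (mul_ne_zero (hasProd_LG (hF i) hs).2 n2) (a i)
    refine hFp.unique (hKn.congr_fun fun v => ?_)
    by_cases hv : v ∈ S
    · simp [hv]
    · obtain ⟨h1, h2⟩ := hSm v hv
      simp only [if_neg hv]
      obtain ⟨y, hy0, hy1, hy⟩ := h1 s hs
      rw [rel_localV h h2 hy0 hy, hy1]
  refine ⟨fun s => (∏ i, (fF i s * ∏ v ∈ S, HV (gF i) s v) ^ a i) *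
    ((∏ v ∈ S, gK v s) ^ n)⁻¹, ?_, fun s hs => ?_⟩
  · have m1 : MeromorphicOn (fun s => ∏ i, (fF i s * ∏ v ∈ S, HV (gF i) s v) ^ a i) Ω :=
      MeromorphicOn.fun_prod fun i _ => ((hfF i).fun_mul
        (MeromorphicOn.fun_prod fun v _ => HV_mero (hF i) v Ω)).fun_zpow (a i)
    have m3 : MeromorphicOn (fun s => ((∏ v ∈ S, gK v s) ^ n)⁻¹) Ω :=
      ((MeromorphicOn.fun_prod fun v _ => hK.mero v Ω).fun_zpow n).fun_inv
    exact m1.fun_mul m3
  · have h1 := key s hs
    have n3 : ∏ v ∈ S, gK v s ≠ 0 := Finset.prod_ne_zero_iff.2 fun v _ => hK.ne v s hs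
    have h2 : ∏ i, (fF i s * ∏ v ∈ S, HV (gF i) s v) ^ a i =
        ∏ i, (LG (gF i) s * ∏ v ∈ S, HV (gF i) s v) ^ a i := by
      refine Finset.prod_congr rfl fun i _ => ?_
      by_cases ha : a i = 0
      · rw [ha, zpow_zero, zpow_zero]
      · rw [hfF' i ha s hs]
    simp only
    rw [h2, h1, mul_zpow, mul_assoc, mul_inv_cancel₀ (zpow_ne_zero n n3), mul_one]

end relation

end Pool.Agent.HW484.V
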