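import Pool.Agent.HW484.V1

/-!
# Propagation of the failure of meromorphic continuation: general Euler products
-/

set_option autoImplicit false
set_option linter.unusedSectionVars false

namespace Pool.Agent.HW484.V

open NumberField IsDedekindDomain IntermediateField Filter
open Pool.Agent.H921R2.TatePole (nm two_le_nm nm_summable)

/-- A compatible family of Euler products over the finite extensions of `K`. -/
structure Sys (K : Type) [Field K] [NumberField K] (σ : ℝ) where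
  S : ∀ (F : Type) [Field F] [NumberField F] [Algebra K F],
    (HeightOneSpectrum (𝓞 F) → ℂ → ℂ) → Prop
  ed : ∀ (F : Type) [Field F] [NumberField F] [Algebra K F]
    (g : HeightOneSpectrum (𝓞 F) → ℂ → ℂ), S F g → IsED σ g
  ex : ∀ (F : Type) [Field F] [NumberField F] [Algebra K F], ∃ g, S F g
  y : HeightOneSpectrum (𝓞 K) → ℕ → ℂ → ℂ
  y_ne : ∀ v m (s : ℂ), σ < s.re → y v m s ≠ 0
  comp : ∀ (F : Type) [Field F] [NumberField F] [Algebra K F]
    (g : HeightOneSpectrum (𝓞 F) → ℂ → ℂ), S F g →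
    {v : HeightOneSpectrum (𝓞 K) | ¬ ∀ (w : HeightOneSpectrum (𝓞 F)) (m : ℕ), dn K w = v →
      nm w = nm v ^ m → ∀ s : ℂ, σ < s.re → (g w s)⁻¹ = y v m s}.Finite

/-- the `n`-th power has a continuation -/
def PwG {F : Type} [Field F] [NumberField F] (σ : ℝ) (g : HeightOneSpectrum (𝓞 F) → ℂ → ℂ)
    (Ω : Set ℂ) (n : ℤ) : Prop :=
  ∃ f : ℂ → ℂ, MeromorphicOn f Ω ∧ ∀ s : ℂ, σ < s.re → f s = LG g s ^ n

section
variable {K : Type} [Field K] [NumberField K] {σ : ℝ} (𝒮 : Sys K σ)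

/-- all systems over `F` have a continuation -/
def Sys.Cont (F : Type) [Field F] [NumberField F] [Algebra K F] (Ω : Set ℂ) : Prop :=
  ∀ g, 𝒮.S F g → ∃ f : ℂ → ℂ, MeromorphicOn f Ω ∧ ∀ s : ℂ, σ < s.re → f s = LG g s

variable {𝒮}

lemma comp_self {g : HeightOneSpectrum (𝓞 K) → ℂ → ℂ} (hg : 𝒮.S K g) :
    {v : HeightOneSpectrum (𝓞 K) | ¬ ∀ s : ℂ, σ < s.re → (g v s)⁻¹ = 𝒮.y v 1 s}.Finite := by
  refine (𝒮.comp K g hg).subset fun v hv h => hv fun s hs => ?_
  exact h v 1 (dn_self v) (pow_one _).symm s hs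

theorem pwg_indep {g g' : HeightOneSpectrum (𝓞 K) → ℂ → ℂ} (hg : 𝒮.S K g) (hg' : 𝒮.S K g')
    {Ω : Set ℂ} {n : ℤ} (h : PwG σ g Ω n) : PwG σ g' Ω n := by
  classical
  have hfin := (comp_self hg).union (comp_self hg')
  set S := hfin.toFinset with hS
  have hSm : ∀ v, v ∉ S → ∀ s : ℂ, σ < s.re → (g v s)⁻¹ = (g' v s)⁻¹ := by
    intro v hv s hs
    rw [hS, Set.Finite.mem_toFinset, Set.mem_union, not_or] at hv
    obtain ⟨h1, h2⟩ := hv
    rw [not_not.1 h1 s hs, not_not.1 h2 s hs]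
  have hK : ∀ {V : HeightOneSpectrum (𝓞 K) → ℂ → ℂ}, IsED σ V →
      ∀ {s : ℂ}, σ < s.re →
      HasProd (fun v : HeightOneSpectrum (𝓞 K) => if v ∈ S then 1 else (V v s)⁻¹)
        (LG V s * ∏ v ∈ S, V v s) := by
    intro V hV s hs
    have h1 := (hasProd_LG hV hs).1
    have h2 : HasProd (fun v : HeightOneSpectrum (𝓞 K) => if v ∈ S then V v s else 1)
        (∏ v ∈ S, if v ∈ S then V v s else 1) := by
      refine hasProd_prod_of_ne_finset_one fun v hv => ?_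
      rw [if_neg hv]
    have h3 : (∏ v ∈ S, if v ∈ S then V v s else 1) = ∏ v ∈ S, V v s :=
      Finset.prod_congr rfl fun v hv => by rw [if_pos hv]
    rw [h3] at h2
    refine (h1.mul h2).congr_fun fun v => ?_
    by_cases hv : v ∈ S
    · rw [if_pos hv, if_pos hv, inv_mul_cancel₀ (hV.ne v s hs)]
    · rw [if_neg hv, if_neg hv, mul_one]
  have e1 := 𝒮.ed K g hg
  have e2 := 𝒮.ed K g' hg'
  have key : ∀ s : ℂ, σ < s.re →
      LG g s * ∏ v ∈ S, g v s = LG g' s * ∏ v ∈ S, g' v s := by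
    intro s hs
    refine (hK e1 hs).unique ((hK e2 hs).congr_fun fun v => ?_)
    by_cases hv : v ∈ S
    · rw [if_pos hv, if_pos hv]
    · rw [if_neg hv, if_neg hv, hSm v hv s hs]
  obtain ⟨f, hf, hf'⟩ := h
  refine ⟨fun s => f s * (∏ v ∈ S, g v s) ^ n * ((∏ v ∈ S, g' v s) ^ n)⁻¹, ?_,
    fun s hs => ?_⟩
  · exact (hf.fun_mul ((MeromorphicOn.fun_prod fun v _ => e1.mero v Ω).fun_zpow n)).fun_mul
      ((MeromorphicOn.fun_prod fun v _ => e2.mero v Ω).fun_zpow n).fun_inv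
  · have n3 : ∏ v ∈ S, g' v s ≠ 0 := Finset.prod_ne_zero_iff.2 fun v _ => e2.ne v s hs
    simp only
    rw [hf' s hs, ← mul_zpow, key s hs, mul_zpow, mul_assoc, mul_inv_cancel₀ (zpow_ne_zero n n3),
      mul_one]

/-- **The exponent.** -/
theorem exists_exponentV {g : HeightOneSpectrum (𝓞 K) → ℂ → ℂ} (hg : IsED σ g) (Ω : Set ℂ) :
    ∃ d : ℕ, ∀ n : ℤ, PwG σ g Ω n ↔ (d : ℤ) ∣ n := by
  classical
  let D : AddSubgroup ℤ :=
    { carrier := {n | PwG σ g Ω n}
      zero_mem' := ⟨fun _ => 1, MeromorphicOn.const 1, fun s _ => by rw [zpow_zero]⟩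
      add_mem' := by
        rintro a b ⟨f, hf, hf'⟩ ⟨k, hk, hk'⟩
        exact ⟨fun s => f s * k s, hf.fun_mul hk, fun s hs => by
          show f s * k s = _
          rw [hf' s hs, hk' s hs, zpow_add₀ (hasProd_LG hg hs).2]⟩
      neg_mem' := by
        rintro a ⟨f, hf, hf'⟩
        exact ⟨fun s => (f s)⁻¹, hf.fun_inv, fun s hs => by
          show (f s)⁻¹ = _
          rw [hf' s hs, zpow_neg]⟩ }
  obtain ⟨d, hd⟩ := Int.subgroup_cyclic D
  refine ⟨d.natAbs, fun n => ?_⟩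
  have h1 : PwG σ g Ω n ↔ n ∈ D := Iff.rfl
  rw [h1, hd, AddSubgroup.mem_closure_singleton, Int.natAbs_dvd]
  constructor
  · rintro ⟨k, rfl⟩
    rw [smul_eq_mul]
    exact Dvd.intro_left k rfl
  · rintro ⟨k, rfl⟩
    exact ⟨k, by rw [smul_eq_mul, mul_comm]⟩

variable {M : Type} [Field M] [NumberField M] [Algebra K M] [IsGalois K M]
  (Fam : Subgroup (M ≃ₐ[K] M) → Type) [∀ i, Field (Fam i)] [∀ i, NumberField (Fam i)]
  [∀ i, Algebra K (Fam i)] [∀ i, Algebra (Fam i) M] [∀ i, IsScalarTower K (Fam i) M]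

theorem bad_existsV (hfix : ∀ H, FixedBy (Fam H) H) {Ω : Set ℂ}
    {g : HeightOneSpectrum (𝓞 K) → ℂ → ℂ} (hg : 𝒮.S K g)
    {𝒬 : Subgroup (M ≃ₐ[K] M) → Prop} {n : ℤ}
    (hn : (fun _ => n) ∈ AA 𝒬) (hD : ¬ PwG σ g Ω n) :
    ∃ H, 𝒬 H ∧ ¬ 𝒮.Cont (Fam H) Ω := by
  classical
  have hfd : FiniteDimensional K M := Module.Finite.of_restrictScalars_finite ℚ K M
  have := Fintype.ofFinite (Subgroup (M ≃ₐ[K] M))
  by_contra hcon
  push Not at hcon
  obtain ⟨a, ha1, ha2⟩ := coeff_of_mem hn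
  choose gF hgF using fun H => 𝒮.ex (Fam H)
  apply hD
  refine rel_globalV (F := Fam) (H := fun H => H) (a := a) (n := n) ⟨hfix, fun x => ha2 x⟩
    (𝒮.ed K g hg) (fun H => 𝒮.ed (Fam H) (gF H) (hgF H)) ?_
    fun H h => hcon H (ha1 H h) (gF H) (hgF H)
  have h1 := (comp_self hg).union (Set.finite_iUnion fun H => 𝒮.comp (Fam H) (gF H) (hgF H))
  refine h1.subset fun v hv => ?_
  by_contra hv2
  rw [Set.mem_union, Set.mem_iUnion, not_or, not_exists] at hv2
  obtain ⟨h2, h3⟩ := hv2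
  apply hv
  intro s hs
  refine ⟨fun m => 𝒮.y v m s, fun m => 𝒮.y_ne v m s hs, (not_not.1 h2 s hs).symm, ?_⟩
  intro m H w hw hm
  exact not_not.1 (h3 H) w m hw hm s hs

end

section main
variable {K : Type} [Field K] [NumberField K] {σ : ℝ} {𝒮 : Sys K σ}

/-- **The layers of a finite Galois extension.** -/
theorem layersV {Ω : Set ℂ} {g : HeightOneSpectrum (𝓞 K) → ℂ → ℂ} (hg : 𝒮.S K g)
    {ℓ : ℕ} (hℓ : ℓ.Prime) (hD : ∀ n : ℤ, PwG σ g Ω n → (ℓ : ℤ) ∣ n)
    (M : Type) [Field M] [NumberField M] [Algebra K M] [IsGalois K M] :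
    ∃ F : IntermediateField K M, IsQE ℓ (M ≃ₐ[F] M) ∧ ¬ 𝒮.Cont F Ω := by
  have hfd : FiniteDimensional K M := Module.Finite.of_restrictScalars_finite ℚ K M
  obtain ⟨n, hn1, hn2⟩ := solomon (G := M ≃ₐ[K] M) hℓ
  obtain ⟨H, h1, h2⟩ := bad_existsV (K := K) (M := M) (fun H => fixedField H) fixedBy_fixedField hg
    hn2 fun h => hn1 (hD n h)
  exact ⟨fixedField H, isQE_of (fixedBy_fixedField H) h1, h2⟩

/-- **The cyclic layers of a finite Galois extension.** -/
theorem cyclic_layersV {Ω : Set ℂ} {g : HeightOneSpectrum (𝓞 K) → ℂ → ℂ} (hg : 𝒮.S K g)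
    (hD : ∀ n : ℤ, n ≠ 0 → ¬ PwG σ g Ω n)
    (M : Type) [Field M] [NumberField M] [Algebra K M] [IsGalois K M] :
    ∃ F : IntermediateField K M, IsCyclic (M ≃ₐ[F] M) ∧ ¬ 𝒮.Cont F Ω := by
  have hfd : FiniteDimensional K M := Module.Finite.of_restrictScalars_finite ℚ K M
  obtain ⟨n, hn1, hn2⟩ := artin (G := M ≃ₐ[K] M)
  obtain ⟨H, h1, h2⟩ := bad_existsV (K := K) (M := M) (fun H => fixedField H) fixedBy_fixedField hg
    hn2 (hD n hn1)
  exact ⟨fixedField H, isCyclic_of_injective (IntermediateField.subgroupEquivAlgEquiv H).symm.toMonoidHom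
    (IntermediateField.subgroupEquivAlgEquiv H).symm.injective, h2⟩

theorem disjoint_extV {Ω : Set ℂ} {g : HeightOneSpectrum (𝓞 K) → ℂ → ℂ} (hg : 𝒮.S K g)
    {ℓ : ℕ} (hℓ : ℓ.Prime)
    (hD : ∀ n : ℤ, PwG σ g Ω n → (ℓ : ℤ) ∣ n) {p : ℕ} (hp : p.Prime) (hne : p ≠ ℓ)
    (B : IntermediateField K (AlgebraicClosure K)) [FiniteDimensional K B] :
    ∃ F : IntermediateField K (AlgebraicClosure K), F ⊓ B = ⊥ ∧ IsGalois K F ∧
      (Module.finrank K F = p ∨ Module.finrank K F = p ^ 2) ∧ (∀ σ : F ≃ₐ[K] F, σ ^ p = 1) ∧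
      (∃ (n : ℕ) (ζ : AlgebraicClosure K), 0 < n ∧ ζ ^ n = 1 ∧ F ≤ K⟮ζ⟯) ∧
      ∃ _ : NumberField F, ¬ 𝒮.Cont F Ω := by
  classical
  obtain ⟨M, hM1, hM2, hM3, hM4, hM5, m, ζ, hm, hζ, hM6⟩ := exists_ext K hp B
  have hnM : NumberField M := NumberField.of_module_finite K M
  let Fam : Subgroup (M ≃ₐ[K] M) → IntermediateField K (AlgebraicClosure K) :=
    fun H => lift (fixedField H)
  have hfdF : ∀ H, FiniteDimensional K (Fam H) := fun H =>
    Module.Finite.equiv (liftAlgEquiv (fixedField H)).toLinearEquiv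
  have hnF : ∀ H, NumberField (Fam H) := fun H => NumberField.of_module_finite K (Fam H)
  let halg : ∀ H, Algebra (Fam H) M := fun H =>
    (IntermediateField.inclusion (lift_le (fixedField H))).toAlgebra
  have htow : ∀ H, IsScalarTower K (Fam H) M := fun H =>
    IsScalarTower.of_algebraMap_eq fun x => rfl
  have hfix : ∀ H, FixedBy (Fam H) H := by
    intro H σ
    rw [fixedBy_fixedField H σ]
    constructor
    · intro h x
      have h1 := h ((liftAlgEquiv (fixedField H)).symm x)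
      exact h1
    · intro h x
      exact h ((liftAlgEquiv (fixedField H)) x)
  obtain ⟨n, hn1, hn2⟩ := solomon (G := M ≃ₐ[K] M) hℓ
  obtain ⟨H, h1, h2⟩ := bad_existsV (K := K) (M := M) (fun H => Fam H) hfix hg hn2
    fun h => hn1 (hD n h)
  have hHt : H ≠ ⊤ := ne_top hp hℓ hne hM3 hM4 h1
  have hrank : Module.finrank K (fixedField H) * Nat.card H = p ^ 2 := by
    rw [← IntermediateField.finrank_fixedField_eq_card H, Module.finrank_mul_finrank K (fixedField H) M,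
      ← IsGalois.card_aut_eq_finrank, hM3]
  have hHc : Nat.card H = 1 ∨ Nat.card H = p := by
    have h3 : Nat.card H ∣ p ^ 2 := Dvd.intro_left _ hrank
    obtain ⟨i, hi, h4⟩ := (Nat.dvd_prime_pow hp).1 h3
    interval_cases i
    · left; simpa using h4
    · right; simpa using h4
    · exact (hHt (Subgroup.eq_top_of_card_eq H (h4.trans hM3.symm))).elim
  have hFr : Module.finrank K (fixedField H) = p ∨ Module.finrank K (fixedField H) = p ^ 2 := by
    rcases hHc with h3 | h3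
    · right; rw [h3, mul_one] at hrank; exact hrank
    · left
      rw [h3] at hrank
      exact Nat.eq_of_mul_eq_mul_right hp.pos (by rw [hrank]; ring)
  have : Fact p.Prime := ⟨hp⟩
  have hcomm : ∀ a b : M ≃ₐ[K] M, a * b = b * a :=
    fun a b => (IsPGroup.commGroupOfCardEqPrimeSq (G := M ≃ₐ[K] M) hM3).mul_comm a b
  have hHn : H.Normal := ⟨fun a ha g => by rw [hcomm g a, mul_assoc, mul_inv_cancel, mul_one]; exact ha⟩
  have hgF : IsGalois K (fixedField H) := IsGalois.of_fixedField_normal_subgroup H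
  have hexp : ∀ σ : fixedField H ≃ₐ[K] fixedField H, σ ^ p = 1 := by
    intro σ
    obtain ⟨g, rfl⟩ := AlgEquiv.restrictNormalHom_surjective (F := K) (K₁ := fixedField H) M σ
    rw [← map_pow, hM4, map_one]
  have hle2 : Fam H ≤ M := lift_le _
  refine ⟨Fam H, ?_, IsGalois.of_algEquiv (liftAlgEquiv (fixedField H)), ?_, ?_,
    ⟨m, ζ, hm, hζ, hle2.trans hM6⟩, hnF H, h2⟩
  · rw [eq_bot_iff, ← hM5]
    exact inf_le_inf_right B hle2
  · rw [← (liftAlgEquiv (fixedField H)).toLinearEquiv.finrank_eq]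
    exact hFr
  · intro σ
    have h3 := hexp ((AlgEquiv.autCongr (liftAlgEquiv (fixedField H))).symm σ)
    rw [← map_pow] at h3
    exact (MulEquiv.map_eq_one_iff _).1 h3

end main

end Pool.Agent.HW484.V
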