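import Pool.Agent.HW484.V2
import Pool.Agent.TH958.BV.Defs
import Pool.Agent.TH958.BV.Weights

/-!
# The L-functions of projective varieties under base change
-/

set_option autoImplicit false
set_option linter.unusedSectionVars false

namespace Pool.Agent.HW484.V

open NumberField IsDedekindDomain Filter Polynomial
open Pool.Agent.H921R2.TatePole (nm two_le_nm nm_summable)
open Pool.Agent.TH958.BV (cone IsFrobenius weights_unique)

variable {n : ℕ}

section one
variable {K : Type} [Field K] [NumberField K]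

theorem exists_ext_field (v : HeightOneSpectrum (𝓞 K)) {e : ℕ} (he : 1 ≤ e) :
    ∃ (κ : Type) (_ : Field κ) (_ : Finite κ) (φ : 𝓞 K →+* κ), RingHom.ker φ = v.asIdeal ∧
      Nat.card κ = nm v ^ e := by
  obtain ⟨p, hp⟩ := CharP.exists (𝓞 K ⧸ v.asIdeal)
  have hpp : Fact p.Prime := ⟨CharP.char_is_prime (𝓞 K ⧸ v.asIdeal) p⟩
  have he0 : NeZero e := ⟨by omega⟩
  refine ⟨FiniteField.Extension (𝓞 K ⧸ v.asIdeal) p e, inferInstance, inferInstance,
    (algebraMap _ _).comp (Ideal.Quotient.mk v.asIdeal), ?_, ?_⟩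
  · ext x
    rw [RingHom.mem_ker, RingHom.comp_apply,
      map_eq_zero_iff _ (algebraMap (𝓞 K ⧸ v.asIdeal)
        (FiniteField.Extension (𝓞 K ⧸ v.asIdeal) p e)).injective, Ideal.Quotient.eq_zero_iff_mem]
  · rw [FiniteField.natCard_extension]
    rfl

lemma nm_pos' (v : HeightOneSpectrum (𝓞 K)) : (0 : ℝ) < nm v := by
  have := two_le_nm v
  exact_mod_cast (by omega : 0 < nm v)

theorem frob_unique {X : Set (MvPolynomial (Fin n) (𝓞 K))} {d i N N' : ℕ} (hi : i ≤ 2 * d)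
    {v : HeightOneSpectrum (𝓞 K)} {α : Fin N → ℂ} {α' : Fin N' → ℂ} (h : IsFrobenius X d i v α)
    (h' : IsFrobenius X d i v α') : Finset.univ.val.map α = Finset.univ.val.map α' := by
  obtain ⟨β, h1, h2, h3⟩ := h
  obtain ⟨β', h1', h2', h3'⟩ := h'
  rw [← h1, ← h1']
  have hq : (1 : ℝ) < nm v := by
    have := two_le_nm v
    exact_mod_cast (by omega : 1 < nm v)
  refine weights_unique (nm v : ℝ) hq (2 * d + 1) β β' h2 h2' (fun e he => ?_) (by omega)
  obtain ⟨κ, _, _, φ, hφ1, hφ2⟩ := exists_ext_field v he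
  have e1 := h3 κ φ e hφ1 hφ2
  have e2 := h3' κ φ e hφ1 hφ2
  rw [e1] at e2
  refine mul_left_cancel₀ ?_ e2
  have h4 : (1 : ℕ) < nm v ^ e := Nat.one_lt_pow (by omega) (by have := two_le_nm v; omega)
  have h5 : ((nm v : ℂ) ^ e) ≠ 1 := by exact_mod_cast h4.ne'
  exact sub_ne_zero.2 h5

lemma norm_frob {X : Set (MvPolynomial (Fin n) (𝓞 K))} {d i N : ℕ}
    {v : HeightOneSpectrum (𝓞 K)} {α : Fin N → ℂ} (h : IsFrobenius X d i v α) (j : Fin N) :
    ‖α j‖ = (nm v : ℝ) ^ ((i : ℝ) / 2) := by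
  obtain ⟨β, h1, h2, h3⟩ := h
  refine h2 i (α j) ?_
  rw [h1]
  exact Multiset.mem_map_of_mem _ (Finset.mem_univ_val j)

lemma prod_congr_multiset {N N' : ℕ} {α : Fin N → ℂ} {α' : Fin N' → ℂ}
    (h : Finset.univ.val.map α = Finset.univ.val.map α') (f : ℂ → ℂ) :
    ∏ j, f (α j) = ∏ j, f (α' j) := by
  have h1 : ∀ {L : ℕ} (γ : Fin L → ℂ), ∏ j, f (γ j) = ((Finset.univ.val.map γ).map f).prod := by
    intro L γ
    rw [Multiset.map_map]
    rfl
  rw [h1, h1, h]

end one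

section base
variable {K F : Type} [Field K] [NumberField K] [Field F] [NumberField F] [Algebra K F]

/-- base change -/
noncomputable def bc (F : Type) [Field F] [NumberField F] [Algebra K F]
    (X : Set (MvPolynomial (Fin n) (𝓞 K))) : Set (MvPolynomial (Fin n) (𝓞 F)) :=
  MvPolynomial.map (algebraMap (𝓞 K) (𝓞 F)) '' X

lemma cone_bc (X : Set (MvPolynomial (Fin n) (𝓞 K))) {κ : Type} [Field κ] (φ : 𝓞 F →+* κ) :
    cone (bc F X) φ = cone X (φ.comp (algebraMap (𝓞 K) (𝓞 F))) := by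
  unfold cone bc
  refine Nat.card_congr (Equiv.subtypeEquivRight fun u => and_congr_right fun _ => ?_)
  rw [Set.forall_mem_image]
  refine forall₂_congr fun f _ => ?_
  rw [MvPolynomial.eval₂_map]

theorem frob_base {X : Set (MvPolynomial (Fin n) (𝓞 K))} {d i N : ℕ}
    {v : HeightOneSpectrum (𝓞 K)} {w : HeightOneSpectrum (𝓞 F)} {m : ℕ} (hw : dn K w = v)
    (hm : nm w = nm v ^ m) {α : Fin N → ℂ} (h : IsFrobenius X d i v α) :
    IsFrobenius (bc F X) d i w (fun j => α j ^ m) := by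
  obtain ⟨β, h1, h2, h3⟩ := h
  refine ⟨fun k => (β k).map (fun z => z ^ m), ?_, ?_, ?_⟩
  · show (β i).map _ = _
    rw [h1, Multiset.map_map]
    rfl
  · intro k z hz
    obtain ⟨y, hy, rfl⟩ := Multiset.mem_map.1 hz
    rw [norm_pow, h2 k y hy]
    have h4 : (Ideal.absNorm w.asIdeal : ℝ) = (Ideal.absNorm v.asIdeal : ℝ) ^ m := by
      exact_mod_cast hm
    rw [h4, ← Real.rpow_natCast, ← Real.rpow_natCast, ← Real.rpow_mul (Nat.cast_nonneg _),
      ← Real.rpow_mul (Nat.cast_nonneg _), mul_comm]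
  · intro κ _ _ φ e hφ he
    have h4 : RingHom.ker (φ.comp (algebraMap (𝓞 K) (𝓞 F))) = v.asIdeal := by
      ext x
      rw [RingHom.mem_ker, RingHom.comp_apply, ← RingHom.mem_ker, hφ, ← hw]
      rfl
    have h5 : Nat.card κ = Ideal.absNorm v.asIdeal ^ (m * e) := by
      rw [he, pow_mul]
      congr 1
    have h6 := h3 κ (φ.comp (algebraMap (𝓞 K) (𝓞 F))) (m * e) h4 h5
    rw [cone_bc, h6]
    have h7 : (Ideal.absNorm w.asIdeal : ℂ) = (Ideal.absNorm v.asIdeal : ℂ) ^ m := by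
      exact_mod_cast hm
    rw [h7, ← pow_mul]
    congr 1
    refine Finset.sum_congr rfl fun k _ => ?_
    congr 2
    rw [Multiset.map_map]
    refine Multiset.map_congr rfl fun z _ => ?_
    show z ^ (m * e) = (z ^ m) ^ e
    rw [pow_mul]

end base

end Pool.Agent.HW484.V
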