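import Pool.Agent.HW484.V3

/-!
# The family of the L-functions of a projective variety over the extensions of its field of definition
-/

set_option autoImplicit false
set_option linter.unusedSectionVars false

namespace Pool.Agent.HW484.V

open NumberField IsDedekindDomain Filter Polynomial
open Pool.Agent.H921R2.TatePole (nm two_le_nm nm_summable)
open Pool.Agent.TH958.BV (cone IsFrobenius weights_unique)

variable {n : ℕ}

section one
variable {K : Type} [Field K] [NumberField K]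

/-- Euler factors of `L(H^i(X), s)`, arbitrary at finitely many primes, without poles in the half-plane
`Re s > i/2 + 1` -/
def IsEuler (X : Set (MvPolynomial (Fin n) (𝓞 K))) (d i N : ℕ)
    (B : HeightOneSpectrum (𝓞 K) → ℂ[X]) : Prop :=
  (∀ᶠ v in cofinite, ∃ α : Fin N → ℂ, IsFrobenius X d i v α ∧
    ∀ z : ℂ, (B v).eval z = ∏ j, (1 - α j * z)) ∧
  ∀ v (z : ℂ), ‖z‖ < (Ideal.absNorm v.asIdeal : ℝ) ^ (-((i : ℝ) / 2 + 1)) → (B v).eval z ≠ 0

/-- the inverse Euler factors as functions of `s` -/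
noncomputable def factor (B : HeightOneSpectrum (𝓞 K) → ℂ[X]) (v : HeightOneSpectrum (𝓞 K))
    (s : ℂ) : ℂ := (B v).eval ((Ideal.absNorm v.asIdeal : ℂ) ^ (-s))

lemma norm_cpow (v : HeightOneSpectrum (𝓞 K)) (s : ℂ) :
    ‖(Ideal.absNorm v.asIdeal : ℂ) ^ (-s)‖ = (nm v : ℝ) ^ (-s.re) := by
  have h2 := two_le_nm v
  have h3 : 0 < Ideal.absNorm v.asIdeal := by
    have : nm v = Ideal.absNorm v.asIdeal := rfl
    omega
  rw [Complex.norm_natCast_cpow_of_pos h3, Complex.neg_re]
  rfl

lemma factor_mero (B : HeightOneSpectrum (𝓞 K) → ℂ[X]) (v : HeightOneSpectrum (𝓞 K))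
    (Ω : Set ℂ) : MeromorphicOn (factor B v) Ω := by
  have hq0 : (Ideal.absNorm v.asIdeal : ℂ) ≠ 0 := by
    have := two_le_nm v
    have h1 : nm v = Ideal.absNorm v.asIdeal := rfl
    exact_mod_cast (by omega : Ideal.absNorm v.asIdeal ≠ 0)
  have hd : Differentiable ℂ (factor B v) := by
    unfold factor
    refine (B v).differentiable.comp ?_
    exact (differentiable_neg).const_cpow (Or.inl hq0)
  exact fun s _ => (hd.analyticAt s).meromorphicAt

theorem isED {X : Set (MvPolynomial (Fin n) (𝓞 K))} {d i N : ℕ}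
    {B : HeightOneSpectrum (𝓞 K) → ℂ[X]} (h : IsEuler X d i N B) :
    IsED ((i : ℝ) / 2 + 1) (factor B) := by
  refine ⟨fun w s hs => ?_, factor_mero B, fun s hs => ?_⟩
  · refine h.2 w _ ?_
    rw [norm_cpow]
    have h2 : (1 : ℝ) < nm w := by
      have := two_le_nm w
      exact_mod_cast (by omega : 1 < nm w)
    exact Real.rpow_lt_rpow_of_exponent_lt h2 (by linarith)
  · set t : ℝ := s.re - (i : ℝ) / 2 with ht
    have ht1 : 1 < t := by rw [ht]; linarith
    have hsum : Summable fun w : HeightOneSpectrum (𝓞 K) =>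
        (N * Real.exp N) * (nm w : ℝ) ^ (-t) := (nm_summable ht1).mul_left _
    refine Summable.of_norm_bounded_eventually hsum ?_
    filter_upwards [h.1] with w hw
    obtain ⟨α, hα, hB⟩ := hw
    have hq0 := nm_pos' w
    have hq1 : (1 : ℝ) ≤ nm w := by
      have := two_le_nm w
      exact_mod_cast (by omega : 1 ≤ nm w)
    have h1 : factor B w s - 1 = ∏ j, (1 + (-(α j * (Ideal.absNorm w.asIdeal : ℂ) ^ (-s)))) - 1 := by
      unfold factor
      rw [hB]
      simp only [sub_eq_add_neg]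
    rw [h1]
    refine (Finset.norm_prod_one_add_sub_one_le _ _).trans ?_
    have h2 : ∑ j : Fin N, ‖-(α j * (Ideal.absNorm w.asIdeal : ℂ) ^ (-s))‖ =
        N * (nm w : ℝ) ^ (-t) := by
      have h3 : ∀ j : Fin N, ‖-(α j * (Ideal.absNorm w.asIdeal : ℂ) ^ (-s))‖ =
          (nm w : ℝ) ^ (-t) := by
        intro j
        rw [norm_neg, norm_mul, norm_frob hα, norm_cpow, ← Real.rpow_add hq0]
        congr 1
        rw [ht]
        ring
      rw [Finset.sum_congr rfl fun j _ => h3 j, Finset.sum_const, Finset.card_univ,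
        Fintype.card_fin, nsmul_eq_mul]
    rw [h2]
    set x : ℝ := N * (nm w : ℝ) ^ (-t) with hx
    have hx0 : 0 ≤ x := by positivity
    have hxN : x ≤ N := by
      have h4 : (nm w : ℝ) ^ (-t) ≤ 1 := Real.rpow_le_one_of_one_le_of_nonpos hq1 (by linarith)
      calc x ≤ N * 1 := mul_le_mul_of_nonneg_left h4 (Nat.cast_nonneg _)
        _ = N := mul_one _
    have h5 : Real.exp x - 1 ≤ x * Real.exp x := by
      have h6 := Real.add_one_le_exp (-x)
      have h7 : Real.exp (-x) * Real.exp x = 1 := by rw [← Real.exp_add]; simp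
      have h8 := mul_le_mul_of_nonneg_right h6 (Real.exp_pos x).le
      rw [h7] at h8
      nlinarith
    calc Real.exp x - 1 ≤ x * Real.exp x := h5
      _ ≤ x * Real.exp N := mul_le_mul_of_nonneg_left (Real.exp_le_exp.2 hxN) hx0
      _ = _ := by rw [hx]; ring

end one

section base
variable {K : Type} [Field K] [NumberField K]

/-- good primes -/
def GoodP (X : Set (MvPolynomial (Fin n) (𝓞 K))) (d i N : ℕ) (v : HeightOneSpectrum (𝓞 K)) : Prop :=
  ∃ α : Fin N → ℂ, IsFrobenius X d i v α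

lemma finite_not_good {X : Set (MvPolynomial (Fin n) (𝓞 K))} {d i N : ℕ}
    {B : HeightOneSpectrum (𝓞 K) → ℂ[X]} (h : IsEuler X d i N B) :
    {v | ¬ GoodP X d i N v}.Finite := by
  have h1 := h.1
  rw [eventually_cofinite] at h1
  refine h1.subset fun v hv h2 => hv ?_
  obtain ⟨α, h3, -⟩ := h2
  exact ⟨α, h3⟩

lemma one_sub_ne' {F : Type} [Field F] [NumberField F] {X : Set (MvPolynomial (Fin n) (𝓞 F))}
    {d i N : ℕ} {w : HeightOneSpectrum (𝓞 F)} {α : Fin N → ℂ} (h : IsFrobenius X d i w α)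
    {z : ℂ} (hz : ‖z‖ < (Ideal.absNorm w.asIdeal : ℝ) ^ (-((i : ℝ) / 2 + 1))) :
    ∏ j, (1 - α j * z) ≠ 0 := by
  refine Finset.prod_ne_zero_iff.2 fun j _ h0 => ?_
  have h1 : α j * z = 1 := (sub_eq_zero.1 h0).symm
  have h2 : ‖α j‖ * ‖z‖ = 1 := by rw [← norm_mul, h1, norm_one]
  rw [norm_frob h] at h2
  have hq0 := nm_pos' w
  have hq1 : (1 : ℝ) ≤ nm w := by
    have := two_le_nm w
    exact_mod_cast (by omega : 1 ≤ nm w)
  have h3 : (nm w : ℝ) ^ ((i : ℝ) / 2) * ‖z‖ <
      (nm w : ℝ) ^ ((i : ℝ) / 2) * (nm w : ℝ) ^ (-((i : ℝ) / 2 + 1)) :=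
    mul_lt_mul_of_pos_left hz (Real.rpow_pos_of_pos hq0 _)
  rw [← Real.rpow_add hq0, h2] at h3
  have h4 : (nm w : ℝ) ^ ((i : ℝ) / 2 + -((i : ℝ) / 2 + 1)) ≤ 1 :=
    Real.rpow_le_one_of_one_le_of_nonpos hq1 (by linarith)
  linarith

open Classical in
/-- the Euler factor of degree `m` over `v` -/
noncomputable def yv (X : Set (MvPolynomial (Fin n) (𝓞 K))) (d i N : ℕ)
    (v : HeightOneSpectrum (𝓞 K)) (m : ℕ) (s : ℂ) : ℂ :=
  if h : GoodP X d i N v ∧ m ≠ 0 then
    (∏ j, (1 - h.1.choose j ^ m * ((nm v ^ m : ℕ) : ℂ) ^ (-s)))⁻¹ else 1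

lemma yv_ne (X : Set (MvPolynomial (Fin n) (𝓞 K))) (d i N : ℕ)
    (v : HeightOneSpectrum (𝓞 K)) (m : ℕ) (s : ℂ) (hs : (i : ℝ) / 2 + 1 < s.re) :
    yv X d i N v m s ≠ 0 := by
  unfold yv
  split_ifs with h
  · refine inv_ne_zero (Finset.prod_ne_zero_iff.2 fun j _ h0 => ?_)
    have h1 := (sub_eq_zero.1 h0).symm
    have h2 := congrArg norm h1
    have hq0 := nm_pos' v
    have hv := two_le_nm v
    have hpos : 0 < nm v ^ m := Nat.pow_pos (by omega)
    have hone : 1 < nm v ^ m := Nat.one_lt_pow h.2 (by omega)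
    rw [norm_mul, norm_pow, norm_frob h.1.choose_spec, norm_one,
      Complex.norm_natCast_cpow_of_pos hpos, Complex.neg_re] at h2
    push_cast at h2
    have h3 : (((nm v : ℝ) ^ ((i : ℝ) / 2)) ^ m) = ((nm v : ℝ) ^ m) ^ ((i : ℝ) / 2) := by
      rw [← Real.rpow_natCast, ← Real.rpow_natCast, ← Real.rpow_mul hq0.le,
        ← Real.rpow_mul hq0.le, mul_comm]
    rw [h3, ← Real.rpow_add (by positivity)] at h2
    have h4 : ((nm v : ℝ) ^ m) ^ ((i : ℝ) / 2 + -s.re) < 1 := by
      refine Real.rpow_lt_one_of_one_lt_of_neg ?_ (by linarith)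
      exact_mod_cast hone
    linarith
  · exact one_ne_zero

open Classical in
/-- an Euler system over an extension field -/
noncomputable def BF (X : Set (MvPolynomial (Fin n) (𝓞 K))) (d i N : ℕ) (F : Type) [Field F]
    [NumberField F] [Algebra K F] (w : HeightOneSpectrum (𝓞 F)) : ℂ[X] :=
  if h : GoodP X d i N (dn K w) then
    ∏ j, (1 - C (h.choose j ^ (exists_deg (K := K) (w := w) rfl).choose) * Polynomial.X) else 1

theorem isEuler_BF {X : Set (MvPolynomial (Fin n) (𝓞 K))} {d i N : ℕ}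
    (hX : {v | ¬ GoodP X d i N v}.Finite) (F : Type) [Field F] [NumberField F] [Algebra K F] :
    IsEuler (bc F X) d i N (BF X d i N F) := by
  have key : ∀ w : HeightOneSpectrum (𝓞 F), GoodP X d i N (dn K w) →
      ∃ α : Fin N → ℂ, IsFrobenius (bc F X) d i w α ∧
        ∀ z : ℂ, (BF X d i N F w).eval z = ∏ j, (1 - α j * z) := by
    intro w hw
    have hdeg := (exists_deg (K := K) (w := w) rfl).choose_spec
    refine ⟨fun j => hw.choose j ^ (exists_deg (K := K) (w := w) rfl).choose,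
      frob_base rfl hdeg.2 hw.choose_spec, fun z => ?_⟩
    unfold BF
    rw [dif_pos hw, eval_prod]
    refine Finset.prod_congr rfl fun j _ => ?_
    simp
  refine ⟨?_, fun w z hz => ?_⟩
  · rw [eventually_cofinite]
    have h1 : (dn K ⁻¹' {v | ¬ GoodP X d i N v} : Set (HeightOneSpectrum (𝓞 F))).Finite := by
      refine hX.preimage' fun v _ => ?_
      have h0 : Finite {w : HeightOneSpectrum (𝓞 F) // dn K w = v} := inferInstance
      have h0' : Finite ((dn K ⁻¹' {v} : Set (HeightOneSpectrum (𝓞 F)))) := h0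
      exact Set.toFinite _
    refine h1.subset fun w hw hg => ?_
    exact hw (key w hg)
  · by_cases hg : GoodP X d i N (dn K w)
    · obtain ⟨α, h1, h2⟩ := key w hg
      rw [h2]
      exact one_sub_ne' h1 hz
    · unfold BF
      rw [dif_neg hg]
      simp

/-- the family of all L-functions of `X` over the finite extensions of `K` -/
noncomputable def sysX (X : Set (MvPolynomial (Fin n) (𝓞 K))) (d i N : ℕ) (hi : i ≤ 2 * d)
    (hX : {v | ¬ GoodP X d i N v}.Finite) : Sys K ((i : ℝ) / 2 + 1) where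
  S := fun F _ _ _ g => ∃ B, IsEuler (bc F X) d i N B ∧ g = factor B
  ed := by
    rintro F _ _ _ g ⟨B, h1, rfl⟩
    exact isED h1
  ex := fun F _ _ _ => ⟨_, BF X d i N F, isEuler_BF hX F, rfl⟩
  y := yv X d i N
  y_ne := fun v m s hs => yv_ne X d i N v m s hs
  comp := by
    rintro F _ _ _ g ⟨B, h1, rfl⟩
    have hb := h1.1
    rw [eventually_cofinite] at hb
    have hfin := hX.union (hb.image (dn K))
    refine hfin.subset fun v hv => ?_
    by_contra hcon
    rw [Set.mem_union, not_or] at hcon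
    obtain ⟨h2, h3⟩ := hcon
    have hgood : GoodP X d i N v := not_not.1 h2
    apply hv
    intro w m hw hm s hs
    have h4 : ∃ α : Fin N → ℂ, IsFrobenius (bc F X) d i w α ∧
        ∀ z : ℂ, (B w).eval z = ∏ j, (1 - α j * z) := by
      by_contra h5
      exact h3 ⟨w, h5, hw⟩
    obtain ⟨α, h5, h6⟩ := h4
    have hm0 : m ≠ 0 := by
      rintro rfl
      have := two_le_nm w
      rw [hm, pow_zero] at this
      omega
    unfold yv factor
    rw [dif_pos ⟨hgood, hm0⟩, h6]
    congr 1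
    have h7 := frob_base (F := F) hw hm hgood.choose_spec
    have h8 := frob_unique hi h5 h7
    have h9 := prod_congr_multiset h8 fun x => 1 - x * (Ideal.absNorm w.asIdeal : ℂ) ^ (-s)
    rw [h9]
    have h10 : (Ideal.absNorm w.asIdeal : ℂ) = ((nm v ^ m : ℕ) : ℂ) := by
      rw [← hm]
      rfl
    rw [h10]

end base

end Pool.Agent.HW484.V
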